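import Pool.Agent.H54.CT.Rad

/-!
# Radon points: properties

JOB CT-RADB: `rad_point`.  With `D = ∑_{k ∈ mask} al k` of sign `σ`:
`p = (R1 / D, R2 / D) = ∑_{mask} (al k / D) • x (e k)` is a convex combination of points of the set `i`,
and by `∑ al = 0`, `∑ al • x = 0` also `∑_{not mask} (al k / (-D)...)` of points of the set `j`
(weights `(-al k) / D ≥ 0` with sum `1`).

`same_sign`: `det3 (R1/D, R2/D) (R1'/D', R2'/D') (R1''/D'', R2''/D'') * (D D' D'') = W`.
-/

set_option autoImplicit false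

namespace Pool.Agent.H54.CT

theorem radB_mem (S : Finset (Fin 4)) (b : Fin 4 → ℝ) (D σ : ℝ) (z : Fin 4 → ℝ × ℝ)
    (V : Finset (ℝ × ℝ)) (hD : 0 < σ * D) (hb : ∀ k ∈ S, 0 < σ * b k) (hsum : ∑ k ∈ S, b k = D)
    (hV : ∀ k ∈ S, z k ∈ V) :
    ((∑ k ∈ S, b k * (z k).1) / D, (∑ k ∈ S, b k * (z k).2) / D) ∈ hull V := by
  have hD0 : D ≠ 0 := by
    rintro rfl
    simp at hD
  have e : ((∑ k ∈ S, b k * (z k).1) / D, (∑ k ∈ S, b k * (z k).2) / D) =
      ∑ k ∈ S, (b k / D) • z k := by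
    apply Prod.ext
    · rw [Prod.fst_sum]
      simp only [Prod.smul_fst, smul_eq_mul, Finset.sum_div]
      exact Finset.sum_congr rfl fun k _ => by ring
    · rw [Prod.snd_sum]
      simp only [Prod.smul_snd, smul_eq_mul, Finset.sum_div]
      exact Finset.sum_congr rfl fun k _ => by ring
  rw [e]
  refine (convex_convexHull ℝ _).sum_mem ?_ ?_ ?_
  · intro k hk
    have h1 := hb k hk
    have h2 : b k / D = (σ * b k) * (σ * D) / (σ * D) ^ 2 := by
      have hσ : σ ≠ 0 := by
        rintro rfl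
        simp at hD
      field_simp
    rw [h2]
    positivity
  · rw [← Finset.sum_div, hsum, div_self hD0]
  · intro k hk
    exact subset_convexHull ℝ _ (hV k hk)

theorem radB_al_sum {m : ℕ} (x : Fin m → ℝ × ℝ) (e : Fin 4 → Fin m) : ∑ k, al x e k = 0 := by
  rw [Fin.sum_univ_four]
  simp only [al, det3, Matrix.cons_val]
  ring

theorem radB_al_fst {m : ℕ} (x : Fin m → ℝ × ℝ) (e : Fin 4 → Fin m) :
    ∑ k, al x e k * (x (e k)).1 = 0 := by
  rw [Fin.sum_univ_four]
  simp only [al, det3, Matrix.cons_val]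
  ring

theorem radB_al_snd {m : ℕ} (x : Fin m → ℝ × ℝ) (e : Fin 4 → Fin m) :
    ∑ k, al x e k * (x (e k)).2 = 0 := by
  rw [Fin.sum_univ_four]
  simp only [al, det3, Matrix.cons_val]
  ring

theorem rad_point {m n : ℕ} (τ : Fin m → Fin n) (x : Fin m → ℝ × ℝ) (i j : Fin n) (hij : i ≠ j)
    (e : Fin 4 → Fin m) (σ : ℝ) (h : Wit τ x i j e σ) :
    0 < σ * rd τ x i e 2 ∧
      (rd τ x i e 0 / rd τ x i e 2, rd τ x i e 1 / rd τ x i e 2) ∈
        hull (part τ x i) ∩ hull (part τ x j) := by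
  obtain ⟨_, hσ, hτ, ⟨k0, hk0⟩, hpos⟩ := h
  have e2 : rd τ x i e 2 = ∑ k ∈ Finset.univ.filter (fun k => τ (e k) = i), al x e k := by
    rw [Finset.sum_filter]; rfl
  have e0 : rd τ x i e 0 = ∑ k ∈ Finset.univ.filter (fun k => τ (e k) = i),
      al x e k * (x (e k)).1 := by
    rw [Finset.sum_filter]; rfl
  have e1 : rd τ x i e 1 = ∑ k ∈ Finset.univ.filter (fun k => τ (e k) = i),
      al x e k * (x (e k)).2 := by
    rw [Finset.sum_filter]; rfl
  have hp1 : ∀ k ∈ Finset.univ.filter (fun k => τ (e k) = i), 0 < σ * al x e k := by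
    intro k hk
    have := hpos k
    rwa [if_pos (Finset.mem_filter.1 hk).2] at this
  have hp2 : ∀ k ∈ Finset.univ.filter (fun k => ¬ τ (e k) = i), 0 < σ * (-al x e k) := by
    intro k hk
    have := hpos k
    rwa [if_neg (Finset.mem_filter.1 hk).2] at this
  have hD : 0 < σ * rd τ x i e 2 := by
    rw [e2, Finset.mul_sum]
    exact Finset.sum_pos hp1 ⟨k0, Finset.mem_filter.2 ⟨Finset.mem_univ _, hk0⟩⟩
  have hs := Finset.sum_filter_add_sum_filter_not Finset.univ (fun k => τ (e k) = i)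
    (fun k => al x e k)
  have hs0 := Finset.sum_filter_add_sum_filter_not Finset.univ (fun k => τ (e k) = i)
    (fun k => al x e k * (x (e k)).1)
  have hs1 := Finset.sum_filter_add_sum_filter_not Finset.univ (fun k => τ (e k) = i)
    (fun k => al x e k * (x (e k)).2)
  rw [radB_al_sum, ← e2] at hs
  rw [radB_al_fst, ← e0] at hs0
  rw [radB_al_snd, ← e1] at hs1
  refine ⟨hD, ?_, ?_⟩
  · have := radB_mem (Finset.univ.filter (fun k => τ (e k) = i)) (fun k => al x e k)
      (rd τ x i e 2) σ (fun k => x (e k)) (part τ x i) hD hp1 e2.symm (fun k hk => by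
        unfold part
        exact Finset.mem_image.2 ⟨e k, Finset.mem_filter.2 ⟨Finset.mem_univ _,
          (Finset.mem_filter.1 hk).2⟩, rfl⟩)
    rw [← e0, ← e1] at this
    exact this
  · have := radB_mem (Finset.univ.filter (fun k => ¬ τ (e k) = i)) (fun k => -al x e k)
      (rd τ x i e 2) σ (fun k => x (e k)) (part τ x j) hD hp2
      (by rw [Finset.sum_neg_distrib]; linarith) (fun k hk => by
        unfold part
        exact Finset.mem_image.2 ⟨e k, Finset.mem_filter.2 ⟨Finset.mem_univ _,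
          (hτ k).resolve_left (Finset.mem_filter.1 hk).2⟩, rfl⟩)
    have e3 : ∑ k ∈ Finset.univ.filter (fun k => ¬ τ (e k) = i), -al x e k * (x (e k)).1 =
        rd τ x i e 0 := by
      simp only [neg_mul, Finset.sum_neg_distrib]
      linarith
    have e4 : ∑ k ∈ Finset.univ.filter (fun k => ¬ τ (e k) = i), -al x e k * (x (e k)).2 =
        rd τ x i e 1 := by
      simp only [neg_mul, Finset.sum_neg_distrib]
      linarith
    rw [e3, e4] at this
    exact this

theorem rad_det {m n : ℕ} (τ : Fin m → Fin n) (x : Fin m → ℝ × ℝ) (i j k : Fin n)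
    (e e' e'' : Fin 4 → Fin m) (h : rd τ x i e 2 ≠ 0) (h' : rd τ x j e' 2 ≠ 0)
    (h'' : rd τ x k e'' 2 ≠ 0) :
    det3 (rd τ x i e 0 / rd τ x i e 2, rd τ x i e 1 / rd τ x i e 2)
        (rd τ x j e' 0 / rd τ x j e' 2, rd τ x j e' 1 / rd τ x j e' 2)
        (rd τ x k e'' 0 / rd τ x k e'' 2, rd τ x k e'' 1 / rd τ x k e'' 2) *
      (rd τ x i e 2 * rd τ x j e' 2 * rd τ x k e'' 2) = rw3 τ x i j k e e' e'' := by
  unfold rw3
  rw [Matrix.det_fin_three]
  simp only [Matrix.of_apply, Matrix.cons_val', Matrix.cons_val_zero, Matrix.cons_val_one,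
    Matrix.cons_val, det3]
  revert h h' h''
  generalize rd τ x i e 0 = a0
  generalize rd τ x i e 1 = a1
  generalize rd τ x i e 2 = a2
  generalize rd τ x j e' 0 = b0
  generalize rd τ x j e' 1 = b1
  generalize rd τ x j e' 2 = b2
  generalize rd τ x k e'' 0 = c0
  generalize rd τ x k e'' 1 = c1
  generalize rd τ x k e'' 2 = c2
  intro h h' h''
  field_simp
  ring

end Pool.Agent.H54.CT
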