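import Pool.Agent.H54.CT.RadA
import Pool.Agent.H54.CT.RadB

/-!
# Counting

JOB CT-CNTA.

`same_chi`: let `i, j, k` be distinct.  The hulls of `part τ x i`, `part τ x j` intersect, so `hull_radon`
gives `e, σ` with `Wit τ x i j e σ`; similarly `e', σ'` for `(j, k)` and `e'', σ''` for `(k, i)`.
`Wit` only depends on the signs of the `det3 (x a) (x b) (x c)`, `a, b, c` distinct (`e` is injective), so
also `Wit τ x' i j e σ` etc. (`hO`: same strict signs).  `rad_point` gives `p, q, r` (for `x`) and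
`p', q', r'` (for `x'`) in the pairwise intersections, so `0 < χ i j k * det3 p q r` and
`0 < χ' i j k * det3 p' q' r'`.  By `rad_det`, `det3 p q r` times the product of the three third coordinates,
which has the sign `σ σ' σ''`, is `rw3 τ x i j k e e' e''`; it is non-zero, so by `hW` the value for `x'`
has the same sign, and `det3 p q r`, `det3 p' q' r'` have the same sign.  So `χ i j k` and `χ' i j k` have
the same sign; both are `±1` (`SignType` cases).  For non-distinct triples both are `0`.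
-/

set_option autoImplicit false

namespace Pool.Agent.H54.CT

theorem cntA_pos {a b : ℝ} (ha : 0 < a) (hab : 0 < a * b) : 0 < b := by
  by_contra h
  have := mul_nonpos_of_nonneg_of_nonpos ha.le (not_lt.1 h)
  linarith

theorem cntA_al {m : ℕ} {x x' : Fin m → ℝ × ℝ}
    (hO : ∀ a b c, a ≠ b → b ≠ c → a ≠ c →
      0 < det3 (x a) (x b) (x c) * det3 (x' a) (x' b) (x' c))
    {e : Fin 4 → Fin m} (he : Function.Injective e) (k : Fin 4) : 0 < al x e k * al x' e k := by
  have h01 : e 0 ≠ e 1 := fun h => absurd (he h) (by decide)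
  have h02 : e 0 ≠ e 2 := fun h => absurd (he h) (by decide)
  have h03 : e 0 ≠ e 3 := fun h => absurd (he h) (by decide)
  have h12 : e 1 ≠ e 2 := fun h => absurd (he h) (by decide)
  have h13 : e 1 ≠ e 3 := fun h => absurd (he h) (by decide)
  have h23 : e 2 ≠ e 3 := fun h => absurd (he h) (by decide)
  fin_cases k
  · exact hO _ _ _ h12 h23 h13
  · show 0 < - det3 (x (e 0)) (x (e 2)) (x (e 3)) * - det3 (x' (e 0)) (x' (e 2)) (x' (e 3))
    rw [neg_mul_neg]
    exact hO _ _ _ h02 h23 h03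
  · exact hO _ _ _ h01 h13 h03
  · show 0 < - det3 (x (e 0)) (x (e 1)) (x (e 2)) * - det3 (x' (e 0)) (x' (e 1)) (x' (e 2))
    rw [neg_mul_neg]
    exact hO _ _ _ h01 h12 h02

theorem cntA_wit {m n : ℕ} {τ : Fin m → Fin n} {x x' : Fin m → ℝ × ℝ}
    (hO : ∀ a b c, a ≠ b → b ≠ c → a ≠ c →
      0 < det3 (x a) (x b) (x c) * det3 (x' a) (x' b) (x' c))
    {i j : Fin n} {e : Fin 4 → Fin m} {σ : ℝ} (h : Wit τ x i j e σ) : Wit τ x' i j e σ := by
  obtain ⟨he, hσ, hτ, hk, hpos⟩ := h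
  refine ⟨he, hσ, hτ, hk, fun k => ?_⟩
  have h1 := hpos k
  have h2 := cntA_al hO he k
  have hσ2 : σ * σ = 1 := by rcases hσ with rfl | rfl <;> norm_num
  apply cntA_pos h1
  have h3 : (if τ (e k) = i then al x e k else - al x e k) *
      (if τ (e k) = i then al x' e k else - al x' e k) = al x e k * al x' e k := by
    split_ifs
    · rfl
    · rw [neg_mul_neg]
  have h4 : σ * (if τ (e k) = i then al x e k else - al x e k) *
      (σ * (if τ (e k) = i then al x' e k else - al x' e k)) = σ * σ *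
      ((if τ (e k) = i then al x e k else - al x e k) *
      (if τ (e k) = i then al x' e k else - al x' e k)) := by ring
  rw [h4, h3, hσ2, one_mul]
  exact h2

theorem cntA_prod {σ D E : ℝ} (h1 : 0 < σ * D) (h2 : 0 < σ * E) : 0 < D * E := by
  have h3 : 0 < (σ * D) * (σ * E) := mul_pos h1 h2
  have h4 : (σ * D) * (σ * E) = (σ * σ) * (D * E) := by ring
  rw [h4] at h3
  have hσ : 0 < σ * σ := by
    have : σ ≠ 0 := by rintro rfl; simp at h1
    exact mul_self_pos.2 this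
  exact cntA_pos hσ h3

theorem cntA_sign {a b : SignType} (h : 0 < (a : ℝ) * (b : ℝ)) : a = b := by
  cases a <;> cases b <;> first | rfl | (exfalso; revert h; norm_num)

theorem same_chi {m n : ℕ} (hm : 3 ≤ m) (τ : Fin m → Fin n) (x x' : Fin m → ℝ × ℝ)
    (χ χ' : Fin n → Fin n → Fin n → SignType)
    (z : ∀ i j k, i = j ∨ j = k ∨ i = k → χ i j k = 0)
    (z' : ∀ i j k, i = j ∨ j = k ∨ i = k → χ' i j k = 0)
    (r : Realizes (fun i => hull (part τ x i)) χ) (r' : Realizes (fun i => hull (part τ x' i)) χ')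
    (hO : ∀ a b c, a ≠ b → b ≠ c → a ≠ c →
      0 < det3 (x a) (x b) (x c) * det3 (x' a) (x' b) (x' c))
    (hW : ∀ i j k e e' e'', rw3 τ x i j k e e' e'' ≠ 0 →
      0 < rw3 τ x i j k e e' e'' * rw3 τ x' i j k e e' e'') : χ = χ' := by
  funext i j k
  by_cases hd : i = j ∨ j = k ∨ i = k
  · rw [z i j k hd, z' i j k hd]
  push Not at hd
  obtain ⟨hij, hjk, hik⟩ := hd
  have gen : ∀ a b c, a ≠ b → b ≠ c → a ≠ c → det3 (x a) (x b) (x c) ≠ 0 := by
    intro a b c h1 h2 h3 h0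
    have := hO a b c h1 h2 h3
    rw [h0, zero_mul] at this
    exact lt_irrefl _ this
  obtain ⟨e, σ, w1⟩ := hull_radon hm τ x gen i j hij (r.2.1 i j)
  obtain ⟨e', σ', w2⟩ := hull_radon hm τ x gen j k hjk (r.2.1 j k)
  obtain ⟨e'', σ'', w3⟩ := hull_radon hm τ x gen k i hik.symm (r.2.1 k i)
  obtain ⟨d1, p1⟩ := rad_point τ x i j hij e σ w1
  obtain ⟨d2, p2⟩ := rad_point τ x j k hjk e' σ' w2
  obtain ⟨d3, p3⟩ := rad_point τ x k i hik.symm e'' σ'' w3
  obtain ⟨d1', p1'⟩ := rad_point τ x' i j hij e σ (cntA_wit hO w1)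
  obtain ⟨d2', p2'⟩ := rad_point τ x' j k hjk e' σ' (cntA_wit hO w2)
  obtain ⟨d3', p3'⟩ := rad_point τ x' k i hik.symm e'' σ'' (cntA_wit hO w3)
  have c1 := r.2.2.2 i j k hij hjk hik _ p1 _ p2 _ p3
  have c2 := r'.2.2.2 i j k hij hjk hik _ p1' _ p2' _ p3'
  have ne : ∀ {s D : ℝ}, 0 < s * D → D ≠ 0 := by
    rintro s D h rfl
    rw [mul_zero] at h
    exact lt_irrefl _ h
  have f1 := rad_det τ x i j k e e' e'' (ne d1) (ne d2) (ne d3)
  have f2 := rad_det τ x' i j k e e' e'' (ne d1') (ne d2') (ne d3')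
  have E1 := cntA_prod d1 d1'
  have E2 := cntA_prod d2 d2'
  have E3 := cntA_prod d3 d3'
  have hW' := hW i j k e e' e''
  rw [← f1, ← f2] at hW'
  revert c1 c2 hW' E1 E2 E3
  have n1 := ne d1
  have n2 := ne d2
  have n3 := ne d3
  generalize det3 (rd τ x i e 0 / rd τ x i e 2, rd τ x i e 1 / rd τ x i e 2)
        (rd τ x j e' 0 / rd τ x j e' 2, rd τ x j e' 1 / rd τ x j e' 2)
        (rd τ x k e'' 0 / rd τ x k e'' 2, rd τ x k e'' 1 / rd τ x k e'' 2) = d
  generalize det3 (rd τ x' i e 0 / rd τ x' i e 2, rd τ x' i e 1 / rd τ x' i e 2)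
        (rd τ x' j e' 0 / rd τ x' j e' 2, rd τ x' j e' 1 / rd τ x' j e' 2)
        (rd τ x' k e'' 0 / rd τ x' k e'' 2, rd τ x' k e'' 1 / rd τ x' k e'' 2) = d'
  intro c1 c2 E1 E2 E3 hW'
  apply cntA_sign
  have hd : d ≠ 0 := ne c1
  have h1 := hW' (mul_ne_zero hd (mul_ne_zero (mul_ne_zero n1 n2) n3))
  have h2 : d * (rd τ x i e 2 * rd τ x j e' 2 * rd τ x k e'' 2) *
      (d' * (rd τ x' i e 2 * rd τ x' j e' 2 * rd τ x' k e'' 2)) =
      (rd τ x i e 2 * rd τ x' i e 2) * (rd τ x j e' 2 * rd τ x' j e' 2) *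
        (rd τ x k e'' 2 * rd τ x' k e'' 2) * (d * d') := by ring
  rw [h2] at h1
  have h3 := cntA_pos (mul_pos (mul_pos E1 E2) E3) h1
  have h4 : 0 < ((χ i j k : ℝ) * d) * ((χ' i j k : ℝ) * d') := mul_pos c1 c2
  have h5 : ((χ i j k : ℝ) * d) * ((χ' i j k : ℝ) * d') =
      (d * d') * ((χ i j k : ℝ) * (χ' i j k : ℝ)) := by ring
  rw [h5] at h4
  exact cntA_pos h3 h4

end Pool.Agent.H54.CT
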