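import Pool.Agent.H54.CT.Rad

/-!
# The polynomials

JOB CT-POLY.

Variables `(k, 0)` (abscissa of the point `k`) and `(k, 1)` (ordinate).
`polyO a b c = (X(b,0) - X(a,0)) (X(c,1) - X(a,1)) - (X(b,1) - X(a,1)) (X(c,0) - X(a,0))`, degree `≤ 2`
(`totalDegree_sub`, `totalDegree_mul`, `totalDegree_X`); for distinct `a, b, c` it is not zero:
evaluate at `(0,0), (1,0), (0,1)`.
`polyR τ i e l` the three polynomials of `rd` (coefficients `al`: `± polyO`), degrees `≤ 3, 3, 2`;
`polyW` the determinant, degree `≤ 8` (expand `Matrix.det_fin_three`).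
`polys` packs what is needed.

`generic`: a non-zero polynomial does not vanish identically on an open box:
`MvPolynomial.funext_set` (with `q = 0`, the intervals `(y i - ε, y i + ε)` are infinite) or induction.
-/

set_option autoImplicit false

namespace Pool.Agent.H54.CT

open MvPolynomial

/-- the coordinates of a configuration -/
def co {m : ℕ} (x : Fin m → ℝ × ℝ) (a : Fin m × Fin 2) : ℝ :=
  if a.2 = 0 then (x a.1).1 else (x a.1).2

/-- the polynomial of an orientation -/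
noncomputable def polyOP (m : ℕ) (a b c : Fin m) : MvPolynomial (Fin m × Fin 2) ℝ :=
  (X (b, 0) - X (a, 0)) * (X (c, 1) - X (a, 1)) - (X (b, 1) - X (a, 1)) * (X (c, 0) - X (a, 0))

theorem polyDegSub {σ : Type*} {p q : MvPolynomial σ ℝ} {d : ℕ} (hp : p.totalDegree ≤ d)
    (hq : q.totalDegree ≤ d) : (p - q).totalDegree ≤ d :=
  (totalDegree_sub p q).trans (max_le hp hq)

theorem polyDegAdd {σ : Type*} {p q : MvPolynomial σ ℝ} {d : ℕ} (hp : p.totalDegree ≤ d)
    (hq : q.totalDegree ≤ d) : (p + q).totalDegree ≤ d :=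
  (totalDegree_add p q).trans (max_le hp hq)

theorem polyDegMul {σ : Type*} {p q : MvPolynomial σ ℝ} {d e : ℕ} (hp : p.totalDegree ≤ d)
    (hq : q.totalDegree ≤ e) : (p * q).totalDegree ≤ d + e :=
  (totalDegree_mul p q).trans (add_le_add hp hq)

theorem polyDegX {σ : Type*} (a : σ) : (X a : MvPolynomial σ ℝ).totalDegree ≤ 1 :=
  (totalDegree_X a).le

theorem polyDegO (m : ℕ) (a b c : Fin m) : (polyOP m a b c).totalDegree ≤ 2 := by
  unfold polyOP
  have h : ∀ s t : Fin m × Fin 2, (X s - X t : MvPolynomial (Fin m × Fin 2) ℝ).totalDegree ≤ 1 :=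
    fun s t => polyDegSub (polyDegX s) (polyDegX t)
  exact polyDegSub (polyDegMul (h _ _) (h _ _)) (polyDegMul (h _ _) (h _ _))

theorem polyCo0 {m : ℕ} (x : Fin m → ℝ × ℝ) (a : Fin m) : co x (a, 0) = (x a).1 := by
  simp [co]

theorem polyCo1 {m : ℕ} (x : Fin m → ℝ × ℝ) (a : Fin m) : co x (a, 1) = (x a).2 := by
  simp [co]

theorem polyEvalO (m : ℕ) (a b c : Fin m) (x : Fin m → ℝ × ℝ) :
    eval (co x) (polyOP m a b c) = det3 (x a) (x b) (x c) := by
  simp only [polyOP, map_sub, map_mul, eval_X, polyCo0, polyCo1, det3]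

theorem polysO (m : ℕ) : ∃ O : Fin m → Fin m → Fin m → MvPolynomial (Fin m × Fin 2) ℝ,
    (∀ a b c, (O a b c).totalDegree ≤ 8) ∧
    (∀ a b c, ∀ x : Fin m → ℝ × ℝ, eval (co x) (O a b c) = det3 (x a) (x b) (x c)) ∧
    ∀ a b c, a ≠ b → b ≠ c → a ≠ c → O a b c ≠ 0 := by
  refine ⟨polyOP m, fun a b c => (polyDegO m a b c).trans (by norm_num), polyEvalO m, ?_⟩
  intro a b c hab hbc hac h0
  have h1 := polyEvalO m a b c (fun k => if k = b then (1, 0) else if k = c then (0, 1) else (0, 0))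
  rw [h0] at h1
  simp only [map_zero, if_neg hab, if_neg hac, if_neg (Ne.symm hbc), if_true, det3] at h1
  norm_num at h1

/-- the polynomials of the coefficients -/
noncomputable def polyA {m : ℕ} (e : Fin 4 → Fin m) (k : Fin 4) : MvPolynomial (Fin m × Fin 2) ℝ :=
  ![polyOP m (e 1) (e 2) (e 3), - polyOP m (e 0) (e 2) (e 3),
    polyOP m (e 0) (e 1) (e 3), - polyOP m (e 0) (e 1) (e 2)] k

theorem polyDegA {m : ℕ} (e : Fin 4 → Fin m) (k : Fin 4) : (polyA e k).totalDegree ≤ 2 := by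
  fin_cases k
  · exact polyDegO m _ _ _
  · show (- polyOP m (e 0) (e 2) (e 3)).totalDegree ≤ 2
    rw [totalDegree_neg]; exact polyDegO m _ _ _
  · exact polyDegO m _ _ _
  · show (- polyOP m (e 0) (e 1) (e 2)).totalDegree ≤ 2
    rw [totalDegree_neg]; exact polyDegO m _ _ _

theorem polyEvalA {m : ℕ} (e : Fin 4 → Fin m) (k : Fin 4) (x : Fin m → ℝ × ℝ) :
    eval (co x) (polyA e k) = al x e k := by
  fin_cases k
  · exact polyEvalO m _ _ _ x
  · show eval (co x) (- polyOP m (e 0) (e 2) (e 3)) = - det3 (x (e 0)) (x (e 2)) (x (e 3))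
    rw [map_neg, polyEvalO]
  · exact polyEvalO m _ _ _ x
  · show eval (co x) (- polyOP m (e 0) (e 1) (e 2)) = - det3 (x (e 0)) (x (e 1)) (x (e 2))
    rw [map_neg, polyEvalO]

/-- the polynomials of the homogeneous coordinates, first two -/
noncomputable def polyRc {m n : ℕ} (τ : Fin m → Fin n) (i : Fin n) (e : Fin 4 → Fin m) (j : Fin 2) :
    MvPolynomial (Fin m × Fin 2) ℝ :=
  ∑ k, if τ (e k) = i then polyA e k * X (e k, j) else 0

/-- the polynomials of the homogeneous coordinates, last -/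
noncomputable def polyRl {m n : ℕ} (τ : Fin m → Fin n) (i : Fin n) (e : Fin 4 → Fin m) :
    MvPolynomial (Fin m × Fin 2) ℝ :=
  ∑ k, if τ (e k) = i then polyA e k else 0

theorem polyDegRc {m n : ℕ} (τ : Fin m → Fin n) (i : Fin n) (e : Fin 4 → Fin m) (j : Fin 2) :
    (polyRc τ i e j).totalDegree ≤ 3 := by
  unfold polyRc
  apply totalDegree_finsetSum_le
  intro k _
  split_ifs
  · exact polyDegMul (polyDegA e k) (polyDegX _)
  · simp

theorem polyDegRl {m n : ℕ} (τ : Fin m → Fin n) (i : Fin n) (e : Fin 4 → Fin m) :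
    (polyRl τ i e).totalDegree ≤ 2 := by
  unfold polyRl
  apply totalDegree_finsetSum_le
  intro k _
  split_ifs
  · exact polyDegA e k
  · simp

theorem polyEvalR0 {m n : ℕ} (τ : Fin m → Fin n) (i : Fin n) (e : Fin 4 → Fin m)
    (x : Fin m → ℝ × ℝ) : eval (co x) (polyRc τ i e 0) = rd τ x i e 0 := by
  show eval (co x) (∑ k, if τ (e k) = i then polyA e k * X (e k, 0) else 0) =
    ∑ k, (if τ (e k) = i then al x e k * (x (e k)).1 else 0)
  rw [map_sum]
  apply Finset.sum_congr rfl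
  intro k _
  split_ifs
  · rw [map_mul, polyEvalA, eval_X, polyCo0]
  · rw [map_zero]

theorem polyEvalR1 {m n : ℕ} (τ : Fin m → Fin n) (i : Fin n) (e : Fin 4 → Fin m)
    (x : Fin m → ℝ × ℝ) : eval (co x) (polyRc τ i e 1) = rd τ x i e 1 := by
  show eval (co x) (∑ k, if τ (e k) = i then polyA e k * X (e k, 1) else 0) =
    ∑ k, (if τ (e k) = i then al x e k * (x (e k)).2 else 0)
  rw [map_sum]
  apply Finset.sum_congr rfl
  intro k _
  split_ifs
  · rw [map_mul, polyEvalA, eval_X, polyCo1]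
  · rw [map_zero]

theorem polyEvalR2 {m n : ℕ} (τ : Fin m → Fin n) (i : Fin n) (e : Fin 4 → Fin m)
    (x : Fin m → ℝ × ℝ) : eval (co x) (polyRl τ i e) = rd τ x i e 2 := by
  show eval (co x) (∑ k, if τ (e k) = i then polyA e k else 0) =
    ∑ k, (if τ (e k) = i then al x e k else 0)
  rw [map_sum]
  apply Finset.sum_congr rfl
  intro k _
  split_ifs
  · rw [polyEvalA]
  · rw [map_zero]

theorem polysW {m n : ℕ} (τ : Fin m → Fin n) :
    ∃ W : (Fin n × (Fin 4 → Fin m)) → (Fin n × (Fin 4 → Fin m)) → (Fin n × (Fin 4 → Fin m)) →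
        MvPolynomial (Fin m × Fin 2) ℝ,
      (∀ a b c, (W a b c).totalDegree ≤ 8) ∧
      ∀ a b c, ∀ x : Fin m → ℝ × ℝ,
        eval (co x) (W a b c) = rw3 τ x a.1 b.1 c.1 a.2 b.2 c.2 := by
  refine ⟨fun a b c =>
    polyRc τ a.1 a.2 0 * polyRc τ b.1 b.2 1 * polyRl τ c.1 c.2
    - polyRc τ a.1 a.2 0 * polyRl τ b.1 b.2 * polyRc τ c.1 c.2 1
    - polyRc τ a.1 a.2 1 * polyRc τ b.1 b.2 0 * polyRl τ c.1 c.2
    + polyRc τ a.1 a.2 1 * polyRl τ b.1 b.2 * polyRc τ c.1 c.2 0
    + polyRl τ a.1 a.2 * polyRc τ b.1 b.2 0 * polyRc τ c.1 c.2 1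
    - polyRl τ a.1 a.2 * polyRc τ b.1 b.2 1 * polyRc τ c.1 c.2 0, ?_, ?_⟩
  · intro a b c
    have h0 := polyDegRc τ a.1 a.2
    have h1 := polyDegRc τ b.1 b.2
    have h2 := polyDegRc τ c.1 c.2
    have l0 := polyDegRl τ a.1 a.2
    have l1 := polyDegRl τ b.1 b.2
    have l2 := polyDegRl τ c.1 c.2
    refine polyDegSub (polyDegAdd (polyDegAdd (polyDegSub (polyDegSub ?_ ?_) ?_) ?_) ?_) ?_
    · exact polyDegMul (polyDegMul (h0 0) (h1 1)) l2
    · exact polyDegMul (polyDegMul (h0 0) l1) (h2 1)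
    · exact polyDegMul (polyDegMul (h0 1) (h1 0)) l2
    · exact polyDegMul (polyDegMul (h0 1) l1) (h2 0)
    · exact polyDegMul (polyDegMul l0 (h1 0)) (h2 1)
    · exact polyDegMul (polyDegMul l0 (h1 1)) (h2 0)
  · intro a b c x
    simp only [map_sub, map_add, map_mul, polyEvalR0, polyEvalR1, polyEvalR2]
    unfold rw3
    rw [Matrix.det_fin_three]
    simp only [Matrix.of_apply, Matrix.cons_val', Matrix.cons_val_zero, Matrix.cons_val_one,
      Matrix.cons_val_fin_one, Matrix.cons_val]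

theorem generic {m : ℕ} (F : MvPolynomial (Fin m × Fin 2) ℝ) (hF : F ≠ 0) (x0 : Fin m → ℝ × ℝ)
    (ε : ℝ) (hε : 0 < ε) : ∃ x : Fin m → ℝ × ℝ,
      (∀ k, |(x k).1 - (x0 k).1| < ε ∧ |(x k).2 - (x0 k).2| < ε) ∧ eval (co x) F ≠ 0 := by
  by_contra hcon
  push Not at hcon
  apply hF
  refine funext_set (fun a => Set.Ioo (co x0 a - ε) (co x0 a + ε)) (fun a => Set.Ioo_infinite (by linarith)) ?_
  intro y hy
  rw [map_zero]
  have h1 := hcon (fun k => (y (k, 0), y (k, 1))) (fun k => by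
    have h2 := hy (k, 0) (Set.mem_univ _)
    have h3 := hy (k, 1) (Set.mem_univ _)
    rw [Set.mem_Ioo, polyCo0] at h2
    rw [Set.mem_Ioo, polyCo1] at h3
    exact ⟨by rw [abs_lt]; constructor <;> simp only <;> linarith,
      by rw [abs_lt]; constructor <;> simp only <;> linarith⟩)
  have h4 : co (fun k => (y (k, 0), y (k, 1))) = y := by
    funext a
    obtain ⟨k, j⟩ := a
    fin_cases j
    · exact polyCo0 _ k
    · exact polyCo1 _ k
  rw [h4] at h1
  exact h1

end Pool.Agent.H54.CT
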