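import Pool.Agent.H54.CT.Defs

/-!
# The orientation of three convex sets does not depend on the chosen points

JOB CT-ORI.

`det3_ne`: if `det3 p q r = 0` the three points are collinear and one is between the other two
(`Collinear` API, or by hand: if all are equal trivial; otherwise they lie on a line
`u + t d`; compare the parameters).  If `q ∈ segment p r`: `p, r ∈ A` so `q ∈ A ∩ B ∩ C`; if
`p ∈ segment q r`: `q, r ∈ C`, so `p ∈ C`; if `r ∈ segment p q`: `p, q ∈ B`, so `r ∈ B`.

`orient_const`: `det3` is affine in every argument.  Move `p` to `p'` along the segment (which is in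
`A ∩ B`): `det3 ((1 - t) p + t p') q r = (1 - t) det3 p q r + t det3 p' q r` never vanishes on `[0, 1]`
by `det3_ne`, so both ends have the same sign (if `det3 p q r > 0 ≥ det3 p' q r` put
`t = det3 p q r / (det3 p q r - det3 p' q r)`).  Then move `q`, then `r` (use
`det3 p q r = det3 q r p = det3 r p q`, `ring`).
-/

set_option autoImplicit false

namespace Pool.Agent.H54.CT

/-- Three collinear points: one is between the other two. -/
theorem between_of_det3 {p q r : ℝ × ℝ} (h : det3 p q r = 0) :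
    q ∈ segment ℝ p r ∨ p ∈ segment ℝ q r ∨ r ∈ segment ℝ p q := by
  unfold det3 at h
  -- a common direction
  obtain ⟨u, d, a, b, c, hp, hq, hr⟩ : ∃ (u d : ℝ × ℝ) (a b c : ℝ), p = u + a • d ∧ q = u + b • d ∧
      r = u + c • d := by
    by_cases h1 : q.1 - p.1 = 0
    · by_cases h2 : q.2 - p.2 = 0
      · refine ⟨p, r - p, 0, 0, 1, by simp, ?_, by simp⟩
        ext
        · simp; linarith
        · simp; linarith
      · refine ⟨p, q - p, 0, 1, (r.2 - p.2) / (q.2 - p.2), by simp, by simp, ?_⟩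
        have h3 : r.1 - p.1 = 0 := by
          rw [h1] at h
          have h4 : (q.2 - p.2) * (r.1 - p.1) = 0 := by linarith
          rcases mul_eq_zero.1 h4 with h5 | h5
          · exact absurd h5 h2
          · exact h5
        ext
        · simp only [Prod.fst_add, Prod.smul_fst, Prod.fst_sub, smul_eq_mul]
          rw [h1, mul_zero]; linarith
        · simp only [Prod.snd_add, Prod.smul_snd, Prod.snd_sub, smul_eq_mul]
          field_simp
          ring
    · refine ⟨p, q - p, 0, 1, (r.1 - p.1) / (q.1 - p.1), by simp, by simp, ?_⟩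
      ext
      · simp only [Prod.fst_add, Prod.smul_fst, Prod.fst_sub, smul_eq_mul]
        field_simp
        ring
      · simp only [Prod.snd_add, Prod.smul_snd, Prod.snd_sub, smul_eq_mul]
        field_simp
        linarith
  -- between on a line
  have key : ∀ {x y z : ℝ}, x ≤ y → y ≤ z → u + y • d ∈ segment ℝ (u + x • d) (u + z • d) := by
    intro x y z hxy hyz
    rcases eq_or_lt_of_le (hxy.trans hyz) with hxz | hxz
    · have e : y = x := le_antisymm (by rw [hxz]; exact hyz) hxy
      rw [e]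
      exact left_mem_segment ℝ _ _
    · have hne : z - x ≠ 0 := by linarith
      refine ⟨(z - y) / (z - x), (y - x) / (z - x), div_nonneg (by linarith) (by linarith),
        div_nonneg (by linarith) (by linarith), by field_simp; ring, ?_⟩
      ext
      · simp only [Prod.fst_add, Prod.smul_fst, smul_eq_mul]
        field_simp
        ring
      · simp only [Prod.snd_add, Prod.smul_snd, smul_eq_mul]
        field_simp
        ring
  have hsymm := fun (x y : ℝ × ℝ) => segment_symm ℝ x y
  rw [hp, hq, hr]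
  rcases le_total a b with h1 | h1 <;> rcases le_total b c with h2 | h2 <;> rcases le_total a c with h3 | h3
  · exact Or.inl (key h1 h2)
  · exact Or.inl (key h1 h2)
  · exact Or.inr (Or.inr (key h3 h2))
  · refine Or.inr (Or.inl ?_)
    rw [hsymm]
    exact key h3 h1
  · exact Or.inr (Or.inl (key h1 h3))
  · refine Or.inr (Or.inr ?_)
    rw [hsymm]
    exact key h2 h3
  · refine Or.inl ?_
    rw [hsymm]
    exact key h2 h1
  · refine Or.inl ?_
    rw [hsymm]
    exact key h2 h1

theorem det3_ne {A B C : Set (ℝ × ℝ)} (hA : Convex ℝ A) (hB : Convex ℝ B) (hC : Convex ℝ C)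
    (h : A ∩ B ∩ C = ∅) {p q r : ℝ × ℝ} (hp : p ∈ A ∩ B) (hq : q ∈ B ∩ C) (hr : r ∈ C ∩ A) :
    det3 p q r ≠ 0 := by
  intro h0
  rcases between_of_det3 h0 with h1 | h1 | h1
  · have h2 : q ∈ A ∩ B ∩ C := ⟨⟨hA.segment_subset hp.1 hr.2 h1, hq.1⟩, hq.2⟩
    rw [h] at h2
    exact h2
  · have h2 : p ∈ A ∩ B ∩ C := ⟨hp, hC.segment_subset hq.2 hr.1 h1⟩
    rw [h] at h2
    exact h2
  · have h2 : r ∈ A ∩ B ∩ C := ⟨⟨hr.2, hB.segment_subset hp.2 hq.1 h1⟩, hr.1⟩
    rw [h] at h2
    exact h2

theorem det3_move {A B C : Set (ℝ × ℝ)} (hA : Convex ℝ A) (hB : Convex ℝ B) (hC : Convex ℝ C)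
    (h : A ∩ B ∩ C = ∅) {p q r p' : ℝ × ℝ} (hp : p ∈ A ∩ B) (hq : q ∈ B ∩ C)
    (hr : r ∈ C ∩ A) (hp' : p' ∈ A ∩ B) : 0 < det3 p q r * det3 p' q r := by
  have h1 := det3_ne hA hB hC h hp hq hr
  have h2 := det3_ne hA hB hC h hp' hq hr
  by_contra hcon
  have h3 : det3 p q r * det3 p' q r < 0 := lt_of_le_of_ne (not_lt.1 hcon) (mul_ne_zero h1 h2)
  have hne : det3 p q r - det3 p' q r ≠ 0 := by
    intro h4
    have h5 : det3 p q r = det3 p' q r := by linarith
    rw [h5] at h3
    nlinarith [mul_self_nonneg (det3 p' q r)]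
  -- the parameter
  have ht : ∃ t : ℝ, 0 ≤ t ∧ t ≤ 1 ∧ (1 - t) * det3 p q r + t * det3 p' q r = 0 := by
    refine ⟨det3 p q r / (det3 p q r - det3 p' q r), ?_, ?_, by field_simp; ring⟩
    · rcases lt_or_gt_of_ne h1 with h4 | h4
      · have h5 : 0 < det3 p' q r := by nlinarith
        exact div_nonneg_of_nonpos h4.le (by linarith)
      · have h5 : det3 p' q r < 0 := by nlinarith
        exact div_nonneg h4.le (by linarith)
    · rcases lt_or_gt_of_ne h1 with h4 | h4
      · have h5 : 0 < det3 p' q r := by nlinarith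
        rw [div_le_one_of_neg (by linarith)]
        linarith
      · have h5 : det3 p' q r < 0 := by nlinarith
        rw [div_le_one (by linarith)]
        linarith
  obtain ⟨t, ht0, ht1, ht⟩ := ht
  refine det3_ne hA hB hC h (p := (1 - t) • p + t • p') (q := q) (r := r)
    ((hA.inter hB) hp hp' (by linarith) ht0 (by ring)) hq hr ?_
  rw [← ht]
  unfold det3
  simp only [Prod.fst_add, Prod.smul_fst, Prod.snd_add, Prod.smul_snd, smul_eq_mul]
  ring

theorem orient_const {A B C : Set (ℝ × ℝ)} (hA : Convex ℝ A) (hB : Convex ℝ B) (hC : Convex ℝ C)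
    (h : A ∩ B ∩ C = ∅) {p q r p' q' r' : ℝ × ℝ} (hp : p ∈ A ∩ B) (hq : q ∈ B ∩ C)
    (hr : r ∈ C ∩ A) (hp' : p' ∈ A ∩ B) (hq' : q' ∈ B ∩ C) (hr' : r' ∈ C ∩ A) :
    0 < det3 p q r * det3 p' q' r' := by
  have hrot : ∀ a b c : ℝ × ℝ, det3 a b c = det3 b c a := by
    intro a b c
    unfold det3
    ring
  have h' : B ∩ C ∩ A = ∅ := by rw [← h]; ext x; simp only [Set.mem_inter_iff]; tauto
  have h'' : C ∩ A ∩ B = ∅ := by rw [← h]; ext x; simp only [Set.mem_inter_iff]; tauto
  have h1 : 0 < det3 p q r * det3 p' q r := det3_move hA hB hC h hp hq hr hp'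
  have h2 : 0 < det3 p' q r * det3 p' q' r := by
    rw [hrot p' q r, hrot p' q' r]
    exact det3_move hB hC hA h' hq hr hp' hq'
  have h3 : 0 < det3 p' q' r * det3 p' q' r' := by
    rw [← hrot r p' q', ← hrot r' p' q']
    exact det3_move hC hA hB h'' hr hp' hq' hr'
  have key : ∀ {a b c : ℝ}, 0 < a * b → 0 < b * c → 0 < a * c := by
    intro a b c hab hbc
    have hb : b ≠ 0 := by
      rintro rfl
      simp at hab
    have h4 : 0 < (a * b) * (b * c) := mul_pos hab hbc
    have h5 : 0 < b ^ 2 := by positivity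
    have h6 : (a * b) * (b * c) = b ^ 2 * (a * c) := by ring
    rw [h6] at h4
    exact (mul_pos_iff_of_pos_left h5).1 h4
  exact key (key h1 h2) h3

end Pool.Agent.H54.CT
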