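import Pool.Agent.H54.CT.Defs

/-!
# The orientation is determined by the signs of polynomials

A configuration of `m` points is `x : Fin m → ℝ × ℝ`, `τ : Fin m → Fin n` tells to which set a point
belongs.

Definitions; no `sorry` in this file.
-/

set_option autoImplicit false

namespace Pool.Agent.H54.CT

/-- coefficients of the affine dependency of four points -/
def al {m : ℕ} (x : Fin m → ℝ × ℝ) (e : Fin 4 → Fin m) (k : Fin 4) : ℝ :=
  ![det3 (x (e 1)) (x (e 2)) (x (e 3)), - det3 (x (e 0)) (x (e 2)) (x (e 3)),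
    det3 (x (e 0)) (x (e 1)) (x (e 3)), - det3 (x (e 0)) (x (e 1)) (x (e 2))] k

/-- homogeneous coordinates of the Radon point (`i` is the first set) -/
noncomputable def rd {m n : ℕ} (τ : Fin m → Fin n) (x : Fin m → ℝ × ℝ) (i : Fin n) (e : Fin 4 → Fin m) :
    Fin 3 → ℝ :=
  ![∑ k, (if τ (e k) = i then al x e k * (x (e k)).1 else 0),
    ∑ k, (if τ (e k) = i then al x e k * (x (e k)).2 else 0),
    ∑ k, (if τ (e k) = i then al x e k else 0)]

/-- the determinant of three Radon points -/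
noncomputable def rw3 {m n : ℕ} (τ : Fin m → Fin n) (x : Fin m → ℝ × ℝ) (i j k : Fin n)
    (e e' e'' : Fin 4 → Fin m) : ℝ :=
  Matrix.det !![rd τ x i e 0, rd τ x i e 1, rd τ x i e 2;
    rd τ x j e' 0, rd τ x j e' 1, rd τ x j e' 2;
    rd τ x k e'' 0, rd τ x k e'' 1, rd τ x k e'' 2]

/-- the four points witness an intersection of the hulls of the sets `i` and `j`, with sign `σ` -/
def Wit {m n : ℕ} (τ : Fin m → Fin n) (x : Fin m → ℝ × ℝ) (i j : Fin n) (e : Fin 4 → Fin m)
    (σ : ℝ) : Prop :=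
  Function.Injective e ∧ (σ = 1 ∨ σ = -1) ∧ (∀ k, τ (e k) = i ∨ τ (e k) = j) ∧
    (∃ k, τ (e k) = i) ∧ ∀ k, 0 < σ * (if τ (e k) = i then al x e k else - al x e k)

/-- the set `i` of the configuration -/
noncomputable def part {m n : ℕ} (τ : Fin m → Fin n) (x : Fin m → ℝ × ℝ) (i : Fin n) : Finset (ℝ × ℝ) :=
  (Finset.univ.filter fun k => τ k = i).image x

end Pool.Agent.H54.CT
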