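import Pool.Agent.H54.CT.ThickA
import Pool.Agent.H54.CT.Rad
import Pool.Agent.H54.CT.Ori

/-!
# Thickening: an open set of realisations by `m` points

JOB CT-THICKB.

`thick`: take `δ` with `no_triple` for `2 δ`; the type `Σ i, V i × Fin 4` of all
`(i, v, corner)` is non-empty (`n ≥ 1`) and has at most `m` elements, so there is a surjection
`ψ : Fin m → _` (`Function.Embedding` and `Function.invFun`); `x0 k = v + corner`, `τ k = i`, `ε = δ`.
For `x` near `x0`: `hull (V i) ⊆ hull (part τ x i) ⊆ 2δ`-neighbourhood of `hull (V i)`; so the hulls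
intersect pairwise, no three have a common point, and the sign condition follows from
`orient_const` with three points of the sets `hull (V i) ∩ hull (V j)`, … as reference.
-/

set_option autoImplicit false

namespace Pool.Agent.H54.CT

theorem thick {n : ℕ} (hn : 1 ≤ n) {χ : Fin n → Fin n → Fin n → SignType}
    (V : Fin n → Finset (ℝ × ℝ)) (h : Realizes (fun i => hull (V i)) χ) (m : ℕ)
    (hm : 4 * ∑ i, (V i).card ≤ m) :
    ∃ (τ : Fin m → Fin n) (x0 : Fin m → ℝ × ℝ) (ε : ℝ), 0 < ε ∧ ∀ x : Fin m → ℝ × ℝ,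
      (∀ k, |(x k).1 - (x0 k).1| < ε ∧ |(x k).2 - (x0 k).2| < ε) →
        Realizes (fun i => hull (part τ x i)) χ := by
  classical
  obtain ⟨hconv, hint, hdis, hsgn⟩ := h
  obtain ⟨δ', hδ', hnt⟩ := no_triple V hdis
  set δ : ℝ := δ' / 2 with hδ
  have hδpos : 0 < δ := by positivity
  -- the index type
  let I : Type := Σ i : Fin n, (V i) × (Fin 2 × Fin 2)
  have hcard : Fintype.card I ≤ m := by
    have : Fintype.card I = 4 * ∑ i, (V i).card := by
      simp only [I, Fintype.card_sigma, Fintype.card_prod, Fintype.card_coe, Fintype.card_fin]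
      rw [Finset.mul_sum]
      exact Finset.sum_congr rfl fun i _ => by ring
    omega
  have hVne : ∀ i, (V i).Nonempty := by
    intro i
    obtain ⟨p, hp, -⟩ := hint i i
    by_contra hc
    rw [Finset.not_nonempty_iff_eq_empty] at hc
    simp only [hull] at hp
    rw [hc] at hp
    simp at hp
  have i0 : Fin n := ⟨0, hn⟩
  obtain ⟨w0, hw0⟩ := hVne i0
  have : Nonempty I := ⟨⟨i0, ⟨w0, hw0⟩, (0, 0)⟩⟩
  obtain ⟨f⟩ : Nonempty (I ↪ Fin m) := by
    apply Function.Embedding.nonempty_of_card_le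
    rw [Fintype.card_fin]
    exact hcard
  let ψ : Fin m → I := Function.invFun f
  have hψ : ∀ a : I, ψ (f a) = a := Function.leftInverse_invFun f.injective
  let sg : Fin 2 → ℝ := fun a => if a = 0 then 1 else -1
  have hsg : ∀ a, sg a = 1 ∨ sg a = -1 := by
    intro a
    by_cases ha : a = 0
    · left; simp [sg, ha]
    · right; simp [sg, ha]
  let x0 : Fin m → ℝ × ℝ := fun k =>
    (((ψ k).2.1 : ℝ × ℝ).1 + sg (ψ k).2.2.1 * δ, ((ψ k).2.1 : ℝ × ℝ).2 + sg (ψ k).2.2.2 * δ)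
  refine ⟨fun k => (ψ k).1, x0, δ, hδpos, ?_⟩
  intro x hx
  set W : Fin n → Finset (ℝ × ℝ) := fun i => part (fun k => (ψ k).1) x i with hW
  have hsub : ∀ i, hull (V i) ⊆ hull (W i) := by
    intro i
    refine near_hull (V i) (W i) δ hδpos ?_
    intro v hv a b ha hb
    obtain ⟨a', ha'⟩ : ∃ a' : Fin 2, sg a' = a := by
      rcases ha with rfl | rfl
      · exact ⟨0, by simp [sg]⟩
      · exact ⟨1, by simp [sg]⟩
    obtain ⟨b', hb'⟩ : ∃ b' : Fin 2, sg b' = b := by
      rcases hb with rfl | rfl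
      · exact ⟨0, by simp [sg]⟩
      · exact ⟨1, by simp [sg]⟩
    set e : I := ⟨i, ⟨v, hv⟩, (a', b')⟩ with he
    have hψe : ψ (f e) = e := hψ e
    refine ⟨x (f e), ?_, ?_⟩
    · simp only [hW, part, Finset.mem_image, Finset.mem_filter, Finset.mem_univ, true_and]
      exact ⟨f e, by rw [hψe], rfl⟩
    · have h0 : x0 (f e) = (v.1 + a * δ, v.2 + b * δ) := by
        show (_, _) = _
        rw [hψe, he]
        simp only [ha', hb']
      have h1 := hx (f e)
      rw [h0] at h1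
      exact ⟨h1.1.le, h1.2.le⟩
  have hnear : ∀ i, ∀ w ∈ hull (W i), ∃ v ∈ hull (V i), |w.1 - v.1| ≤ δ' ∧ |w.2 - v.2| ≤ δ' := by
    intro i
    refine hull_near (V i) (W i) δ' hδ' ?_
    intro w hw
    simp only [hW, part, Finset.mem_image, Finset.mem_filter, Finset.mem_univ, true_and] at hw
    obtain ⟨k, hk, rfl⟩ := hw
    subst hk
    refine ⟨(ψ k).2.1, (ψ k).2.1.2, ?_⟩
    have h1 := hx k
    have hd : δ' = δ + δ := by rw [hδ]; ring
    have key : ∀ a : Fin 2, |sg a * δ| = δ := by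
      intro a
      rcases hsg a with h | h
      · rw [h, one_mul, abs_of_pos hδpos]
      · rw [h, neg_one_mul, abs_neg, abs_of_pos hδpos]
    constructor
    · have e1 : (x k).1 - ((ψ k).2.1 : ℝ × ℝ).1 = ((x k).1 - (x0 k).1) + sg (ψ k).2.2.1 * δ := by
        show _ = ((x k).1 - (((ψ k).2.1 : ℝ × ℝ).1 + sg (ψ k).2.2.1 * δ)) + sg (ψ k).2.2.1 * δ
        ring
      rw [e1, hd]
      exact (abs_add_le _ _).trans (add_le_add h1.1.le (key _).le)
    · have e1 : (x k).2 - ((ψ k).2.1 : ℝ × ℝ).2 = ((x k).2 - (x0 k).2) + sg (ψ k).2.2.2 * δ := by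
        show _ = ((x k).2 - (((ψ k).2.1 : ℝ × ℝ).2 + sg (ψ k).2.2.2 * δ)) + sg (ψ k).2.2.2 * δ
        ring
      rw [e1, hd]
      exact (abs_add_le _ _).trans (add_le_add h1.2.le (key _).le)
  have hdis' : ∀ i j k, i ≠ j → j ≠ k → i ≠ k → hull (W i) ∩ hull (W j) ∩ hull (W k) = ∅ := by
    intro i j k hij hjk hik
    rw [Set.eq_empty_iff_forall_notMem]
    rintro p ⟨⟨hi, hj⟩, hk⟩
    exact hnt i j k hij hjk hik p ⟨hnear i p hi, hnear j p hj, hnear k p hk⟩
  refine ⟨fun i => convex_convexHull ℝ _, ?_, hdis', ?_⟩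
  · intro i j
    obtain ⟨p, hp1, hp2⟩ := hint i j
    exact ⟨p, hsub i hp1, hsub j hp2⟩
  · intro i j k hij hjk hik p hp q hq r hr
    obtain ⟨p', hp'⟩ := hint i j
    obtain ⟨q', hq'⟩ := hint j k
    obtain ⟨r', hr'⟩ := hint k i
    have h1 := hsgn i j k hij hjk hik p' hp' q' hq' r' hr'
    have h2 := orient_const (convex_convexHull ℝ (W i : Set (ℝ × ℝ)))
      (convex_convexHull ℝ (W j : Set (ℝ × ℝ))) (convex_convexHull ℝ (W k : Set (ℝ × ℝ)))
      (hdis' i j k hij hjk hik) (p := p) (q := q) (r := r) (p' := p') (q' := q') (r' := r')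
      hp hq hr ⟨hsub i hp'.1, hsub j hp'.2⟩ ⟨hsub j hq'.1, hsub k hq'.2⟩
      ⟨hsub k hr'.1, hsub i hr'.2⟩
    have h3 : 0 < ((χ i j k : ℝ) * det3 p q r) * (det3 p' q' r' * det3 p' q' r') := by
      have e : ((χ i j k : ℝ) * det3 p q r) * (det3 p' q' r' * det3 p' q' r') =
        ((χ i j k : ℝ) * det3 p' q' r') * (det3 p q r * det3 p' q' r') := by ring
      rw [e]
      exact mul_pos h1 h2
    have h4 : 0 ≤ det3 p' q' r' * det3 p' q' r' := mul_self_nonneg _
    exact (pos_iff_pos_of_mul_pos h3).mpr (lt_of_le_of_ne h4 (by rintro h5; rw [← h5, mul_zero] at h3; exact lt_irrefl _ h3))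

end Pool.Agent.H54.CT
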