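import Pool.Agent.H54.CT.Warren
import Pool.Agent.H54.CT.Thick
import Pool.Agent.H54.CT.Poly
import Pool.Agent.H54.CT.CntA

/-!
# Counting

JOB CT-CNTB.

`count_bound`.  `κ = (Fin m × Fin m × Fin m) ⊕ (Q × Q × Q)`, `Q = Fin n × (Fin 4 → Fin m)`,
`card κ = m^3 + (n * m^4)^3`.  For `τ` let `P τ : κ → MvPolynomial` be `O a b c`, `W a b c` of `polysO`,
`polysW τ`, with every zero polynomial replaced by `1`.  For a CTO `χ` take `V`, then `thick` gives
`τ, x0, ε`, and `generic` for `F = ∏ k, P τ k ≠ 0` a configuration `x` realising `χ` with all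
`eval (co x) (P τ k) ≠ 0`.  Send `χ` to `(τ, fun k => decide (0 < eval (co x) (P τ k)))`.  This map is
injective by `same_chi`: (`hO`: for distinct `a, b, c` `O a b c ≠ 0`, so the signs of `det3` are those
of `P`; `hW`: if `rw3 τ x … ≠ 0` then the polynomial is not `0` and its signs at `x` and `x'` agree.)
For each `τ` the patterns that occur number at most `2 * (8 * card κ + 3) ^ (2 * m)` by `warren`
(`Fintype.card (Fin m × Fin 2) = m * 2`).  There are `n ^ m` maps `τ`.
-/

set_option autoImplicit false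

namespace Pool.Agent.H54.CT

open MvPolynomial

/-- the index type of the polynomials -/
abbrev CtK (n m : ℕ) : Type :=
  (Fin m × Fin m × Fin m) ⊕ ((Fin n × (Fin 4 → Fin m)) × (Fin n × (Fin 4 → Fin m)) ×
    (Fin n × (Fin 4 → Fin m)))

theorem ctK_card (n m : ℕ) : Fintype.card (CtK n m) = m ^ 3 + (n * m ^ 4) ^ 3 := by
  simp only [CtK, Fintype.card_sum, Fintype.card_prod, Fintype.card_fun, Fintype.card_fin]
  ring

open Classical in
/-- zero polynomials are replaced by `1` -/
noncomputable def ctFix {ι : Type*} (p : MvPolynomial ι ℝ) : MvPolynomial ι ℝ :=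
  if p = 0 then 1 else p

theorem ctFix_ne {ι : Type*} (p : MvPolynomial ι ℝ) : ctFix p ≠ 0 := by
  unfold ctFix
  split_ifs with h
  · exact one_ne_zero
  · exact h

theorem ctFix_of_ne {ι : Type*} {p : MvPolynomial ι ℝ} (h : p ≠ 0) : ctFix p = p := by
  unfold ctFix
  rw [if_neg h]

theorem ctFix_deg {ι : Type*} {p : MvPolynomial ι ℝ} {d : ℕ} (h : p.totalDegree ≤ d) :
    (ctFix p).totalDegree ≤ d := by
  unfold ctFix
  split_ifs
  · simp
  · exact h

theorem ct_same_sign {a b : ℝ} (ha : a ≠ 0) (hb : b ≠ 0) (h : 0 < a ↔ 0 < b) : 0 < a * b := by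
  rcases lt_or_gt_of_ne ha with h1 | h1
  · have h2 : b < 0 := by
      rcases lt_or_gt_of_ne hb with h3 | h3
      · exact h3
      · exact absurd (h.mpr h3) (not_lt.mpr h1.le)
    exact mul_pos_of_neg_of_neg h1 h2
  · exact mul_pos h1 (h.mp h1)

theorem count_bound (n m : ℕ) (hn : 1 ≤ n) (hm : 4 ≤ m)
    (hfew : ∀ χ : Fin n → Fin n → Fin n → SignType, IsCTO χ →
      ∃ V : Fin n → Finset (ℝ × ℝ), Realizes (fun i => hull (V i)) χ ∧
        4 * ∑ i, (V i).card ≤ m) :
    cto n ≤ n ^ m * (2 * (8 * (m ^ 3 + (n * m ^ 4) ^ 3) + 3) ^ (2 * m)) := by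
  classical
  obtain ⟨O, hOd, hOe, hOn⟩ := polysO m
  choose W hWd hWe using fun τ : Fin m → Fin n => polysW τ
  let P : (Fin m → Fin n) → CtK n m → MvPolynomial (Fin m × Fin 2) ℝ := fun τ k =>
    match k with
    | Sum.inl (a, b, c) => ctFix (O a b c)
    | Sum.inr (a, b, c) => ctFix (W τ a b c)
  have hPne : ∀ τ k, P τ k ≠ 0 := by
    rintro τ (⟨a, b, c⟩ | ⟨a, b, c⟩)
    · exact ctFix_ne _
    · exact ctFix_ne _
  have hPd : ∀ τ k, (P τ k).totalDegree ≤ 8 := by
    rintro τ (⟨a, b, c⟩ | ⟨a, b, c⟩)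
    · exact ctFix_deg (hOd a b c)
    · exact ctFix_deg (hWd τ a b c)
  let T : (Fin m → Fin n) → Finset (CtK n m → Bool) := fun τ =>
    Finset.univ.filter fun t => ∃ x : Fin m × Fin 2 → ℝ,
      ∀ k, if t k then 0 < eval x (P τ k) else eval x (P τ k) < 0
  have hT : ∀ τ, (T τ).card ≤ 2 * (8 * (m ^ 3 + (n * m ^ 4) ^ 3) + 3) ^ (2 * m) := by
    intro τ
    have h1 := warren (P τ) 8 (hPd τ) (T τ) (by
      intro t ht
      exact (Finset.mem_filter.mp ht).2)
    rw [ctK_card] at h1
    have h2 : Fintype.card (Fin m × Fin 2) = 2 * m := by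
      rw [Fintype.card_prod, Fintype.card_fin, Fintype.card_fin]
      ring
    rw [h2] at h1
    exact h1
  have hdata : ∀ χ : {χ : Fin n → Fin n → Fin n → SignType // IsCTO χ},
      ∃ (τ : Fin m → Fin n) (x : Fin m → ℝ × ℝ),
        Realizes (fun i => hull (part τ x i)) χ.1 ∧ ∀ k, eval (co x) (P τ k) ≠ 0 := by
    rintro ⟨χ, hχ⟩
    obtain ⟨V, hV, hVm⟩ := hfew χ hχ
    obtain ⟨τ, x0, ε, hε, hreal⟩ := thick hn V hV m hVm
    have hF : (∏ k, P τ k) ≠ 0 := Finset.prod_ne_zero_iff.mpr fun k _ => hPne τ k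
    obtain ⟨x, hx, hev⟩ := generic (∏ k, P τ k) hF x0 ε hε
    refine ⟨τ, x, hreal x hx, fun k => ?_⟩
    rw [map_prod] at hev
    exact Finset.prod_ne_zero_iff.mp hev k (Finset.mem_univ k)
  choose τ x hreal hne using hdata
  let S : Finset (Σ _ : Fin m → Fin n, CtK n m → Bool) := Finset.univ.sigma T
  let Φ : {χ : Fin n → Fin n → Fin n → SignType // IsCTO χ} → S := fun χ =>
    ⟨⟨τ χ, fun k => decide (0 < eval (co (x χ)) (P (τ χ) k))⟩, by
      simp only [S, Finset.mem_sigma, Finset.mem_univ, true_and, T, Finset.mem_filter]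
      refine ⟨co (x χ), fun k => ?_⟩
      by_cases h : 0 < eval (co (x χ)) (P (τ χ) k)
      · simp only [h, decide_true, if_true]
      · have h1 := lt_of_le_of_ne (not_lt.mp h) (hne χ k)
        simp only [decide_eq_true_eq, if_neg h]
        exact h1⟩
  have hΦ : Function.Injective Φ := by
    intro χ χ' h
    have h1 : (⟨τ χ, fun k => decide (0 < eval (co (x χ)) (P (τ χ) k))⟩ :
        Σ _ : Fin m → Fin n, CtK n m → Bool) =
        ⟨τ χ', fun k => decide (0 < eval (co (x χ')) (P (τ χ') k))⟩ := congrArg Subtype.val h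
    have h2 : τ χ = τ χ' := congrArg Sigma.fst h1
    have h3 : (fun k => decide (0 < eval (co (x χ)) (P (τ χ) k))) =
        fun k => decide (0 < eval (co (x χ')) (P (τ χ') k)) := by
      have := (Sigma.mk.inj_iff.mp h1).2
      exact eq_of_heq this
    have h4 : ∀ k, (0 < eval (co (x χ)) (P (τ χ) k)) ↔ (0 < eval (co (x χ')) (P (τ χ') k)) := by
      intro k
      have := congrFun h3 k
      simpa using this
    have hne' := hne χ'
    have hreal' := hreal χ'
    rw [← h2] at h4 hne' hreal'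
    have hs : ∀ k, 0 < eval (co (x χ)) (P (τ χ) k) * eval (co (x χ')) (P (τ χ) k) := fun k =>
      ct_same_sign (hne χ k) (hne' k) (h4 k)
    apply Subtype.ext
    refine same_chi (by omega) (τ χ) (x χ) (x χ') χ.1 χ'.1 χ.2.1 χ'.2.1 (hreal χ) hreal' ?_ ?_
    · intro a b c hab hbc hac
      have h5 := hs (Sum.inl (a, b, c))
      have h6 : P (τ χ) (Sum.inl (a, b, c)) = O a b c := ctFix_of_ne (hOn a b c hab hbc hac)
      rw [h6, hOe, hOe] at h5
      exact h5
    · intro i j k e e' e'' hw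
      have h5 := hs (Sum.inr ((i, e), (j, e'), (k, e'')))
      have h6 : W (τ χ) (i, e) (j, e') (k, e'') ≠ 0 := by
        intro h0
        have h7 := hWe (τ χ) (i, e) (j, e') (k, e'') (x χ)
        rw [h0, map_zero] at h7
        exact hw h7.symm
      have h8 : P (τ χ) (Sum.inr ((i, e), (j, e'), (k, e''))) = W (τ χ) (i, e) (j, e') (k, e'') :=
        ctFix_of_ne h6
      rw [h8, hWe, hWe] at h5
      exact h5
  have h1 : cto n ≤ Nat.card S := Nat.card_le_card_of_injective Φ hΦ
  rw [Nat.card_eq_fintype_card, Fintype.card_coe] at h1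
  refine h1.trans ?_
  rw [Finset.card_sigma]
  refine (Finset.sum_le_sum fun τ _ => hT τ).trans ?_
  rw [Finset.sum_const, Finset.card_univ, Fintype.card_fun, Fintype.card_fin, Fintype.card_fin,
    smul_eq_mul]

end Pool.Agent.H54.CT
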