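import Pool.Agent.H54.CT.Defs

/-!
# The key lemma: three half-planes and seventeen lines

JOB CT-CORE.

Index `t` has the letter `t mod 3`, written `(t : Fin 3)` below via `Fin.ofNat`.  The half-planes are
`H k = {p | a k * p.1 + b k * p.2 ≤ c k}`, the lines `m t = {(x, s t * x + g t)}`.
`hm`: the line `m t` meets every `H k`.
`hL`: for `t < t'` the half-plane of letter `t` has a point on `m t'` above (or on) the line `m t`.
`hR`: for `t < t'` the half-plane of letter `t'` has a point on `m t` above (or on) `m t'`.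

Proof.  For `t < t'` let `xz = (g t - g t') / (s t' - s t)`, the abscissa of the common point `Z` of
`m t` and `m t'`; the point of `hL` has `x ≥ xz`, the point of `hR` has `x ≤ xz`.
Type `L` of `k` at `t`: `0 ≤ a k + b k * s t`; type `R`: `a k + b k * s t ≤ 0`.  For type `L` the set
of `x` with `(x, s t * x + g t) ∈ H k` is closed downwards, for type `R` upwards.
So (i) type `L` of the letter `t` at `t'` implies `Z ∈ H (letter t)`; (ii) type `R` of the letter
`t'` at `t` implies `Z ∈ H (letter t')`.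
`t ↦ a k + b k * s t` is monotone or antitone on `0..16`, so for each `k` there is a threshold
`θ k ≤ 17` with constant type for `t < θ k` and constant (other) type for `t ≥ θ k`.  The windows
`{0..4}, {4..8}, {8..12}, {12..16}`: the window `{a..a+4}` has constant types unless some `θ k` is
in `{a+1..a+4}`; these four sets are disjoint and there are three `k`, so some window is good.
In a good window starting at `w`: not all three types are `L` (else the minimum of the three `x`
of `hm w` is in all three half-planes), not all `R` (maximum).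
If exactly one letter `b` has type `L`: choose `t ∈ {w, w+1, w+2}` with letter `b`; by (i), (ii) the
points `Z` of `(t, t+1)` and `(t, t+2)` lie in `H b`, and in the half-plane of letter `t+1`,
`t+2` respectively.  Both are on `m t`; the larger abscissa gives a point in all three.
If exactly one letter `b` has type `R`: `t ∈ {w+2, w+3, w+4}` with letter `b`, the pairs `(t-1, t)`
and `(t-2, t)`, both points on `m t`; the smaller abscissa.
-/

set_option autoImplicit false

namespace Pool.Agent.H54.CT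

theorem core (a b c : Fin 3 → ℝ)
    (hempty : ∀ p : ℝ × ℝ, ∃ k, c k < a k * p.1 + b k * p.2)
    (s g : ℕ → ℝ) (hs : ∀ t t', t < t' → t' < 17 → s t < s t')
    (hm : ∀ t, t < 17 → ∀ k, ∃ x : ℝ, a k * x + b k * (s t * x + g t) ≤ c k)
    (hL : ∀ t t', t < t' → t' < 17 → ∃ x : ℝ,
      a (Fin.ofNat 3 t) * x + b (Fin.ofNat 3 t) * (s t' * x + g t') ≤ c (Fin.ofNat 3 t) ∧
        s t * x + g t ≤ s t' * x + g t')
    (hR : ∀ t t', t < t' → t' < 17 → ∃ x : ℝ,
      a (Fin.ofNat 3 t') * x + b (Fin.ofNat 3 t') * (s t * x + g t) ≤ c (Fin.ofNat 3 t') ∧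
        s t' * x + g t' ≤ s t * x + g t) : False := by
  have lett : ∀ t, t < 15 → ∀ k : Fin 3, k = Fin.ofNat 3 t ∨ k = Fin.ofNat 3 (t + 1) ∨
      k = Fin.ofNat 3 (t + 2) := by decide
  have lett2 : ∀ w, w < 15 → ∀ k : Fin 3, ∃ i, i < 3 ∧ Fin.ofNat 3 (w + i) = k := by decide
  have mono : ∀ k t t', t ≤ t' → t' < 17 → 0 ≤ b k → a k + b k * s t ≤ a k + b k * s t' := by
    intro k t t' h h' hb
    rcases Nat.eq_or_lt_of_le h with h0 | h0
    · rw [h0]
    · have := mul_le_mul_of_nonneg_left (hs t t' h0 h').le hb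
      linarith
  have anti : ∀ k t t', t ≤ t' → t' < 17 → b k ≤ 0 → a k + b k * s t' ≤ a k + b k * s t := by
    intro k t t' h h' hb
    rcases Nat.eq_or_lt_of_le h with h0 | h0
    · rw [h0]
    · have := mul_le_mul_of_nonpos_left (hs t t' h0 h').le hb
      linarith
  have down : ∀ k t x y, 0 ≤ a k + b k * s t → x ≤ y → a k * y + b k * (s t * y + g t) ≤ c k →
      a k * x + b k * (s t * x + g t) ≤ c k := by
    intro k t x y h hxy hy
    have := mul_le_mul_of_nonneg_left hxy h
    nlinarith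
  have up : ∀ k t x y, a k + b k * s t ≤ 0 → y ≤ x → a k * y + b k * (s t * y + g t) ≤ c k →
      a k * x + b k * (s t * x + g t) ≤ c k := by
    intro k t x y h hxy hy
    have := mul_le_mul_of_nonpos_left hxy h
    nlinarith
  -- crossing points
  have cross : ∀ t t', t < t' → t' < 17 → ∃ X : ℝ, s t * X + g t = s t' * X + g t' ∧
      (∀ x, s t * x + g t ≤ s t' * x + g t' → X ≤ x) ∧
      (∀ x, s t' * x + g t' ≤ s t * x + g t → x ≤ X) := by
    intro t t' h h'
    have h0 : 0 < s t' - s t := sub_pos.mpr (hs t t' h h')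
    refine ⟨(g t - g t') / (s t' - s t), ?_, ?_, ?_⟩
    · have h1 : (s t' - s t) * ((g t - g t') / (s t' - s t)) = g t - g t' :=
        mul_div_cancel₀ _ h0.ne'
      linarith
    · intro x hx
      rw [div_le_iff₀ h0]
      linarith
    · intro x hx
      rw [le_div_iff₀ h0]
      linarith
  have key : ∀ t t', t < t' → t' < 17 → ∃ X : ℝ, s t * X + g t = s t' * X + g t' ∧
      (0 ≤ a (Fin.ofNat 3 t) + b (Fin.ofNat 3 t) * s t' →
        a (Fin.ofNat 3 t) * X + b (Fin.ofNat 3 t) * (s t * X + g t) ≤ c (Fin.ofNat 3 t)) ∧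
      (a (Fin.ofNat 3 t') + b (Fin.ofNat 3 t') * s t ≤ 0 →
        a (Fin.ofNat 3 t') * X + b (Fin.ofNat 3 t') * (s t * X + g t) ≤ c (Fin.ofNat 3 t')) := by
    intro t t' h h'
    obtain ⟨X, hX, hX1, hX2⟩ := cross t t' h h'
    refine ⟨X, hX, ?_, ?_⟩
    · intro hty
      obtain ⟨x, hx, hx'⟩ := hL t t' h h'
      rw [hX]
      exact down _ _ _ _ hty (hX1 x hx') hx
    · intro hty
      obtain ⟨x, hx, hx'⟩ := hR t t' h h'
      exact up _ _ _ _ hty (hX2 x hx') hx
  -- a good window
  have good : ∃ w, w < 13 ∧ ∀ k, (∀ t, w ≤ t → t ≤ w + 4 → 0 ≤ a k + b k * s t) ∨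
      (∀ t, w ≤ t → t ≤ w + 4 → a k + b k * s t ≤ 0) := by
    by_contra hcon
    push Not at hcon
    have hch : ∀ j : Fin 4, ∃ k : Fin 3,
        (∃ t, 4 * (j : ℕ) ≤ t ∧ t ≤ 4 * j + 4 ∧ a k + b k * s t < 0) ∧
        (∃ t, 4 * (j : ℕ) ≤ t ∧ t ≤ 4 * j + 4 ∧ 0 < a k + b k * s t) := by
      intro j
      obtain ⟨k, hk1, hk2⟩ := hcon (4 * j) (by omega)
      exact ⟨k, hk1, hk2⟩
    choose f hf1 hf2 using hch
    obtain ⟨j, j', hjj, hff⟩ := Fintype.exists_ne_map_eq_of_card_lt f (by simp)
    have main : ∀ j j' : Fin 4, j < j' → f j = f j' → False := by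
      intro j j' hlt hff
      obtain ⟨t1, h1, h1', h1''⟩ := hf1 j
      obtain ⟨t2, h2, h2', h2''⟩ := hf2 j
      obtain ⟨t3, h3, h3', h3''⟩ := hf1 j'
      obtain ⟨t4, h4, h4', h4''⟩ := hf2 j'
      rw [← hff] at h3'' h4''
      have hlt' : (j : ℕ) < (j' : ℕ) := hlt
      have hj4 := j'.isLt
      rcases le_total 0 (b (f j)) with hb | hb
      · have := mono (f j) t2 t3 (by omega) (by omega) hb
        linarith
      · have := anti (f j) t1 t4 (by omega) (by omega) hb
        linarith
    rcases lt_or_gt_of_ne hjj with h | h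
    · exact main j j' h hff
    · exact main j' j h hff.symm
  obtain ⟨w, hw, hgood⟩ := good
  -- the two mixed cases
  have caseL : ∀ k0 : Fin 3, (∀ t, w ≤ t → t ≤ w + 4 → 0 ≤ a k0 + b k0 * s t) →
      (∀ k, k ≠ k0 → ∀ t, w ≤ t → t ≤ w + 4 → a k + b k * s t ≤ 0) → False := by
    intro k0 h0 hR'
    obtain ⟨i, hi, hik⟩ := lett2 w (by omega) k0
    set t := w + i with ht
    have hd : Fin.ofNat 3 (t + 1) ≠ Fin.ofNat 3 t ∧ Fin.ofNat 3 (t + 2) ≠ Fin.ofNat 3 t := by
      have : ∀ t, t < 15 → Fin.ofNat 3 (t + 1) ≠ Fin.ofNat 3 t ∧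
        Fin.ofNat 3 (t + 2) ≠ Fin.ofNat 3 t := by decide
      exact this t (by omega)
    obtain ⟨X1, e1, p1, q1⟩ := key t (t + 1) (by omega) (by omega)
    obtain ⟨X2, e2, p2, q2⟩ := key t (t + 2) (by omega) (by omega)
    have P1 := p1 (by rw [hik]; exact h0 _ (by omega) (by omega))
    have P2 := p2 (by rw [hik]; exact h0 _ (by omega) (by omega))
    have t1 := hR' _ (by rw [← hik]; exact hd.1) t (by omega) (by omega)
    have t2 := hR' _ (by rw [← hik]; exact hd.2) t (by omega) (by omega)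
    have Q1 := q1 t1
    have Q2 := q2 t2
    obtain ⟨k, hk⟩ := hempty (max X1 X2, s t * max X1 X2 + g t)
    simp only at hk
    rcases lett t (by omega) k with h | h | h
    · rw [h] at hk
      rcases max_choice X1 X2 with hmx | hmx <;> rw [hmx] at hk <;> linarith
    · rw [h] at hk
      have := up _ _ _ _ t1 (le_max_left X1 X2) Q1
      linarith
    · rw [h] at hk
      have := up _ _ _ _ t2 (le_max_right X1 X2) Q2
      linarith
  have caseR : ∀ k0 : Fin 3, (∀ t, w ≤ t → t ≤ w + 4 → a k0 + b k0 * s t ≤ 0) →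
      (∀ k, k ≠ k0 → ∀ t, w ≤ t → t ≤ w + 4 → 0 ≤ a k + b k * s t) → False := by
    intro k0 h0 hL'
    obtain ⟨i, hi, hik⟩ := lett2 (w + 2) (by omega) k0
    set t := w + i with ht
    have hti : w + 2 + i = t + 2 := by omega
    rw [hti] at hik
    have hd : Fin.ofNat 3 (t + 1) ≠ Fin.ofNat 3 (t + 2) ∧
        Fin.ofNat 3 t ≠ Fin.ofNat 3 (t + 2) := by
      have : ∀ t, t < 15 → Fin.ofNat 3 (t + 1) ≠ Fin.ofNat 3 (t + 2) ∧
        Fin.ofNat 3 t ≠ Fin.ofNat 3 (t + 2) := by decide
      exact this t (by omega)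
    obtain ⟨X1, e1, p1, q1⟩ := key (t + 1) (t + 2) (by omega) (by omega)
    obtain ⟨X2, e2, p2, q2⟩ := key t (t + 2) (by omega) (by omega)
    have t1 := hL' _ (by rw [← hik]; exact hd.1) (t + 2) (by omega) (by omega)
    have t2 := hL' _ (by rw [← hik]; exact hd.2) (t + 2) (by omega) (by omega)
    have P1 := p1 t1
    have P2 := p2 t2
    have Q1 := q1 (by rw [hik]; exact h0 _ (by omega) (by omega))
    have Q2 := q2 (by rw [hik]; exact h0 _ (by omega) (by omega))
    rw [e1] at P1 Q1
    rw [e2] at P2 Q2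
    obtain ⟨k, hk⟩ := hempty (min X1 X2, s (t + 2) * min X1 X2 + g (t + 2))
    simp only at hk
    rcases lett t (by omega) k with h | h | h
    · rw [h] at hk
      have := down _ _ _ _ t2 (min_le_right X1 X2) P2
      linarith
    · rw [h] at hk
      have := down _ _ _ _ t1 (min_le_left X1 X2) P1
      linarith
    · rw [h] at hk
      rcases min_choice X1 X2 with hmx | hmx <;> rw [hmx] at hk <;> linarith
  -- all types equal
  have caseLLL : (∀ k, ∀ t, w ≤ t → t ≤ w + 4 → 0 ≤ a k + b k * s t) → False := by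
    intro h
    choose x hx using hm w (by omega)
    obtain ⟨k, hk⟩ := hempty (min (x 0) (min (x 1) (x 2)), s w * min (x 0) (min (x 1) (x 2)) + g w)
    simp only at hk
    have hle : min (x 0) (min (x 1) (x 2)) ≤ x k := by
      fin_cases k
      · exact min_le_left _ _
      · exact (min_le_right _ _).trans (min_le_left _ _)
      · exact (min_le_right _ _).trans (min_le_right _ _)
    have := down k w _ _ (h k w le_rfl (by omega)) hle (hx k)
    linarith
  have caseRRR : (∀ k, ∀ t, w ≤ t → t ≤ w + 4 → a k + b k * s t ≤ 0) → False := by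
    intro h
    choose x hx using hm w (by omega)
    obtain ⟨k, hk⟩ := hempty (max (x 0) (max (x 1) (x 2)), s w * max (x 0) (max (x 1) (x 2)) + g w)
    simp only at hk
    have hle : x k ≤ max (x 0) (max (x 1) (x 2)) := by
      fin_cases k
      · exact le_max_left _ _
      · exact (le_max_left _ _).trans (le_max_right _ _)
      · exact (le_max_right _ _).trans (le_max_right _ _)
    have := up k w _ _ (h k w le_rfl (by omega)) hle (hx k)
    linarith
  have h3 : ∀ p : Fin 3 → Prop, p 0 → p 1 → p 2 → ∀ k, p k := by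
    intro p h0 h1 h2 k
    fin_cases k
    · exact h0
    · exact h1
    · exact h2
  rcases hgood 0 with h0 | h0 <;> rcases hgood 1 with h1 | h1 <;> rcases hgood 2 with h2 | h2
  · exact caseLLL (h3 _ h0 h1 h2)
  · refine caseR 2 h2 (h3 _ (fun _ => h0) (fun _ => h1) (fun h => absurd rfl h))
  · refine caseR 1 h1 (h3 _ (fun _ => h0) (fun h => absurd rfl h) (fun _ => h2))
  · refine caseL 0 h0 (h3 _ (fun h => absurd rfl h) (fun _ => h1) (fun _ => h2))
  · refine caseR 0 h0 (h3 _ (fun h => absurd rfl h) (fun _ => h1) (fun _ => h2))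
  · refine caseL 1 h1 (h3 _ (fun _ => h0) (fun h => absurd rfl h) (fun _ => h2))
  · refine caseL 2 h2 (h3 _ (fun _ => h0) (fun _ => h1) (fun h => absurd rfl h))
  · exact caseRRR (h3 _ h0 h1 h2)

end Pool.Agent.H54.CT
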