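import Mathlib

/-!
# Convex total orientations (CTO): definitions

(MP_6dcc4d_co.)  No `sorry` in this file.
-/

set_option autoImplicit false

namespace Pool.Agent.H54.CT

/-- Twice the signed area of the triangle `p q r`: positive iff `p, q, r` is counterclockwise. -/
def det3 (p q r : ℝ × ℝ) : ℝ := (q.1 - p.1) * (r.2 - p.2) - (q.2 - p.2) * (r.1 - p.1)

/-- The pairwise intersecting convex sets `A i`, no three with a common point, have the orientation
`χ`: `χ i j k` is the orientation of every triangle with vertices in `A i ∩ A j`, `A j ∩ A k`,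
`A k ∩ A i` (this triangle is the concatenation of an arc in `A i`, an arc in `A j` and an arc in
`A k`, in this order). -/
def Realizes {n : ℕ} (A : Fin n → Set (ℝ × ℝ)) (χ : Fin n → Fin n → Fin n → SignType) : Prop :=
  (∀ i, Convex ℝ (A i)) ∧ (∀ i j, (A i ∩ A j).Nonempty) ∧
  (∀ i j k, i ≠ j → j ≠ k → i ≠ k → A i ∩ A j ∩ A k = ∅) ∧
  ∀ i j k, i ≠ j → j ≠ k → i ≠ k → ∀ p ∈ A i ∩ A j, ∀ q ∈ A j ∩ A k, ∀ r ∈ A k ∩ A i,
    0 < (χ i j k : ℝ) * det3 p q r

/-- `χ` is a CTO on `[n]` (value `0` on triples that are not distinct). -/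
def IsCTO {n : ℕ} (χ : Fin n → Fin n → Fin n → SignType) : Prop :=
  (∀ i j k, i = j ∨ j = k ∨ i = k → χ i j k = 0) ∧
  ∃ A : Fin n → Set (ℝ × ℝ), Realizes A χ

/-- the number of CTOs on `[n]` -/
noncomputable def cto (n : ℕ) : ℕ := Nat.card {χ : Fin n → Fin n → Fin n → SignType // IsCTO χ}

/-- the convex hull of a finite set of points -/
def hull (V : Finset (ℝ × ℝ)) : Set (ℝ × ℝ) := convexHull ℝ (V : Set (ℝ × ℝ))

/-- Alternation `y 0, y 1, y 2, y 0, y 1, y 2, …` of length `L` of three distinct letters, all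
occurring in the relation `R` (letters × columns), in strictly increasing columns. -/
def Alt {α : Type*} (L : ℕ) (R : Finset (α × ℕ)) : Prop :=
  ∃ (y : ℕ → α) (s : ℕ → ℕ), (∀ k, y (k + 3) = y k) ∧ y 0 ≠ y 1 ∧ y 1 ≠ y 2 ∧ y 0 ≠ y 2 ∧
    (∀ k, ∃ c, (y k, c) ∈ R) ∧ (∀ k < L, (y k, s k) ∈ R) ∧ ∀ k, k + 1 < L → s k < s (k + 1)

/-- the relation (letter, position) of a labelled set of positions -/
def rel {α : Type*} [DecidableEq α] (X : Finset ℕ) (σ : ℕ → α) : Finset (α × ℕ) :=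
  X.image fun t => (σ t, t)

/-- the constant of the theorem on block decompositions -/
def rho (P : ℕ) : ℕ → ℕ
  | 0 => 0
  | 1 => 0
  | (L + 2) => 4 + rho P L * (2 ^ (L + 2) + 12 * (P + 3) ^ (L + 2))

/-- bound for the number of ears, divided by `n` (`n ≤ 2 ^ P`) -/
def Phi (P : ℕ) : ℕ := 6 * (2 ^ 71 + 2 * (P + rho P 71 + 2) ^ 71 * (2 * rho P 71 + 2))

end Pool.Agent.H54.CT
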