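import Pool.Agent.H54.CT.Defs

/-!
# Separation lemmas

JOB CT-SEPA.

`sep3`: three compact convex sets without common point lie in three closed half-planes without
common point.  Write `B k = hull (V k)`.  (i) `B 0 ∩ B 1` is compact convex and disjoint from
`B 2`: `geometric_hahn_banach_compact_compact` gives `f`, `u < v` with `f < u` on `B 0 ∩ B 1`,
`v < f` on `B 2`; `H 2 = {-f ≤ -v}`.  (ii) `B 1` and `B 0 ∩ H 2` are disjoint compact convex: get
`H 1 ⊇ B 1` with `B 0 ∩ H 2 ∩ H 1 = ∅`.  (iii) `B 0` compact, `H 1 ∩ H 2` closed convex, disjoint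
(`geometric_hahn_banach_compact_closed`): `H 0 ⊇ B 0` with `H 0 ∩ H 1 ∩ H 2 = ∅`.
A continuous linear functional on `ℝ × ℝ` is `p ↦ f (1,0) * p.1 + f (0,1) * p.2`.
(The lemmas of Mathlib do not need non-empty sets.)
`convexHull` of a finite set is compact: `Set.Finite.isCompact_convexHull`.

`sep2`: disjoint hulls of two finite sets are strictly separated by a functional `a x + b y` with
`b ≠ 0`: `geometric_hahn_banach_compact_compact`; if `b = 0`, a small positive `b` works too
(finitely many strict inequalities `f w < c`, `c < f w`: take `c` with `u < c < v`, the quantities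
`a x + b y - c` depend continuously on `b`; or explicitly `b = δ / (1 + Σ |y|)`).
-/

set_option autoImplicit false

namespace Pool.Agent.H54.CT

theorem clm_eq (f : ℝ × ℝ →L[ℝ] ℝ) (p : ℝ × ℝ) :
    f p = f (1, 0) * p.1 + f (0, 1) * p.2 := by
  have h : p = p.1 • ((1, 0) : ℝ × ℝ) + p.2 • ((0, 1) : ℝ × ℝ) := by
    ext <;> simp
  conv_lhs => rw [h]
  rw [map_add, map_smul, map_smul]
  simp only [smul_eq_mul]
  ring

theorem hull_compact (V : Finset (ℝ × ℝ)) : IsCompact (hull V) :=
  V.finite_toSet.isCompact_convexHull (𝕜 := ℝ)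

theorem hull_convex (V : Finset (ℝ × ℝ)) : Convex ℝ (hull V) := convex_convexHull ℝ _

theorem half_convex (f : ℝ × ℝ →L[ℝ] ℝ) (v : ℝ) : Convex ℝ {p : ℝ × ℝ | v ≤ f p} := by
  intro x hx y hy s t hs ht hst
  simp only [Set.mem_setOf_eq] at hx hy ⊢
  rw [map_add, map_smul, map_smul]
  simp only [smul_eq_mul]
  have h1 : s * v ≤ s * f x := mul_le_mul_of_nonneg_left hx hs
  have h2 : t * v ≤ t * f y := mul_le_mul_of_nonneg_left hy ht
  have h3 : s * v + t * v = v := by rw [← add_mul, hst, one_mul]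
  linarith

theorem half_closed (f : ℝ × ℝ →L[ℝ] ℝ) (v : ℝ) : IsClosed {p : ℝ × ℝ | v ≤ f p} :=
  isClosed_le continuous_const f.continuous

theorem sep3 (V : Fin 3 → Finset (ℝ × ℝ)) (h : hull (V 0) ∩ hull (V 1) ∩ hull (V 2) = ∅) :
    ∃ a b c : Fin 3 → ℝ, (∀ k, ∀ p ∈ hull (V k), a k * p.1 + b k * p.2 ≤ c k) ∧
      ∀ p : ℝ × ℝ, ∃ k, c k < a k * p.1 + b k * p.2 := by
  obtain ⟨f2, u2, v2, hf2, huv2, hg2⟩ := geometric_hahn_banach_compact_closed
    (s := hull (V 0) ∩ hull (V 1)) (t := hull (V 2))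
    ((hull_convex _).inter (hull_convex _))
    ((hull_compact _).inter_right (hull_compact _).isClosed)
    (hull_convex _) (hull_compact _).isClosed (Set.disjoint_iff_inter_eq_empty.mpr h)
  obtain ⟨f1, u1, v1, hf1, huv1, hg1⟩ := geometric_hahn_banach_compact_closed
    (s := hull (V 0) ∩ {p : ℝ × ℝ | v2 ≤ f2 p}) (t := hull (V 1))
    ((hull_convex _).inter (half_convex f2 v2))
    ((hull_compact _).inter_right (half_closed f2 v2))
    (hull_convex _) (hull_compact _).isClosed (by
      rw [Set.disjoint_left]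
      rintro p ⟨hp0, hp2⟩ hp1
      have := hf2 p ⟨hp0, hp1⟩
      simp only [Set.mem_setOf_eq] at hp2
      linarith)
  obtain ⟨f0, u0, v0, hf0, huv0, hg0⟩ := geometric_hahn_banach_compact_closed
    (s := hull (V 0)) (t := {p : ℝ × ℝ | v1 ≤ f1 p} ∩ {p : ℝ × ℝ | v2 ≤ f2 p})
    (hull_convex _) (hull_compact _)
    ((half_convex f1 v1).inter (half_convex f2 v2))
    ((half_closed f1 v1).inter (half_closed f2 v2)) (by
      rw [Set.disjoint_left]
      rintro p hp0 ⟨hp1, hp2⟩
      have := hf1 p ⟨hp0, hp2⟩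
      simp only [Set.mem_setOf_eq] at hp1
      linarith)
  refine ⟨![f0 (1, 0), -f1 (1, 0), -f2 (1, 0)], ![f0 (0, 1), -f1 (0, 1), -f2 (0, 1)],
    ![u0, -v1, -v2], ?_, ?_⟩
  · intro k p hp
    fin_cases k
    · have h1 := hf0 p hp
      rw [clm_eq f0 p] at h1
      simpa using h1.le
    · have h1 := hg1 p hp
      rw [clm_eq f1 p] at h1
      simp
      linarith
    · have h1 := hg2 p hp
      rw [clm_eq f2 p] at h1
      simp
      linarith
  · intro p
    by_cases h1 : v1 ≤ f1 p
    · by_cases h2 : v2 ≤ f2 p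
      · refine ⟨0, ?_⟩
        have h3 := hg0 p ⟨h1, h2⟩
        rw [clm_eq f0 p] at h3
        simp
        linarith
      · refine ⟨2, ?_⟩
        push Not at h2
        rw [clm_eq f2 p] at h2
        simp
        linarith
    · refine ⟨1, ?_⟩
      push Not at h1
      rw [clm_eq f1 p] at h1
      simp
      linarith

theorem sep2 (U V : Finset (ℝ × ℝ)) (h : hull U ∩ hull V = ∅) :
    ∃ a b c : ℝ, b ≠ 0 ∧ (∀ w ∈ U, a * w.1 + b * w.2 < c) ∧ ∀ w ∈ V, c < a * w.1 + b * w.2 := by
  obtain ⟨f, u, v, hf, huv, hg⟩ := geometric_hahn_banach_compact_closed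
    (s := hull U) (t := hull V) (hull_convex _) (hull_compact _)
    (hull_convex _) (hull_compact _).isClosed (Set.disjoint_iff_inter_eq_empty.mpr h)
  have hU : ∀ w ∈ U, f (1, 0) * w.1 + f (0, 1) * w.2 < u := by
    intro w hw
    rw [← clm_eq]
    exact hf w (subset_convexHull ℝ _ hw)
  have hV : ∀ w ∈ V, v < f (1, 0) * w.1 + f (0, 1) * w.2 := by
    intro w hw
    rw [← clm_eq]
    exact hg w (subset_convexHull ℝ _ hw)
  by_cases hb : f (0, 1) = 0
  · set S : ℝ := 1 + ∑ w ∈ U ∪ V, |w.2| with hS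
    have hSpos : 0 < S := by
      have : 0 ≤ ∑ w ∈ U ∪ V, |w.2| := Finset.sum_nonneg fun _ _ => abs_nonneg _
      linarith
    have hle : ∀ w ∈ U ∪ V, |w.2| ≤ S := by
      intro w hw
      have := Finset.single_le_sum (f := fun w : ℝ × ℝ => |w.2|) (fun _ _ => abs_nonneg _) hw
      linarith
    set δ : ℝ := (v - u) / 4 with hδ
    have hδpos : 0 < δ := by
      have : 0 < v - u := by linarith
      positivity
    refine ⟨f (1, 0), δ / S, (u + v) / 2, (div_pos hδpos hSpos).ne', ?_, ?_⟩
    · intro w hw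
      have h1 := hU w hw
      rw [hb, zero_mul, add_zero] at h1
      have h2 : δ / S * w.2 ≤ δ := by
        have h3 : w.2 ≤ S := le_trans (le_abs_self _) (hle w (Finset.mem_union_left _ hw))
        calc δ / S * w.2 ≤ δ / S * S := mul_le_mul_of_nonneg_left h3 (div_pos hδpos hSpos).le
          _ = δ := div_mul_cancel₀ _ hSpos.ne'
      linarith
    · intro w hw
      have h1 := hV w hw
      rw [hb, zero_mul, add_zero] at h1
      have h2 : -δ ≤ δ / S * w.2 := by
        have h3 : -S ≤ w.2 := by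
          have := hle w (Finset.mem_union_right _ hw)
          have := neg_abs_le w.2
          linarith
        calc -δ = δ / S * (-S) := by rw [mul_neg, div_mul_cancel₀ _ hSpos.ne']
          _ ≤ δ / S * w.2 := mul_le_mul_of_nonneg_left h3 (div_pos hδpos hSpos).le
      linarith
  · refine ⟨f (1, 0), f (0, 1), (u + v) / 2, hb, ?_, ?_⟩
    · intro w hw
      have := hU w hw
      linarith
    · intro w hw
      have := hV w hw
      linarith

end Pool.Agent.H54.CT
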