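import Pool.Agent.H54.CT.Defs

/-!
# Transversal lines

JOB CT-SEPB.

`line_exists`: `V i` finite sets with pairwise intersecting hulls (in particular non-empty), a slope
`s` and a level `c` such that `V i₀` minus `v` is below `c` and `V j₀` above `c`.  For each `k` let
`q k = min_{w ∈ V k} (w.2 - s * w.1)`, let `j` maximise `q`, `g = q j ≥ q j₀ > c`.  Then the line
`y = s x + g` meets `hull (V k)` for every `k`: a point of `hull (V k) ∩ hull (V j)` has
`y - s x ≥ g`, the minimising vertex of `V k` has `y - s x ≤ g`; take a convex combination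
(the hull is convex; intermediate value on the segment).  `V j` is above the line.

`meets_rest`: see the proof note (5): `e₁, e, e₂` are three ears of the same set at slopes
`s₁ < s < s₂` with different vertices `v₁, v, v₂`; the line `y = s' x + g'` meets the hull of `V` and
`s' > s₂` or `s' < s₁`.  Then it meets the hull of `V \ {v}`.  Otherwise, as this hull is convex and
non-empty, all of `V \ {v}` is strictly above or strictly below the line (two points on different
sides give a point on the line) while `v` is (weakly) on the other side.  With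
`D₁ t = (v.2 - t v.1) - (v₁.2 - t v₁.1)`, `D₂ t = (v.2 - t v.1) - (v₂.2 - t v₂.1)` (affine in `t`):
`D₁ s₁ < 0 < D₁ s`, `D₂ s₂ < 0 < D₂ s`.  If the rest is below: `D₁ s' > 0`, `D₂ s' > 0`; if it is
above: `D₁ s' < 0`, `D₂ s' < 0`.  All four cases contradict that `D₁`, `D₂` are affine.
-/

set_option autoImplicit false

namespace Pool.Agent.H54.CT

theorem hull_ge (V : Finset (ℝ × ℝ)) (s g : ℝ) (h : ∀ w ∈ V, g ≤ w.2 - s * w.1) :
    ∀ p ∈ hull V, g ≤ p.2 - s * p.1 := by
  have hc : Convex ℝ {p : ℝ × ℝ | g ≤ p.2 - s * p.1} := by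
    intro x hx y hy a b ha hb hab
    change g ≤ x.2 - s * x.1 at hx
    change g ≤ y.2 - s * y.1 at hy
    change g ≤ (a * x.2 + b * y.2) - s * (a * x.1 + b * y.1)
    have h1 := mul_le_mul_of_nonneg_left hx ha
    have h2 := mul_le_mul_of_nonneg_left hy hb
    have h3 : a * g + b * g = g := by rw [← add_mul, hab, one_mul]
    linarith
  intro p hp
  exact convexHull_min (fun w hw => h w hw) hc hp

theorem hull_lt (V : Finset (ℝ × ℝ)) (s g : ℝ) (h : ∀ w ∈ V, w.2 - s * w.1 < g) :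
    ∀ p ∈ hull V, p.2 - s * p.1 < g := by
  have hc : Convex ℝ {p : ℝ × ℝ | p.2 - s * p.1 < g} := by
    intro x hx y hy a b ha hb hab
    change x.2 - s * x.1 < g at hx
    change y.2 - s * y.1 < g at hy
    change (a * x.2 + b * y.2) - s * (a * x.1 + b * y.1) < g
    have h1 := mul_le_mul_of_nonneg_left hx.le ha
    have h2 := mul_le_mul_of_nonneg_left hy.le hb
    have h3 : a * g + b * g = g := by rw [← add_mul, hab, one_mul]
    rcases ha.eq_or_lt with h0 | h0
    · have hb1 : b = 1 := by linarith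
      subst hb1
      rw [← h0]
      linarith
    · have h4 := mul_lt_mul_of_pos_left hx h0
      linarith
  intro p hp
  exact convexHull_min (fun w hw => h w hw) hc hp

theorem hull_gt (V : Finset (ℝ × ℝ)) (s g : ℝ) (h : ∀ w ∈ V, g < w.2 - s * w.1) :
    ∀ p ∈ hull V, g < p.2 - s * p.1 := by
  have hc : Convex ℝ {p : ℝ × ℝ | g < p.2 - s * p.1} := by
    intro x hx y hy a b ha hb hab
    change g < x.2 - s * x.1 at hx
    change g < y.2 - s * y.1 at hy
    change g < (a * x.2 + b * y.2) - s * (a * x.1 + b * y.1)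
    have h1 := mul_le_mul_of_nonneg_left hx.le ha
    have h2 := mul_le_mul_of_nonneg_left hy.le hb
    have h3 : a * g + b * g = g := by rw [← add_mul, hab, one_mul]
    rcases ha.eq_or_lt with h0 | h0
    · have hb1 : b = 1 := by linarith
      subst hb1
      rw [← h0]
      linarith
    · have h4 := mul_lt_mul_of_pos_left hx h0
      linarith
  intro p hp
  exact convexHull_min (fun w hw => h w hw) hc hp

theorem line_meet (C : Set (ℝ × ℝ)) (hC : Convex ℝ C) (p q : ℝ × ℝ) (hp : p ∈ C) (hq : q ∈ C)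
    (s g : ℝ) (h1 : p.2 - s * p.1 ≤ g) (h2 : g ≤ q.2 - s * q.1) :
    ∃ x : ℝ, (x, s * x + g) ∈ C := by
  by_cases he : p.2 - s * p.1 = q.2 - s * q.1
  · refine ⟨p.1, ?_⟩
    have : ((p.1, s * p.1 + g) : ℝ × ℝ) = p := by
      ext
      · rfl
      · simp only
        linarith
    rw [this]
    exact hp
  · have hlt : 0 < (q.2 - s * q.1) - (p.2 - s * p.1) := by
      rcases lt_or_gt_of_ne he with h | h
      · linarith
      · linarith
    set t := (g - (p.2 - s * p.1)) / ((q.2 - s * q.1) - (p.2 - s * p.1)) with ht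
    have ht0 : 0 ≤ t := div_nonneg (by linarith) hlt.le
    have ht1 : t ≤ 1 := by
      rw [ht, div_le_one hlt]
      linarith
    have htm : t * ((q.2 - s * q.1) - (p.2 - s * p.1)) = g - (p.2 - s * p.1) :=
      div_mul_cancel₀ _ hlt.ne'
    have hmem := hC hp hq (by linarith : (0 : ℝ) ≤ 1 - t) ht0 (by ring)
    refine ⟨(1 - t) * p.1 + t * q.1, ?_⟩
    have : (((1 - t) * p.1 + t * q.1, s * ((1 - t) * p.1 + t * q.1) + g) : ℝ × ℝ) =
        (1 - t) • p + t • q := by
      ext
      · simp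
      · simp only [Prod.snd_add, Prod.smul_snd, smul_eq_mul]
        linarith
    rw [this]
    exact hmem

theorem line_exists {n : ℕ} (V : Fin n → Finset (ℝ × ℝ))
    (hint : ∀ i j, (hull (V i) ∩ hull (V j)).Nonempty) (s c : ℝ) (j₀ : Fin n)
    (hj : ∀ w ∈ V j₀, c < w.2 - s * w.1) :
    ∃ (g : ℝ) (j : Fin n), c < g ∧ (∀ w ∈ V j, g ≤ w.2 - s * w.1) ∧
      ∀ k, ∃ x : ℝ, (x, s * x + g) ∈ hull (V k) := by
  have hne : ∀ k, (V k).Nonempty := by
    intro k
    obtain ⟨p, hp, -⟩ := hint k k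
    have : (V k : Set (ℝ × ℝ)).Nonempty := (convexHull_nonempty_iff (𝕜 := ℝ)).mp ⟨p, hp⟩
    exact_mod_cast this
  have hmin : ∀ k, ∃ w ∈ V k, ∀ w' ∈ V k, w.2 - s * w.1 ≤ w'.2 - s * w'.1 := fun k =>
    Finset.exists_min_image (V k) (fun w => w.2 - s * w.1) (hne k)
  choose m hm1 hm2 using hmin
  obtain ⟨j, -, hjmax⟩ := Finset.exists_max_image Finset.univ
    (fun k => (m k).2 - s * (m k).1) ⟨j₀, Finset.mem_univ _⟩
  refine ⟨(m j).2 - s * (m j).1, j, ?_, hm2 j, ?_⟩
  · exact lt_of_lt_of_le (hj _ (hm1 j₀)) (hjmax j₀ (Finset.mem_univ _))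
  · intro k
    obtain ⟨z, hz1, hz2⟩ := hint k j
    exact line_meet _ (convex_convexHull ℝ _) (m k) z (subset_convexHull ℝ _ (hm1 k)) hz1 s _
      (hjmax k (Finset.mem_univ _)) (hull_ge (V j) s _ (hm2 j) z hz2)

theorem meets_rest (V : Finset (ℝ × ℝ)) (v₁ v v₂ : ℝ × ℝ) (h₁ : v₁ ∈ V) (h : v ∈ V) (h₂ : v₂ ∈ V)
    (hv₁ : v₁ ≠ v) (hv₂ : v₂ ≠ v) (s₁ s s₂ g₁ g g₂ : ℝ) (hs₁ : s₁ < s) (hs₂ : s < s₂)
    (e₁ : ∀ w ∈ V, w ≠ v₁ → w.2 - s₁ * w.1 < g₁) (f₁ : ∃ x : ℝ, (x, s₁ * x + g₁) ∈ hull V)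
    (e : ∀ w ∈ V, w ≠ v → w.2 - s * w.1 < g) (f : ∃ x : ℝ, (x, s * x + g) ∈ hull V)
    (e₂ : ∀ w ∈ V, w ≠ v₂ → w.2 - s₂ * w.1 < g₂) (f₂ : ∃ x : ℝ, (x, s₂ * x + g₂) ∈ hull V)
    (s' g' : ℝ) (hs' : s' < s₁ ∨ s₂ < s') (f' : ∃ x : ℝ, (x, s' * x + g') ∈ hull V) :
    ∃ x : ℝ, (x, s' * x + g') ∈ hull (V.erase v) := by
  have top : ∀ (u : ℝ × ℝ) (σ γ : ℝ), (∀ w ∈ V, w ≠ u → w.2 - σ * w.1 < γ) →
      (∃ x : ℝ, (x, σ * x + γ) ∈ hull V) → γ ≤ u.2 - σ * u.1 := by
    intro u σ γ hu hx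
    by_contra hcon
    push Not at hcon
    obtain ⟨x, hx⟩ := hx
    have := hull_lt V σ γ (fun w hw => by
      by_cases hwu : w = u
      · rw [hwu]; exact hcon
      · exact hu w hw hwu) _ hx
    simp only at this
    linarith
  have T1 := top v₁ s₁ g₁ e₁ f₁
  have T := top v s g e f
  have T2 := top v₂ s₂ g₂ e₂ f₂
  have a1 := e₁ v h hv₁.symm
  have a2 := e₂ v h hv₂.symm
  have a3 := e v₁ h₁ hv₁
  have a4 := e v₂ h₂ hv₂
  have hm1 : v₁ ∈ V.erase v := Finset.mem_erase.mpr ⟨hv₁, h₁⟩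
  have hm2 : v₂ ∈ V.erase v := Finset.mem_erase.mpr ⟨hv₂, h₂⟩
  -- `α₁ - t β₁ = D₁ t`
  have d1 : (v.2 - v₁.2) - s₁ * (v.1 - v₁.1) < 0 := by linarith
  have d2 : 0 < (v.2 - v₁.2) - s * (v.1 - v₁.1) := by linarith
  have d3 : (v.2 - v₂.2) - s₂ * (v.1 - v₂.1) < 0 := by linarith
  have d4 : 0 < (v.2 - v₂.2) - s * (v.1 - v₂.1) := by linarith
  have b1 : v.1 - v₁.1 < 0 := by
    by_contra hcon
    push Not at hcon
    have := mul_le_mul_of_nonneg_right hs₁.le hcon
    linarith
  have b2 : 0 < v.1 - v₂.1 := by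
    by_contra hcon
    push Not at hcon
    have := mul_le_mul_of_nonpos_right hs₂.le hcon
    linarith
  by_contra hno
  have hall : (∀ p ∈ hull (V.erase v), p.2 - s' * p.1 < g') ∨
      (∀ p ∈ hull (V.erase v), g' < p.2 - s' * p.1) := by
    by_cases hex : ∃ p ∈ hull (V.erase v), p.2 - s' * p.1 ≤ g'
    · left
      obtain ⟨p, hp, hp'⟩ := hex
      intro q hq
      by_contra hcon
      push Not at hcon
      exact hno (line_meet _ (convex_convexHull ℝ _) p q hp hq s' g' hp' hcon)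
    · right
      push Not at hex
      exact hex
  obtain ⟨x, hx⟩ := f'
  have sub : ∀ w ∈ V.erase v, w ∈ hull (V.erase v) := fun w hw => subset_convexHull ℝ _ hw
  rcases hall with hbel | habo
  · have hvg : g' ≤ v.2 - s' * v.1 := by
      by_contra hcon
      push Not at hcon
      have := hull_lt V s' g' (fun w hw => by
        by_cases hwu : w = v
        · rw [hwu]; exact hcon
        · exact hbel w (sub w (Finset.mem_erase.mpr ⟨hwu, hw⟩))) _ hx
      simp only at this
      linarith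
    have c1 := hbel v₁ (sub _ hm1)
    have c2 := hbel v₂ (sub _ hm2)
    rcases hs' with hs' | hs'
    · have := mul_lt_mul_of_neg_right hs' b1
      linarith
    · have := mul_lt_mul_of_pos_right hs' b2
      linarith
  · have hvg : v.2 - s' * v.1 ≤ g' := by
      by_contra hcon
      push Not at hcon
      have := hull_gt V s' g' (fun w hw => by
        by_cases hwu : w = v
        · rw [hwu]; exact hcon
        · exact habo w (sub w (Finset.mem_erase.mpr ⟨hwu, hw⟩))) _ hx
      simp only at this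
      linarith
    have c1 := habo v₁ (sub _ hm1)
    have c2 := habo v₂ (sub _ hm2)
    rcases hs' with hs' | hs'
    · have := mul_lt_mul_of_pos_right (hs'.trans hs₁) b2
      linarith
    · have := mul_lt_mul_of_neg_right (hs₂.trans hs') b1
      linarith

end Pool.Agent.H54.CT
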