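import Pool.Agent.H54.CT.Core
import Pool.Agent.H54.CT.SepA
import Pool.Agent.H54.CT.SepB

/-!
# Labels of transversal lines do not alternate

JOB CT-EARL.

`no_alt_low`.  Let `y, q` be an alternation of length 17 of `rel X j`: `q k ∈ X`, `j (q k) = y k` for
`k < 17` (unfold `Alt`, `rel`).  `sep3` for `fun k : Fin 3 => V (y k)` (the three letters are
distinct, so `hdis` applies) gives `a, b, c`; apply `core` with `s ∘ q`, `g ∘ q`.  Note
`y t = y (Fin.ofNat 3 t : ℕ)` (by `t = 3 (t / 3) + t % 3` and periodicity; make a lemma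
`y t = y (t % 3)`).  `hm`: the point of `hm (q t)` lies in `hull (V (y k))`, hence in the half-plane.
`hL t t'`: the point `(x, ·)` of `hull (V (y t))` on the line `q t'`; as all `w ∈ V (y t)` satisfy
`g ≤ w.2 - s * w.1` the same holds on the hull (the half-plane is convex: `convexHull_min`).
`hR t t'`: the point of `hull (V (y t'))` on the line `q t`.
-/

set_option autoImplicit false

namespace Pool.Agent.H54.CT

theorem per_mod {α : Type*} (y : ℕ → α) (h : ∀ k, y (k + 3) = y k) (t : ℕ) :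
    y t = y ((Fin.ofNat 3 t : Fin 3) : ℕ) := by
  have h1 : ∀ m r, y (r + 3 * m) = y r := by
    intro m
    induction m with
    | zero => intro r; rfl
    | succ m ih =>
      intro r
      have : r + 3 * (m + 1) = (r + 3 * m) + 3 := by ring
      rw [this, h, ih]
  have h2 : ((Fin.ofNat 3 t : Fin 3) : ℕ) = t % 3 := rfl
  rw [h2]
  conv_lhs => rw [← Nat.mod_add_div t 3]
  exact h1 _ _

theorem strict_mono_of {L : ℕ} (q : ℕ → ℕ) (h : ∀ k, k + 1 < L → q k < q (k + 1)) :
    ∀ k k', k < k' → k' < L → q k < q k' := by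
  intro k k' hk
  induction k', hk using Nat.le_induction with
  | base => exact fun h' => h k h'
  | succ m hm ih => exact fun h' => (ih (by omega)).trans (h m h')

theorem mem_rel {α : Type*} [DecidableEq α] (X : Finset ℕ) (σ : ℕ → α) (a : α) (t : ℕ)
    (h : (a, t) ∈ rel X σ) : t ∈ X ∧ σ t = a := by
  obtain ⟨t', ht', he⟩ := Finset.mem_image.mp h
  obtain ⟨h1, h2⟩ := Prod.mk.inj he
  subst h2
  exact ⟨ht', h1⟩

theorem no_alt_low {n : ℕ} (V : Fin n → Finset (ℝ × ℝ))
    (hdis : ∀ i j k, i ≠ j → j ≠ k → i ≠ k → hull (V i) ∩ hull (V j) ∩ hull (V k) = ∅)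
    (X : Finset ℕ) (s g : ℕ → ℝ) (hs : ∀ t ∈ X, ∀ t' ∈ X, t < t' → s t < s t')
    (hm : ∀ t ∈ X, ∀ k, ∃ x : ℝ, (x, s t * x + g t) ∈ hull (V k))
    (j : ℕ → Fin n) (hj : ∀ t ∈ X, ∀ w ∈ V (j t), g t ≤ w.2 - s t * w.1) :
    ¬ Alt 17 (rel X j) := by
  rintro ⟨y, q, hper, h01, h12, h02, -, hq, hqs⟩
  have hqX : ∀ k, k < 17 → q k ∈ X := fun k hk => (mem_rel X j _ _ (hq k hk)).1
  have hqj : ∀ k, k < 17 → j (q k) = y k := fun k hk => (mem_rel X j _ _ (hq k hk)).2
  have hqm := strict_mono_of q hqs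
  obtain ⟨a, b, c, hin, hempty⟩ := sep3 (fun k : Fin 3 => V (y k))
    (hdis (y 0) (y 1) (y 2) h01 h12 h02)
  refine core a b c hempty (fun t => s (q t)) (fun t => g (q t)) ?_ ?_ ?_ ?_
  · intro t t' h h'
    exact hs _ (hqX t (by omega)) _ (hqX t' h') (hqm t t' h h')
  · intro t ht k
    obtain ⟨x, hx⟩ := hm (q t) (hqX t ht) (y k)
    exact ⟨x, hin k _ hx⟩
  · intro t t' h h'
    obtain ⟨x, hx⟩ := hm (q t') (hqX t' h') (y t)
    refine ⟨x, ?_, ?_⟩
    · rw [per_mod y hper t] at hx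
      exact hin _ _ hx
    · have := hull_ge (V (y t)) (s (q t)) (g (q t)) (by
        have := hj (q t) (hqX t (by omega))
        rwa [hqj t (by omega)] at this) _ hx
      simp only at this
      linarith
  · intro t t' h h'
    obtain ⟨x, hx⟩ := hm (q t) (hqX t (by omega)) (y t')
    refine ⟨x, ?_, ?_⟩
    · rw [per_mod y hper t'] at hx
      exact hin _ _ hx
    · have := hull_ge (V (y t')) (s (q t')) (g (q t')) (by
        have := hj (q t') (hqX t' h')
        rwa [hqj t' h'] at this) _ hx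
      simp only at this
      linarith

end Pool.Agent.H54.CT
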