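import Pool.Agent.H54.CT.Defs

/-!
# The number of upper ears

JOB CT-EARS.

`E` is the set of pairs `(i, v)` (set, vertex) that are upper ears: `v ∈ V i`, `V i` has another
vertex, and some slope `s` and level `c` separate: `V i \ {v}` is below, some `V j` is above.

`slopes`: choose for every `e ∈ E` a slope `s e`, injectively.  For `e ∈ E` the set
`T e = {s | ∃ c j, (∀ w ∈ V e.1, w ≠ e.2 → w.2 - s w.1 < c) ∧ ∀ w ∈ V j, c < w.2 - s w.1}` is infinite:
it contains `s + ε` for all small `ε` (finitely many strict inequalities, continuous in `s`: it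
contains a neighbourhood of `s`, `Filter.eventually_all_finset`, and a neighbourhood in `ℝ` is
infinite: `infinite_of_mem_nhds`).  An injective choice from infinite sets: induction on the finset
`E` (`Finset.induction_on`; choose `s e ∈ T e` outside the finite image:
`Set.Infinite.exists_notMem_finset`), or Hall's theorem.
-/

set_option autoImplicit false

namespace Pool.Agent.H54.CT

/-- the slopes of an ear form an infinite set -/
theorem earsS_infinite {n : ℕ} (V : Fin n → Finset (ℝ × ℝ)) (e : Fin n × (ℝ × ℝ))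
    (h : ∃ (s c : ℝ) (j : Fin n), (∀ w ∈ V e.1, w ≠ e.2 → w.2 - s * w.1 < c) ∧
      ∀ w ∈ V j, c < w.2 - s * w.1) :
    {s : ℝ | ∃ (c : ℝ) (j : Fin n), (∀ w ∈ V e.1, w ≠ e.2 → w.2 - s * w.1 < c) ∧
      ∀ w ∈ V j, c < w.2 - s * w.1}.Infinite := by
  obtain ⟨s, c, j, h1, h2⟩ := h
  apply infinite_of_mem_nhds s
  have hcont : ∀ w : ℝ × ℝ, Continuous fun t : ℝ => w.2 - t * w.1 := fun w =>
    continuous_const.sub (continuous_id.mul continuous_const)
  have e1 : ∀ᶠ t in nhds s, ∀ w ∈ V e.1, w ≠ e.2 → w.2 - t * w.1 < c := by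
    rw [Filter.eventually_all_finset]
    intro w hw
    by_cases hne : w = e.2
    · exact Filter.Eventually.of_forall fun t h => absurd hne h
    · exact ((hcont w).tendsto s).eventually_lt_const (h1 w hw hne) |>.mono fun t ht _ => ht
  have e2 : ∀ᶠ t in nhds s, ∀ w ∈ V j, c < w.2 - t * w.1 := by
    rw [Filter.eventually_all_finset]
    intro w hw
    exact ((hcont w).tendsto s).eventually_const_lt (h2 w hw)
  filter_upwards [e1, e2] with t a b
  exact ⟨c, j, a, b⟩

/-- injective choice from infinite sets -/
theorem earsS_choice {ι : Type*} [DecidableEq ι] (E : Finset ι) (T : ι → Set ℝ)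
    (hT : ∀ e ∈ E, (T e).Infinite) : ∃ s : ι → ℝ, Set.InjOn s E ∧ ∀ e ∈ E, s e ∈ T e := by
  induction E using Finset.induction_on with
  | empty => exact ⟨fun _ => 0, by simp, by simp⟩
  | insert a E ha ih =>
    obtain ⟨s, hs1, hs2⟩ := ih fun e he => hT e (Finset.mem_insert_of_mem he)
    obtain ⟨x, hx, hx'⟩ := (hT a (Finset.mem_insert_self a E)).exists_notMem_finset (E.image s)
    refine ⟨Function.update s a x, ?_, ?_⟩
    · intro e he f hf hef
      rw [Finset.mem_coe, Finset.mem_insert] at he hf
      by_cases h1 : e = a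
      · by_cases h2 : f = a
        · rw [h1, h2]
        · exfalso
          rw [h1, Function.update_self, Function.update_of_ne h2] at hef
          apply hx'
          rw [hef]
          exact Finset.mem_image_of_mem s (hf.resolve_left h2)
      · by_cases h2 : f = a
        · exfalso
          rw [h2, Function.update_self, Function.update_of_ne h1] at hef
          apply hx'
          rw [← hef]
          exact Finset.mem_image_of_mem s (he.resolve_left h1)
        · rw [Function.update_of_ne h1, Function.update_of_ne h2] at hef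
          exact hs1 (he.resolve_left h1) (hf.resolve_left h2) hef
    · intro e he
      by_cases h1 : e = a
      · rw [h1, Function.update_self]
        exact hx
      · rw [Function.update_of_ne h1]
        exact hs2 e ((Finset.mem_insert.1 he).resolve_left h1)

theorem slopes {n : ℕ} (V : Fin n → Finset (ℝ × ℝ)) (E : Finset (Fin n × (ℝ × ℝ)))
    (hE : ∀ e ∈ E, ∃ (s c : ℝ) (j : Fin n), (∀ w ∈ V e.1, w ≠ e.2 → w.2 - s * w.1 < c) ∧
      ∀ w ∈ V j, c < w.2 - s * w.1) :
    ∃ s : Fin n × (ℝ × ℝ) → ℝ, Set.InjOn s E ∧ ∀ e ∈ E, ∃ (c : ℝ) (j : Fin n),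
      (∀ w ∈ V e.1, w ≠ e.2 → w.2 - s e * w.1 < c) ∧ ∀ w ∈ V j, c < w.2 - s e * w.1 := by
  classical
  exact earsS_choice E _ fun e he => earsS_infinite V e (hE e he)

end Pool.Agent.H54.CT
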