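import Pool.Agent.H54.CT.Core
import Pool.Agent.H54.CT.SepA
import Pool.Agent.H54.CT.SepB
import Pool.Agent.H54.CT.EarsL

/-!
# Labels of ears do not alternate

JOB CT-EARU.

`no_alt_up`.  Let `y, q` be an alternation of length 71 of `rel X i`.  Use the 17 indices
`r ↦ q (3 + 4 r)`, whose letters are `y (3 + 4 r) = y (r % 3)`, and `core` for the centrally
reflected half-planes and lines: `-a, -b, c`, slopes `s (q (3 + 4 r))`, levels
`- g (q (3 + 4 r))`, points `x ↦ -x`, `hempty` at `-p`.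
For `hL r r'` (`r < r'`): put `m = 3 + 4 r`; the ears at `q (m - 3)`, `q m`, `q (m + 3)` belong to the
same set `V (y m)` and have different vertices (`hv`), and the line `q (3 + 4 r')` has a larger slope
than `q (m + 3)` since `m + 3 < 3 + 4 r'`; `meets_rest` gives a point of `hull ((V _).erase (v _))` on
that line, and this hull is (strictly) below the line `q m`.
For `hR r r'`: `m = 3 + 4 r'`, the line `q (3 + 4 r)` has smaller slope than `q (m - 3)`.
Indices are `≤ 3 + 4 * 16 + 3 = 70 < 71`.  Slopes increase along `q` (as `q` is strictly increasing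
on `k < 71`; lemma: `k < k' < 71 → q k < q k'`).
-/

set_option autoImplicit false

namespace Pool.Agent.H54.CT

theorem no_alt_up {n : ℕ} (V : Fin n → Finset (ℝ × ℝ))
    (hdis : ∀ i j k, i ≠ j → j ≠ k → i ≠ k → hull (V i) ∩ hull (V j) ∩ hull (V k) = ∅)
    (X : Finset ℕ) (s g : ℕ → ℝ) (hs : ∀ t ∈ X, ∀ t' ∈ X, t < t' → s t < s t')
    (hm : ∀ t ∈ X, ∀ k, ∃ x : ℝ, (x, s t * x + g t) ∈ hull (V k))
    (i : ℕ → Fin n) (v : ℕ → ℝ × ℝ) (hv : ∀ t ∈ X, v t ∈ V (i t))
    (hvi : ∀ t ∈ X, ∀ t' ∈ X, t ≠ t' → i t = i t' → v t ≠ v t')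
    (hi : ∀ t ∈ X, ∀ w ∈ V (i t), w ≠ v t → w.2 - s t * w.1 < g t) :
    ¬ Alt 71 (rel X i) := by
  rintro ⟨y, q, hper, h01, h12, h02, -, hq, hqs⟩
  have hqX : ∀ k, k < 71 → q k ∈ X := fun k hk => (mem_rel X i _ _ (hq k hk)).1
  have hqi : ∀ k, k < 71 → i (q k) = y k := fun k hk => (mem_rel X i _ _ (hq k hk)).2
  have hqm := strict_mono_of q hqs
  have yred : ∀ r, y (3 + 4 * r) = y ((Fin.ofNat 3 r : Fin 3) : ℕ) := by
    intro r
    rw [per_mod y hper (3 + 4 * r)]
    have : ((Fin.ofNat 3 (3 + 4 * r) : Fin 3) : ℕ) = ((Fin.ofNat 3 r : Fin 3) : ℕ) := by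
      change (3 + 4 * r) % 3 = r % 3
      omega
    rw [this]
  obtain ⟨a, b, c, hin, hempty⟩ := sep3 (fun k : Fin 3 => V (y k))
    (hdis (y 0) (y 1) (y 2) h01 h12 h02)
  have key : ∀ m t', 3 ≤ m → m + 3 < 71 → t' < 71 → (t' < m - 3 ∨ m + 3 < t') →
      ∃ x : ℝ, (x, s (q t') * x + g (q t')) ∈ hull (V (y m)) ∧
        s (q t') * x + g (q t') < s (q m) * x + g (q m) := by
    intro m t' h3 hm3 ht' hor
    obtain ⟨k, rfl⟩ : ∃ k, m = k + 3 := ⟨m - 3, by omega⟩
    have e0 : k + 3 - 3 = k := by omega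
    rw [e0] at hor
    have hk0 : i (q k) = y (k + 3) := by rw [hqi k (by omega), hper]
    have hk1 : i (q (k + 3)) = y (k + 3) := hqi _ (by omega)
    have hk2 : i (q (k + 3 + 3)) = y (k + 3) := by rw [hqi _ (by omega), hper]
    have m0 := hqX k (by omega)
    have m1 := hqX (k + 3) (by omega)
    have m2 := hqX (k + 3 + 3) (by omega)
    have l01 := hqm k (k + 3) (by omega) (by omega)
    have l12 := hqm (k + 3) (k + 3 + 3) (by omega) (by omega)
    have v0 := hv _ m0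
    have v1 := hv _ m1
    have v2 := hv _ m2
    rw [hk0] at v0
    rw [hk1] at v1
    rw [hk2] at v2
    have n01 : v (q k) ≠ v (q (k + 3)) := hvi _ m0 _ m1 l01.ne (by rw [hk0, hk1])
    have n21 : v (q (k + 3 + 3)) ≠ v (q (k + 3)) := hvi _ m2 _ m1 l12.ne' (by rw [hk2, hk1])
    have i0 := hi _ m0
    have i1 := hi _ m1
    have i2 := hi _ m2
    rw [hk0] at i0
    rw [hk1] at i1
    rw [hk2] at i2
    have hs' : s (q t') < s (q k) ∨ s (q (k + 3 + 3)) < s (q t') := by
      rcases hor with h | h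
      · exact Or.inl (hs _ (hqX t' ht') _ m0 (hqm _ _ h (by omega)))
      · exact Or.inr (hs _ m2 _ (hqX t' ht') (hqm _ _ h ht'))
    obtain ⟨x, hx⟩ := meets_rest (V (y (k + 3))) (v (q k)) (v (q (k + 3))) (v (q (k + 3 + 3)))
      v0 v1 v2 n01 n21 (s (q k)) (s (q (k + 3))) (s (q (k + 3 + 3))) (g (q k)) (g (q (k + 3)))
      (g (q (k + 3 + 3))) (hs _ m0 _ m1 l01) (hs _ m1 _ m2 l12) i0 (hm _ m0 _) i1 (hm _ m1 _)
      i2 (hm _ m2 _) (s (q t')) (g (q t')) hs' (hm _ (hqX t' ht') _)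
    refine ⟨x, ?_, ?_⟩
    · exact convexHull_mono (fun w hw => Finset.mem_of_mem_erase hw) hx
    · have := hull_lt ((V (y (k + 3))).erase (v (q (k + 3)))) (s (q (k + 3))) (g (q (k + 3)))
        (fun w hw => i1 w (Finset.mem_of_mem_erase hw) (Finset.ne_of_mem_erase hw)) _ hx
      simp only at this
      linarith
  refine core (fun k => - a k) (fun k => - b k) c ?_ (fun t => s (q (3 + 4 * t)))
    (fun t => - g (q (3 + 4 * t))) ?_ ?_ ?_ ?_
  · intro p
    obtain ⟨k, hk⟩ := hempty (-p)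
    refine ⟨k, ?_⟩
    simp only [Prod.fst_neg, Prod.snd_neg] at hk
    linarith
  · intro t t' h h'
    exact hs _ (hqX _ (by omega)) _ (hqX _ (by omega)) (hqm _ _ (by omega) (by omega))
  · intro t ht k
    obtain ⟨x, hx⟩ := hm (q (3 + 4 * t)) (hqX _ (by omega)) (y k)
    refine ⟨-x, ?_⟩
    have := hin k _ hx
    simp only at this ⊢
    linarith
  · intro t t' h h'
    obtain ⟨x, hx, hlt⟩ := key (3 + 4 * t) (3 + 4 * t') (by omega) (by omega) (by omega)
      (Or.inr (by omega))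
    rw [yred] at hx
    refine ⟨-x, ?_, ?_⟩
    · have := hin _ _ hx
      simp only at this ⊢
      linarith
    · linarith
  · intro t t' h h'
    obtain ⟨x, hx, hlt⟩ := key (3 + 4 * t') (3 + 4 * t) (by omega) (by omega) (by omega)
      (Or.inl (by omega))
    rw [yred] at hx
    refine ⟨-x, ?_, ?_⟩
    · have := hin _ _ hx
      simp only at this ⊢
      linarith
    · linarith

end Pool.Agent.H54.CT
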