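import Pool.Agent.H54.CT.Seq
import Pool.Agent.H54.CT.EarsL
import Pool.Agent.H54.CT.EarsU
import Pool.Agent.H54.CT.EarsS

/-!
# The number of upper ears

JOB CT-EARB.

`E` is the set of pairs `(i, v)` (set, vertex) that are upper ears: `v ∈ V i`, `V i` has another
vertex, and some slope `s` and level `c` separate: `V i \ {v}` is below, some `V j` is above.

`ears_bound`: enumerate `E` by increasing slopes: `X = range E.card`, `φ : ℕ → pairs` with
`φ '' X = E`, `t < t' → s (φ t) < s (φ t')` (e.g. `(E.image s).orderEmbOfFin` and the inverse of `s` on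
`E`).  `line_exists` (with `j₀ = j`) gives for every `t ∈ X` the level `g t`, the label `j t` with
`V (j t)` above, the line meeting all hulls, and `c < g t`, so `V (i t) \ {v t}` is strictly below.
`no_alt_low` and `alt_le`, `no_alt_up` give `¬ Alt 71` for both labels.  The third condition of
`total_bound`: for `i t = a`, `j t = b` (`t ∈ X`): fix a point `y ∈ hull (V a) ∩ hull (V b)`; by
Caratheodory (`convexHull_eq_union` and `AffineIndependent.card_le_finrank_succ`,
`Module.finrank ℝ (ℝ × ℝ) = 2`) `y ∈ convexHull W`, `W ⊆ V a`, `W.card ≤ 3`.  If `v t ∉ W` then `y` is in the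
hull of `V a \ {v t}`, strictly below the line `t`, but `y ∈ hull (V b)` is above it.  So `t ↦ v t` maps
these `t` injectively into `W`.
-/

set_option autoImplicit false

namespace Pool.Agent.H54.CT

theorem ct_lt_convex (s g : ℝ) : Convex ℝ {p : ℝ × ℝ | p.2 - s * p.1 < g} := by
  intro x hx y hy a b ha hb hab
  simp only [Set.mem_setOf_eq] at hx hy ⊢
  simp only [Prod.snd_add, Prod.fst_add, Prod.smul_snd, Prod.smul_fst, smul_eq_mul]
  have e : a * x.2 + b * y.2 - s * (a * x.1 + b * y.1) =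
    a * (x.2 - s * x.1) + b * (y.2 - s * y.1) := by ring
  rw [e]
  rcases eq_or_lt_of_le ha with h0 | h0
  · subst h0
    have : b = 1 := by linarith
    subst this
    linarith
  · have h1 : a * (x.2 - s * x.1) < a * g := mul_lt_mul_of_pos_left hx h0
    have h2 : b * (y.2 - s * y.1) ≤ b * g := mul_le_mul_of_nonneg_left hy.le hb
    have h3 : a * g + b * g = g := by rw [← add_mul, hab, one_mul]
    linarith

theorem ct_ge_convex (s g : ℝ) : Convex ℝ {p : ℝ × ℝ | g ≤ p.2 - s * p.1} := by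
  intro x hx y hy a b ha hb hab
  simp only [Set.mem_setOf_eq] at hx hy ⊢
  simp only [Prod.snd_add, Prod.fst_add, Prod.smul_snd, Prod.smul_fst, smul_eq_mul]
  have e : a * x.2 + b * y.2 - s * (a * x.1 + b * y.1) =
    a * (x.2 - s * x.1) + b * (y.2 - s * y.1) := by ring
  rw [e]
  have h1 : a * g ≤ a * (x.2 - s * x.1) := mul_le_mul_of_nonneg_left hx ha
  have h2 : b * g ≤ b * (y.2 - s * y.1) := mul_le_mul_of_nonneg_left hy hb
  have h3 : a * g + b * g = g := by rw [← add_mul, hab, one_mul]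
  linarith

theorem ct_lt_hull {W : Finset (ℝ × ℝ)} {s g : ℝ} (h : ∀ w ∈ W, w.2 - s * w.1 < g) {y : ℝ × ℝ}
    (hy : y ∈ convexHull ℝ (W : Set (ℝ × ℝ))) : y.2 - s * y.1 < g :=
  convexHull_min (fun w hw => h w (Finset.mem_coe.mp hw)) (ct_lt_convex s g) hy

theorem ct_ge_hull {W : Finset (ℝ × ℝ)} {s g : ℝ} (h : ∀ w ∈ W, g ≤ w.2 - s * w.1) {y : ℝ × ℝ}
    (hy : y ∈ convexHull ℝ (W : Set (ℝ × ℝ))) : g ≤ y.2 - s * y.1 :=
  convexHull_min (fun w hw => h w (Finset.mem_coe.mp hw)) (ct_ge_convex s g) hy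

theorem ct_carath {V : Finset (ℝ × ℝ)} {y : ℝ × ℝ} (hy : y ∈ hull V) :
    ∃ W : Finset (ℝ × ℝ), W ⊆ V ∧ W.card ≤ 3 ∧ y ∈ convexHull ℝ (W : Set (ℝ × ℝ)) := by
  unfold hull at hy
  rw [convexHull_eq_union] at hy
  simp only [Set.mem_iUnion] at hy
  obtain ⟨W, hW, hai, hyW⟩ := hy
  refine ⟨W, by exact_mod_cast hW, ?_, hyW⟩
  have h1 := hai.card_le_finrank_succ
  rw [Fintype.card_coe] at h1
  have h2 : Module.finrank ℝ (vectorSpan ℝ (Set.range ((↑) : W → ℝ × ℝ))) ≤
      Module.finrank ℝ (ℝ × ℝ) := Submodule.finrank_le _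
  have h3 : Module.finrank ℝ (ℝ × ℝ) = 2 := by
    rw [Module.finrank_prod, Module.finrank_self]
  omega

/-- enumeration of a finite set by increasing values of an injective function -/
theorem ct_enum {β : Type*} (E : Finset β) (hE : E.Nonempty) (s : β → ℝ) (hs : Set.InjOn s E) :
    ∃ φ : ℕ → β, (∀ t, φ t ∈ E) ∧
      ∀ t ∈ Finset.range E.card, ∀ t' ∈ Finset.range E.card, t < t' → s (φ t) < s (φ t') := by
  classical
  obtain ⟨e0, he0⟩ := hE
  have hc : (E.image s).card = E.card := Finset.card_image_of_injOn hs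
  have hex : ∀ t : ℕ, ∃ e ∈ E, ∀ h : t < E.card, s e = (E.image s).orderEmbOfFin hc ⟨t, h⟩ := by
    intro t
    by_cases h : t < E.card
    · have hm := Finset.orderEmbOfFin_mem (E.image s) hc ⟨t, h⟩
      rw [Finset.mem_image] at hm
      obtain ⟨e, he, hes⟩ := hm
      exact ⟨e, he, fun _ => hes⟩
    · exact ⟨e0, he0, fun h' => absurd h' h⟩
  choose φ h1 h2 using hex
  refine ⟨φ, h1, ?_⟩
  intro t ht t' ht' htt
  rw [Finset.mem_range] at ht ht'
  rw [h2 t ht, h2 t' ht']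
  exact ((E.image s).orderEmbOfFin hc).strictMono htt

theorem ears_bound (P : ℕ) {n : ℕ} (hn : n ≤ 2 ^ P) (V : Fin n → Finset (ℝ × ℝ))
    (hint : ∀ i j, (hull (V i) ∩ hull (V j)).Nonempty)
    (hdis : ∀ i j k, i ≠ j → j ≠ k → i ≠ k → hull (V i) ∩ hull (V j) ∩ hull (V k) = ∅)
    (E : Finset (Fin n × (ℝ × ℝ))) (hv : ∀ e ∈ E, e.2 ∈ V e.1)
    (hE : ∀ e ∈ E, ∃ (s c : ℝ) (j : Fin n), (∀ w ∈ V e.1, w ≠ e.2 → w.2 - s * w.1 < c) ∧
      ∀ w ∈ V j, c < w.2 - s * w.1) :
    E.card ≤ n * Phi P := by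
  classical
  rcases E.eq_empty_or_nonempty with h0 | hne
  · rw [h0]; simp
  obtain ⟨s, hs, hsE⟩ := slopes V E hE
  have hex : ∀ e : Fin n × (ℝ × ℝ), ∃ (g : ℝ) (j : Fin n), e ∈ E →
      (∀ w ∈ V e.1, w ≠ e.2 → w.2 - s e * w.1 < g) ∧ (∀ w ∈ V j, g ≤ w.2 - s e * w.1) ∧
      ∀ k, ∃ x : ℝ, (x, s e * x + g) ∈ hull (V k) := by
    intro e
    by_cases he : e ∈ E
    · obtain ⟨c, j0, h1, h2⟩ := hsE e he
      obtain ⟨g, j, hcg, h3, h4⟩ := line_exists V hint (s e) c j0 h2
      exact ⟨g, j, fun _ => ⟨fun w hw hwe => (h1 w hw hwe).trans hcg, h3, h4⟩⟩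
    · exact ⟨0, e.1, fun h => absurd h he⟩
  choose gE jE hgj using hex
  obtain ⟨φ, hφE, hφ⟩ := ct_enum E hne s hs
  set X := Finset.range E.card with hX
  have hinj : ∀ t ∈ X, ∀ t' ∈ X, t ≠ t' → φ t ≠ φ t' := by
    intro t ht t' ht' hne h
    rcases lt_or_gt_of_ne hne with h1 | h1
    · have := hφ t ht t' ht' h1
      rw [h] at this
      exact lt_irrefl _ this
    · have := hφ t' ht' t ht h1
      rw [h] at this
      exact lt_irrefl _ this
  have hcard : ∀ f : ℕ → Fin n, (X.image f).card ≤ n := by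
    intro f
    have := Finset.card_le_univ (X.image f)
    rwa [Fintype.card_fin] at this
  have hkey := total_bound P n hn X (fun t => (φ t).1) (fun t => jE (φ t)) (hcard _) (hcard _)
    (no_alt_up V hdis X (fun t => s (φ t)) (fun t => gE (φ t)) hφ
      (fun t _ k => (hgj (φ t) (hφE t)).2.2 k) (fun t => (φ t).1) (fun t => (φ t).2)
      (fun t _ => hv _ (hφE t))
      (fun t ht t' ht' hne h1 h2 => hinj t ht t' ht' hne (Prod.ext h1 h2))
      (fun t _ => (hgj (φ t) (hφE t)).1))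
    (fun hA => no_alt_low V hdis X (fun t => s (φ t)) (fun t => gE (φ t)) hφ
      (fun t _ k => (hgj (φ t) (hφE t)).2.2 k) (fun t => jE (φ t))
      (fun t _ => (hgj (φ t) (hφE t)).2.1) (alt_le (by norm_num) hA)) ?_
  · rwa [hX, Finset.card_range] at hkey
  intro a b
  obtain ⟨y, hya, hyb⟩ := hint a b
  obtain ⟨W, hWV, hW3, hyW⟩ := ct_carath hya
  refine le_trans (Finset.card_le_card_of_injOn (fun t => (φ t).2) ?_ ?_) hW3
  · intro t ht
    rw [Finset.mem_coe, Finset.mem_filter] at ht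
    obtain ⟨htX, hta, htb⟩ := ht
    by_contra hc
    rw [Finset.mem_coe] at hc
    have h1 := (hgj (φ t) (hφE t)).1
    have h2 := (hgj (φ t) (hφE t)).2.1
    rw [hta] at h1
    rw [htb] at h2
    have h3 : y.2 - s (φ t) * y.1 < gE (φ t) := by
      refine ct_lt_hull (fun w hw => h1 w (hWV hw) ?_) hyW
      rintro rfl
      exact hc hw
    have h4 := ct_ge_hull h2 hyb
    linarith
  · intro t ht t' ht' h
    rw [Finset.mem_coe, Finset.mem_filter] at ht ht'
    by_contra hne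
    apply hinj t ht.1 t' ht'.1 hne
    exact Prod.ext (ht.2.1.trans ht'.2.1.symm) h

end Pool.Agent.H54.CT
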