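import Pool.Agent.H54.CT.Defs

/-!
# Polygons with few vertices

JOB CT-FEWA.

`min_family`: choose `p i j ∈ A i ∩ A j`; the family `V i = {p i j, p j i | j}` has `V i ⊆ A i`, and its
hulls intersect pairwise.  Among all families of finite sets with these two properties take one with
`∑ i, (V i).card` minimal (`Nat.find` or `WellFounded.min`).  If `v ∈ V i` and `(V i).erase v` is
non-empty, then the family with `V i` replaced by `(V i).erase v` (`Function.update`) has smaller sum,
so some pair of hulls is disjoint: pairs not involving `i` are unchanged, the pair `(i, i)` is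
non-empty, so there is `j ≠ i` with `hull ((V i).erase v) ∩ hull (V j) = ∅` (the intersection is
symmetric).
-/

set_option autoImplicit false

namespace Pool.Agent.H54.CT

theorem min_family {n : ℕ} (A : Fin n → Set (ℝ × ℝ)) (hA : ∀ i, Convex ℝ (A i))
    (hint : ∀ i j, (A i ∩ A j).Nonempty) :
    ∃ V : Fin n → Finset (ℝ × ℝ), (∀ i, (V i : Set (ℝ × ℝ)) ⊆ A i) ∧
      (∀ i j, (hull (V i) ∩ hull (V j)).Nonempty) ∧
      ∀ i, ∀ v ∈ V i, ((V i).erase v).Nonempty →
        ∃ j, hull ((V i).erase v) ∩ hull (V j) = ∅ := by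
  classical
  have hsub : ∀ (V : Finset (ℝ × ℝ)) (x : ℝ × ℝ), x ∈ V → x ∈ hull V := fun V x hx =>
    subset_convexHull ℝ _ (Finset.mem_coe.2 hx)
  let Q : (Fin n → Finset (ℝ × ℝ)) → Prop := fun V =>
    (∀ i, (V i : Set (ℝ × ℝ)) ⊆ A i) ∧ ∀ i j, (hull (V i) ∩ hull (V j)).Nonempty
  have hex : ∃ m, ∃ V, Q V ∧ ∑ i, (V i).card = m := by
    choose p hp using hint
    refine ⟨_, fun i => Finset.univ.image (p i) ∪ Finset.univ.image (fun j => p j i),
      ⟨fun i x hx => ?_, fun i j => ⟨p i j, ?_, ?_⟩⟩, rfl⟩
    · rw [Finset.mem_coe, Finset.mem_union, Finset.mem_image, Finset.mem_image] at hx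
      rcases hx with ⟨j, _, rfl⟩ | ⟨j, _, rfl⟩
      · exact (hp i j).1
      · exact (hp j i).2
    · exact hsub _ _ (Finset.mem_union_left _ (Finset.mem_image_of_mem _ (Finset.mem_univ j)))
    · exact hsub _ _ (Finset.mem_union_right _
        (Finset.mem_image.2 ⟨i, Finset.mem_univ i, rfl⟩))
  obtain ⟨V, ⟨hV1, hV2⟩, hVm⟩ := Nat.find_spec hex
  refine ⟨V, hV1, hV2, fun i v hv hne => ?_⟩
  by_contra hcon
  push Not at hcon
  have hcon' : ∀ j, (hull ((V i).erase v) ∩ hull (V j)).Nonempty := fun j =>
    Set.nonempty_iff_ne_empty.2 (Set.nonempty_iff_ne_empty.1 (hcon j))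
  let W : Fin n → Finset (ℝ × ℝ) := Function.update V i ((V i).erase v)
  have hWi : W i = (V i).erase v := Function.update_self _ _ _
  have hWj : ∀ j, j ≠ i → W j = V j := fun j hj => Function.update_of_ne hj _ _
  have hW : Q W := by
    refine ⟨fun j => ?_, fun j l => ?_⟩
    · by_cases hj : j = i
      · subst hj
        rw [hWi]
        exact (Finset.coe_subset.2 (Finset.erase_subset _ _)).trans (hV1 j)
      · rw [hWj j hj]
        exact hV1 j
    · by_cases hj : j = i
      · by_cases hl : l = i
        · subst hj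
          subst hl
          rw [hWi]
          obtain ⟨x, hx⟩ := hne
          exact ⟨x, hsub _ _ hx, hsub _ _ hx⟩
        · subst hj
          rw [hWi, hWj l hl]
          exact hcon' l
      · by_cases hl : l = i
        · subst hl
          rw [hWi, hWj j hj, Set.inter_comm]
          exact hcon' j
        · rw [hWj j hj, hWj l hl]
          exact hV2 j l
  have hlt : ∑ j, (W j).card < ∑ j, (V j).card := by
    refine Finset.sum_lt_sum (fun j _ => ?_) ⟨i, Finset.mem_univ i, ?_⟩
    · by_cases hj : j = i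
      · subst hj
        rw [hWi]
        exact Finset.card_le_card (Finset.erase_subset _ _)
      · rw [hWj j hj]
    · rw [hWi]
      exact Finset.card_erase_lt_of_mem hv
  rw [hVm] at hlt
  exact Nat.find_min hex hlt ⟨W, hW, rfl⟩

end Pool.Agent.H54.CT
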