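import Pool.Agent.H54.CT.EarsB
import Pool.Agent.H54.CT.FewA
import Pool.Agent.H54.CT.SepA

/-!
# Polygons with few vertices: the bound

JOB CT-FEWB.

`few_vertices`: `E = all (i, v)` with `v ∈ V i`, `(V i).erase v` non-empty.  By `sep2` (with
`U = (V i).erase v`) there are `a, b, c` with `b ≠ 0`.  If `b > 0` divide by `b`: `s = - a / b`
(`w.2 - s w.1 = (a w.1 + b w.2) / b`), `(i, v)` belongs to the set `E₁` of upper ears of `V`; if
`b < 0` divide by `-b`: `(i, (v.1, -v.2))` is an upper ear of the reflected family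
`V' i = (V i).image (fun p => (p.1, -p.2))`, with `s = a / (-b) · (-1)`: `(a w.1 + b w.2) / (-b)
= - w.2 - (a / b) w.1`, so `s = a / b`.  The reflected family satisfies the same hypotheses
(`hull (V' i)` is the image of `hull (V i)` under the linear bijection `(x, y) ↦ (x, -y)`;
`LinearMap.image_convexHull` / `LinearEquiv`).  `ears_bound` for both gives
`|E₁|, |E₂| ≤ n * Phi P`.  Finally `∑ (V i).card ≤ |E| + n` because the `i` with
`(V i).erase v = ∅` for some `v ∈ V i` have one vertex.
(`Realizes A χ` restricts to the hulls: `hull (V i) ⊆ A i` by `convexHull_min`.)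
-/

set_option autoImplicit false

namespace Pool.Agent.H54.CT

/-- reflection in the `x`-axis -/
noncomputable def fewRefl : ℝ × ℝ →ₗ[ℝ] ℝ × ℝ where
  toFun p := (p.1, -p.2)
  map_add' p q := by
    ext
    · simp
    · simp only [Prod.snd_add]
      ring
  map_smul' c p := by
    ext
    · simp
    · simp

theorem fewRefl_apply (p : ℝ × ℝ) : fewRefl p = (p.1, -p.2) := rfl

theorem fewRefl_refl (p : ℝ × ℝ) : fewRefl (fewRefl p) = p := by
  rw [fewRefl_apply, fewRefl_apply, neg_neg]

open Classical in
theorem few_mem_hull (V : Finset (ℝ × ℝ)) (x : ℝ × ℝ) :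
    x ∈ hull (V.image fewRefl) ↔ fewRefl x ∈ hull V := by
  unfold hull
  rw [Finset.coe_image, ← LinearMap.image_convexHull]
  constructor
  · rintro ⟨y, hy, rfl⟩
    rw [fewRefl_refl]
    exact hy
  · intro h
    exact ⟨_, h, fewRefl_refl x⟩

open Classical in
/-- the ears: vertices of a polygon with at least two vertices -/
noncomputable def fewE {n : ℕ} (V : Fin n → Finset (ℝ × ℝ)) : Finset (Fin n × (ℝ × ℝ)) :=
  Finset.univ.biUnion fun i =>
    ((V i).filter fun v => ((V i).erase v).Nonempty).image fun v => (i, v)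

open Classical in
theorem few_mem_E {n : ℕ} (V : Fin n → Finset (ℝ × ℝ)) (e : Fin n × (ℝ × ℝ)) :
    e ∈ fewE V ↔ e.2 ∈ V e.1 ∧ ((V e.1).erase e.2).Nonempty := by
  unfold fewE
  rw [Finset.mem_biUnion]
  constructor
  · rintro ⟨i, -, h⟩
    obtain ⟨v, hv, rfl⟩ := Finset.mem_image.1 h
    exact Finset.mem_filter.1 hv
  · intro h
    exact ⟨e.1, Finset.mem_univ _, Finset.mem_image.2 ⟨e.2, Finset.mem_filter.2 h, rfl⟩⟩

open Classical in
theorem few_sum_le {n : ℕ} (V : Fin n → Finset (ℝ × ℝ)) :
    ∑ i, (V i).card ≤ (fewE V).card + n := by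
  have h1 : (fewE V).card = ∑ i, ((V i).filter fun v => ((V i).erase v).Nonempty).card := by
    unfold fewE
    rw [Finset.card_biUnion]
    · refine Finset.sum_congr rfl fun i _ => ?_
      exact Finset.card_image_of_injective _ fun v w h => (Prod.ext_iff.1 h).2
    · intro i _ j _ hij
      rw [Function.onFun, Finset.disjoint_left]
      intro e he he'
      obtain ⟨v, -, rfl⟩ := Finset.mem_image.1 he
      obtain ⟨w, -, hw⟩ := Finset.mem_image.1 he'
      exact hij (Prod.ext_iff.1 hw).1.symm
  have h2 : ∀ i, (V i).card ≤ ((V i).filter fun v => ((V i).erase v).Nonempty).card + 1 := by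
    intro i
    by_cases hc : (V i).card ≤ 1
    · omega
    · have h3 : ((V i).filter fun v => ((V i).erase v).Nonempty) = V i := by
        rw [Finset.filter_eq_self]
        intro v hv
        rw [← Finset.card_pos, Finset.card_erase_of_mem hv]
        omega
      rw [h3]
      omega
  calc ∑ i, (V i).card ≤ ∑ i, (((V i).filter fun v => ((V i).erase v).Nonempty).card + 1) :=
        Finset.sum_le_sum fun i _ => h2 i
    _ = (fewE V).card + n := by
        rw [Finset.sum_add_distrib, h1]
        simp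

theorem few_vertices (P : ℕ) {n : ℕ} (hn : n ≤ 2 ^ P) {χ : Fin n → Fin n → Fin n → SignType}
    {A : Fin n → Set (ℝ × ℝ)} (h : Realizes A χ) :
    ∃ V : Fin n → Finset (ℝ × ℝ), Realizes (fun i => hull (V i)) χ ∧
      ∑ i, (V i).card ≤ n * (2 * Phi P + 1) := by
  classical
  obtain ⟨hconv, hint, hdis, hor⟩ := h
  obtain ⟨V, hVA, hVint, hVmin⟩ := min_family A hconv hint
  have hsub : ∀ i, hull (V i) ⊆ A i := fun i => convexHull_min (hVA i) (hconv i)
  have hdis' : ∀ i j k, i ≠ j → j ≠ k → i ≠ k → hull (V i) ∩ hull (V j) ∩ hull (V k) = ∅ := by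
    intro i j k hij hjk hik
    rw [← Set.subset_empty_iff, ← hdis i j k hij hjk hik]
    exact Set.inter_subset_inter (Set.inter_subset_inter (hsub i) (hsub j)) (hsub k)
  refine ⟨V, ⟨fun i => convex_convexHull ℝ _, hVint, hdis', ?_⟩, ?_⟩
  · intro i j k hij hjk hik p hp q hq r hr
    exact hor i j k hij hjk hik p ⟨hsub i hp.1, hsub j hp.2⟩ q ⟨hsub j hq.1, hsub k hq.2⟩ r
      ⟨hsub k hr.1, hsub i hr.2⟩
  set Q : Fin n × (ℝ × ℝ) → Prop := fun e => ∃ (s c : ℝ) (j : Fin n),
    (∀ w ∈ V e.1, w ≠ e.2 → w.2 - s * w.1 < c) ∧ ∀ w ∈ V j, c < w.2 - s * w.1 with hQ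
  have hE1 : ((fewE V).filter Q).card ≤ n * Phi P := by
    refine ears_bound P hn V hVint hdis' _ ?_ ?_
    · intro e he
      exact ((few_mem_E V e).1 (Finset.mem_filter.1 he).1).1
    · intro e he
      exact (Finset.mem_filter.1 he).2
  have hE2 : ((fewE V).filter fun e => ¬ Q e).card ≤ n * Phi P := by
    have hinj : Function.Injective (fun e : Fin n × (ℝ × ℝ) => (e.1, fewRefl e.2)) := by
      intro e e' h
      have h1 := (Prod.ext_iff.1 h).1
      have h2 : fewRefl e.2 = fewRefl e'.2 := (Prod.ext_iff.1 h).2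
      have h3 := congrArg fewRefl h2
      rw [fewRefl_refl, fewRefl_refl] at h3
      exact Prod.ext h1 h3
    rw [← Finset.card_image_of_injective _ hinj]
    refine ears_bound P hn (fun i => (V i).image fewRefl) ?_ ?_ _ ?_ ?_
    · intro i j
      obtain ⟨x, hx1, hx2⟩ := hVint i j
      refine ⟨fewRefl x, ?_, ?_⟩
      · rw [few_mem_hull, fewRefl_refl]
        exact hx1
      · rw [few_mem_hull, fewRefl_refl]
        exact hx2
    · intro i j k hij hjk hik
      rw [Set.eq_empty_iff_forall_notMem]
      rintro x ⟨⟨hx1, hx2⟩, hx3⟩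
      rw [few_mem_hull] at hx1 hx2 hx3
      have h4 : fewRefl x ∈ hull (V i) ∩ hull (V j) ∩ hull (V k) := ⟨⟨hx1, hx2⟩, hx3⟩
      rw [hdis' i j k hij hjk hik] at h4
      exact h4
    · intro e he
      obtain ⟨e', he', rfl⟩ := Finset.mem_image.1 he
      exact Finset.mem_image_of_mem _ ((few_mem_E V e').1 (Finset.mem_filter.1 he').1).1
    · intro e he
      obtain ⟨e', he', rfl⟩ := Finset.mem_image.1 he
      obtain ⟨h1, h2⟩ := Finset.mem_filter.1 he'
      obtain ⟨h3, h4⟩ := (few_mem_E V e').1 h1
      obtain ⟨j, hj⟩ := hVmin e'.1 e'.2 h3 h4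
      obtain ⟨a, b, c, hb, hU, hW⟩ := sep2 _ _ hj
      have hb' : b < 0 := by
        by_contra hcon
        have hbpos : 0 < b := lt_of_le_of_ne (not_lt.1 hcon) hb.symm
        apply h2
        refine ⟨-a / b, c / b, j, ?_, ?_⟩
        · intro w hw hne
          have h5 := hU w (Finset.mem_erase.2 ⟨hne, hw⟩)
          rw [lt_div_iff₀ hbpos]
          have h6 : (w.2 - -a / b * w.1) * b = a * w.1 + b * w.2 := by
            field_simp
            ring
          rw [h6]
          exact h5
        · intro w hw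
          have h5 := hW w hw
          rw [div_lt_iff₀ hbpos]
          have h6 : (w.2 - -a / b * w.1) * b = a * w.1 + b * w.2 := by
            field_simp
            ring
          rw [h6]
          exact h5
      have hbn : 0 < -b := by linarith
      have hkey : ∀ w : ℝ × ℝ, ((fewRefl w).2 - a / b * (fewRefl w).1) * (-b) =
          a * w.1 + b * w.2 := by
        intro w
        rw [fewRefl_apply]
        field_simp
        ring
      refine ⟨a / b, c / (-b), j, ?_, ?_⟩
      · intro w hw hne
        obtain ⟨w', hw', rfl⟩ := Finset.mem_image.1 hw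
        have hne' : w' ≠ e'.2 := fun h => hne (by rw [h])
        have h5 := hU w' (Finset.mem_erase.2 ⟨hne', hw'⟩)
        rw [lt_div_iff₀ hbn, hkey]
        exact h5
      · intro w hw
        obtain ⟨w', hw', rfl⟩ := Finset.mem_image.1 hw
        have h5 := hW w' hw'
        rw [div_lt_iff₀ hbn, hkey]
        exact h5
  have hsum := Finset.card_filter_add_card_filter_not (s := fewE V) Q
  have h5 := few_sum_le V
  have h6 : n * (2 * Phi P + 1) = n * Phi P + n * Phi P + n := by ring
  omega

end Pool.Agent.H54.CT
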