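import Pool.Agent.H54.CT.Defs

/-!
# The lower bound `N! ≤ cto (N + 1)`

JOB CT-LOW.

For a permutation `π` of `Fin N` let `s 0 = 0`, `s (j.succ) = π j + 1` (reals, distinct); the sets are the
lines `A i = {p | p.2 = s i * p.1 - s i ^ 2}`.  `A i ∩ A j = {(s i + s j, s i * s j)}` for `i ≠ j`, and a
line `k` contains this point iff `(s k - s i) (s k - s j) = 0`, so no three lines have a common point.
`det3 (s i + s j, s i s j) (s j + s k, s j s k) (s k + s i, s k s i)
  = (s i - s j) (s j - s k) (s k - s i)` up to a fixed sign (`ring`; find the sign), which is not zero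
for distinct `i, j, k`.  `χ_π i j k = sign` of it (`0` for non-distinct triples automatically).
`π ↦ χ_π` is injective: `χ_π 0 j k` with `j, k ≠ 0` is (up to the fixed sign)
`sign ((0 - s j) (s j - s k) (s k - 0))`, i.e. it tells whether `s j < s k`; two permutations of
`Fin N` inducing the same order `π j < π k ↔ π' j < π' k` are equal (`π' ∘ π⁻¹` is an order
automorphism of `Fin N`; `Subsingleton` of `Fin N ≃o Fin N`, or `π j = #{k | π k < π j}`).
`Nat.card` of the subtype: `Nat.card_le_card_of_injective` from `Equiv.Perm (Fin N)`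
(`Fintype.card_perm`), the subtype is finite.
-/

set_option autoImplicit false

namespace Pool.Agent.H54.CT

/-- The slopes. -/
noncomputable def slo {N : ℕ} (π : Equiv.Perm (Fin N)) : Fin (N + 1) → ℝ :=
  Fin.cases 0 (fun j => ((π j : ℕ) : ℝ) + 1)

theorem slo_zero {N : ℕ} (π : Equiv.Perm (Fin N)) : slo π 0 = 0 := rfl

theorem slo_succ {N : ℕ} (π : Equiv.Perm (Fin N)) (j : Fin N) : slo π j.succ = ((π j : ℕ) : ℝ) + 1 := rfl

theorem slo_inj {N : ℕ} (π : Equiv.Perm (Fin N)) {i j : Fin (N + 1)} (h : i ≠ j) : slo π i - slo π j ≠ 0 := by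
  intro h0
  have h1 : slo π i = slo π j := by linarith
  refine Fin.cases ?_ (fun i => ?_) i h h1
  · refine Fin.cases ?_ (fun j => ?_) j
    · intro h _
      exact h rfl
    · intro _ h
      rw [slo_zero, slo_succ] at h
      have : (0 : ℝ) ≤ ((π j : ℕ) : ℝ) := Nat.cast_nonneg _
      linarith
  · refine Fin.cases ?_ (fun j => ?_) j
    · intro _ h
      rw [slo_zero, slo_succ] at h
      have : (0 : ℝ) ≤ ((π i : ℕ) : ℝ) := Nat.cast_nonneg _
      linarith
    · intro h h'
      rw [slo_succ, slo_succ] at h'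
      have h2 : ((π i : ℕ) : ℝ) = ((π j : ℕ) : ℝ) := by linarith
      have h3 : π i = π j := Fin.ext (by exact_mod_cast h2)
      exact h (by rw [π.injective h3])

/-- The orientation of the lines. -/
noncomputable def chiL {N : ℕ} (π : Equiv.Perm (Fin N)) : Fin (N + 1) → Fin (N + 1) → Fin (N + 1) → SignType :=
  fun i j k => SignType.sign ((slo π i - slo π j) * (slo π k - slo π j) * (slo π k - slo π i))

theorem chiL_cto {N : ℕ} (π : Equiv.Perm (Fin N)) : IsCTO (chiL π) := by
  refine ⟨?_, fun i => {p | p.2 = slo π i * p.1 - slo π i ^ 2}, ?_, ?_, ?_, ?_⟩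
  · rintro i j k (rfl | rfl | rfl) <;> simp [chiL]
  · intro i p hp q hq a b ha hb hab
    simp only [Set.mem_ofPred_eq] at *
    simp only [Prod.fst_add, Prod.smul_fst, Prod.snd_add, Prod.smul_snd, smul_eq_mul]
    rw [hp, hq]
    have hb' : b = 1 - a := by linarith
    rw [hb']
    ring
  · intro i j
    refine ⟨(slo π i + slo π j, slo π i * slo π j), ?_, ?_⟩
    · simp only [Set.mem_ofPred_eq]; ring
    · simp only [Set.mem_ofPred_eq]; ring
  · intro i j k hij hjk hik
    rw [Set.eq_empty_iff_forall_notMem]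
    rintro p ⟨⟨h1, h2⟩, h3⟩
    simp only [Set.mem_ofPred_eq] at h1 h2 h3
    have e1 := slo_inj π hij
    have e2 := slo_inj π hjk
    have e3 := slo_inj π hik
    have h4 : p.1 = slo π i + slo π j := by
      have : (slo π i - slo π j) * (p.1 - (slo π i + slo π j)) = 0 := by
        rw [h1] at h2
        linarith
      rcases mul_eq_zero.1 this with h | h
      · exact absurd h e1
      · linarith
    have h5 : p.1 = slo π j + slo π k := by
      have : (slo π j - slo π k) * (p.1 - (slo π j + slo π k)) = 0 := by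
        rw [h2] at h3
        linarith
      rcases mul_eq_zero.1 this with h | h
      · exact absurd h e2
      · linarith
    apply e3
    linarith
  · intro i j k hij hjk hik p hp q hq r hr
    have key : ∀ {i j : Fin (N + 1)}, i ≠ j → ∀ p : ℝ × ℝ, p ∈ {p : ℝ × ℝ | p.2 = slo π i * p.1 - slo π i ^ 2} ∩
        {p : ℝ × ℝ | p.2 = slo π j * p.1 - slo π j ^ 2} → p.1 = slo π i + slo π j ∧ p.2 = slo π i * slo π j := by
      rintro i j hij p ⟨h1, h2⟩
      simp only [Set.mem_ofPred_eq] at h1 h2
      have e1 := slo_inj π hij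
      have h4 : p.1 = slo π i + slo π j := by
        have : (slo π i - slo π j) * (p.1 - (slo π i + slo π j)) = 0 := by
          rw [h1] at h2
          linarith
        rcases mul_eq_zero.1 this with h | h
        · exact absurd h e1
        · linarith
      refine ⟨h4, ?_⟩
      rw [h1, h4]
      ring
    obtain ⟨p1, p2⟩ := key hij p hp
    obtain ⟨q1, q2⟩ := key hjk q hq
    obtain ⟨r1, r2⟩ := key hik.symm r hr
    have hdet : det3 p q r = (slo π i - slo π j) * (slo π k - slo π j) * (slo π k - slo π i) := by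
      unfold det3
      rw [p1, p2, q1, q2, r1, r2]
      ring
    rw [hdet]
    show 0 < (SignType.sign ((slo π i - slo π j) * (slo π k - slo π j) * (slo π k - slo π i)) : ℝ) *
      ((slo π i - slo π j) * (slo π k - slo π j) * (slo π k - slo π i))
    rw [sign_mul_self]
    exact abs_pos.2 (mul_ne_zero (mul_ne_zero (slo_inj π hij) (slo_inj π hjk.symm)) (slo_inj π hik.symm))

theorem chiL_lt {N : ℕ} (π : Equiv.Perm (Fin N)) (j k : Fin N) :
    π j < π k ↔ chiL π 0 j.succ k.succ = -1 := by
  have hj : (0 : ℝ) < ((π j : ℕ) : ℝ) + 1 := by positivity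
  have hk : (0 : ℝ) < ((π k : ℕ) : ℝ) + 1 := by positivity
  unfold chiL
  rw [slo_zero, slo_succ, slo_succ, sign_eq_neg_one_iff]
  have e : (0 - (((π j : ℕ) : ℝ) + 1)) * (((π k : ℕ) : ℝ) + 1 - (((π j : ℕ) : ℝ) + 1)) * (((π k : ℕ) : ℝ) + 1 - 0) =
      -(((((π j : ℕ) : ℝ) + 1) * (((π k : ℕ) : ℝ) + 1)) * (((π k : ℕ) : ℝ) - ((π j : ℕ) : ℝ))) := by ring
  rw [e, neg_lt_zero, mul_pos_iff_of_pos_left (mul_pos hj hk), sub_pos, Nat.cast_lt]
  exact Iff.rfl

theorem cto_lower (N : ℕ) : N.factorial ≤ cto (N + 1) := by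
  have h := Nat.card_le_card_of_injective (α := Equiv.Perm (Fin N))
    (β := {χ : Fin (N + 1) → Fin (N + 1) → Fin (N + 1) → SignType // IsCTO χ})
    (fun π => ⟨chiL π, chiL_cto π⟩) (by
      intro π π' h
      have h1 : chiL π = chiL π' := congrArg Subtype.val h
      have h2 : ∀ j k, π j < π k ↔ π' j < π' k := by
        intro j k
        rw [chiL_lt, chiL_lt, h1]
      have h3 : StrictMono (fun a => π' (π.symm a)) := by
        intro a b hab
        refine (h2 _ _).1 ?_
        simpa using hab
      have h4 : (fun a => π' (π.symm a)) = id := by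
        refine (StrictMono.range_inj h3 strictMono_id).1 ?_
        rw [Set.range_id, Set.range_eq_univ]
        exact π'.surjective.comp π.symm.surjective
      ext x
      have h5 := congrFun h4 (π x)
      simp only [Equiv.symm_apply_apply, id] at h5
      rw [h5])
  rw [Nat.card_eq_fintype_card, Fintype.card_perm, Fintype.card_fin] at h
  exact h

end Pool.Agent.H54.CT
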