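import Pool.Agent.H54.CT.Cnt
import Pool.Agent.H54.CT.Few
import Pool.Agent.H54.CT.Low

/-!
# The growth rate of the number of CTOs
-/

set_option autoImplicit false

namespace Pool.Agent.H54.CT

theorem rho_poly (L : ℕ) : ∃ C : ℕ, ∀ P : ℕ, 1 ≤ P → rho P L ≤ C * P ^ C := by
  induction L using Nat.strong_induction_on with
  | _ L ih =>
    match L with
    | 0 => exact ⟨0, fun P _ => by simp [rho]⟩
    | 1 => exact ⟨0, fun P _ => by simp [rho]⟩
    | (L + 2) =>
      obtain ⟨C, hC⟩ := ih L (by omega)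
      set B := 2 ^ (L + 2) + 12 * 4 ^ (L + 2) with hB
      refine ⟨4 + C * B + (C + (L + 2)), fun P hP => ?_⟩
      have h1 := hC P hP
      have h2 : 2 ^ (L + 2) + 12 * (P + 3) ^ (L + 2) ≤ B * P ^ (L + 2) := by
        have e1 : (P + 3) ^ (L + 2) ≤ (4 * P) ^ (L + 2) := Nat.pow_le_pow_left (by omega) _
        rw [mul_pow] at e1
        have e2 : 1 ≤ P ^ (L + 2) := Nat.one_le_pow _ _ hP
        calc 2 ^ (L + 2) + 12 * (P + 3) ^ (L + 2)
            ≤ 2 ^ (L + 2) * P ^ (L + 2) + 12 * (4 ^ (L + 2) * P ^ (L + 2)) := by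
              gcongr
              exact Nat.le_mul_of_pos_right _ e2
          _ = B * P ^ (L + 2) := by rw [hB]; ring
      have h3 : rho P (L + 2) = 4 + rho P L * (2 ^ (L + 2) + 12 * (P + 3) ^ (L + 2)) := rfl
      rw [h3]
      have h4 : 1 ≤ P ^ (C + (L + 2)) := Nat.one_le_pow _ _ hP
      have h5 : P ^ (C + (L + 2)) ≤ P ^ (4 + C * B + (C + (L + 2))) :=
        Nat.pow_le_pow_right hP (by omega)
      calc 4 + rho P L * (2 ^ (L + 2) + 12 * (P + 3) ^ (L + 2))
          ≤ 4 * P ^ (C + (L + 2)) + (C * P ^ C) * (B * P ^ (L + 2)) := by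
            gcongr
            omega
        _ = (4 + C * B) * P ^ (C + (L + 2)) := by rw [pow_add]; ring
        _ ≤ (4 + C * B + (C + (L + 2))) * P ^ (4 + C * B + (C + (L + 2))) :=
            Nat.mul_le_mul (Nat.le_add_right _ _) h5

theorem phi_aux (E C D P r : ℕ) (hD : D = C + 3) (hP : 1 ≤ P) (h1 : r ≤ C * P ^ C) (K : ℕ)
    (hK : K = 6 * (2 ^ E + 2 * D ^ E * (2 * C + 2))) :
    6 * (2 ^ E + 2 * (P + r + 2) ^ E * (2 * r + 2)) ≤
      (K + (E * (C + 1) + C)) * P ^ (K + (E * (C + 1) + C)) := by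
  have h0 : 1 ≤ P ^ C := Nat.one_le_pow _ _ hP
  have h2 : P + r + 2 ≤ D * P ^ (C + 1) := by
    have e1 : P ^ C ≤ P ^ (C + 1) := Nat.pow_le_pow_right hP (by omega)
    have e2 : P ≤ P ^ (C + 1) := by
      calc P = P ^ 1 := (pow_one P).symm
        _ ≤ P ^ (C + 1) := Nat.pow_le_pow_right hP (by omega)
    have e3 : 1 ≤ P ^ (C + 1) := Nat.one_le_pow _ _ hP
    calc P + r + 2 ≤ P ^ (C + 1) + C * P ^ (C + 1) + 2 * P ^ (C + 1) := by
          have e5 : r ≤ C * P ^ (C + 1) := h1.trans (Nat.mul_le_mul_left _ e1)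
          omega
      _ = D * P ^ (C + 1) := by rw [hD]; ring
  have h3 : 2 * r + 2 ≤ (2 * C + 2) * P ^ C := by
    calc 2 * r + 2 ≤ 2 * (C * P ^ C) + 2 * P ^ C := by omega
      _ = (2 * C + 2) * P ^ C := by ring
  have e4 : 1 ≤ P ^ (E * (C + 1) + C) := Nat.one_le_pow _ _ hP
  calc 6 * (2 ^ E + 2 * (P + r + 2) ^ E * (2 * r + 2))
      ≤ 6 * (2 ^ E * P ^ (E * (C + 1) + C)
          + 2 * (D * P ^ (C + 1)) ^ E * ((2 * C + 2) * P ^ C)) := by
        gcongr
        exact Nat.le_mul_of_pos_right _ e4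
    _ = K * P ^ (E * (C + 1) + C) := by
        rw [mul_pow, ← pow_mul, pow_add P (E * (C + 1)) C, mul_comm (C + 1) E, hK]
        ring
    _ ≤ _ := Nat.mul_le_mul (Nat.le_add_right _ _) (Nat.pow_le_pow_right hP (Nat.le_add_left _ _))

theorem phi_poly : ∃ C : ℕ, ∀ P : ℕ, 1 ≤ P → Phi P ≤ C * P ^ C := by
  obtain ⟨C, hC⟩ := rho_poly 71
  exact ⟨_, fun P hP => phi_aux 71 C (C + 3) P (rho P 71) rfl hP (hC P hP) _ rfl⟩

attribute [local irreducible] Phi

theorem cto_upper_nat (P n : ℕ) (hn : 1 ≤ n) (hnP : n ≤ 2 ^ P) (m : ℕ) (hm4 : 4 ≤ m)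
    (hm : 4 * (n * (2 * Phi P + 1)) ≤ m) (hnm : n ≤ m) : cto n ≤ m ^ (38 * m) := by
  have h1 := count_bound n m hn hm4 (fun χ hχ => by
    obtain ⟨_, A, hA⟩ := hχ
    obtain ⟨V, hV, hc⟩ := few_vertices P hnP hA
    exact ⟨V, hV, (Nat.mul_le_mul_left 4 hc).trans hm⟩)
  refine h1.trans ?_
  have e1 : 8 * (m ^ 3 + (n * m ^ 4) ^ 3) + 3 ≤ m ^ 18 := by
    have a1 : (n * m ^ 4) ^ 3 ≤ m ^ 15 := by
      calc (n * m ^ 4) ^ 3 ≤ (m * m ^ 4) ^ 3 := by gcongr
        _ = m ^ 15 := by ring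
    have a2 : m ^ 3 ≤ m ^ 15 := Nat.pow_le_pow_right (by omega) (by norm_num)
    have a3 : 64 ≤ m ^ 3 := by
      calc 64 = 4 ^ 3 := by norm_num
        _ ≤ m ^ 3 := Nat.pow_le_pow_left hm4 3
    have a4 : 1 ≤ m ^ 15 := Nat.one_le_pow _ _ (by omega)
    calc 8 * (m ^ 3 + (n * m ^ 4) ^ 3) + 3 ≤ 8 * (m ^ 15 + m ^ 15) + 3 * m ^ 15 := by
          gcongr
          omega
      _ = 19 * m ^ 15 := by ring
      _ ≤ m ^ 3 * m ^ 15 := by gcongr; omega
      _ = m ^ 18 := by ring
  calc n ^ m * (2 * (8 * (m ^ 3 + (n * m ^ 4) ^ 3) + 3) ^ (2 * m))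
      ≤ m ^ m * (m ^ m * (m ^ 18) ^ (2 * m)) := by
        gcongr
        calc 2 ≤ m := by omega
          _ = m ^ 1 := (pow_one m).symm
          _ ≤ m ^ m := Nat.pow_le_pow_right (by omega) (by omega)
    _ = m ^ (38 * m) := by
        rw [← pow_mul, ← pow_add, ← pow_add]
        congr 1
        ring

theorem log_gt_one {n : ℕ} (hn : 3 ≤ n) : 1 < Real.log n := by
  have h1 : Real.exp 1 < 3 := by
    have := Real.exp_one_lt_d9
    linarith
  have h2 : (3 : ℝ) ≤ n := by exact_mod_cast hn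
  rw [Real.lt_log_iff_exp_lt (by linarith)]
  linarith

theorem clog_le {n : ℕ} (hn : 3 ≤ n) : (Nat.clog 2 n : ℝ) ≤ 3 * Real.log n := by
  have h0 : 1 < n := by omega
  have h1 : 2 ^ (Nat.clog 2 n).pred < n := Nat.pow_pred_clog_lt_self (by norm_num) h0
  have hp : 0 < Nat.clog 2 n := Nat.clog_pos (by norm_num) (by omega)
  have h2 : (2 : ℝ) ^ (Nat.clog 2 n).pred < n := by exact_mod_cast h1
  have h3 := Real.log_lt_log (by positivity) h2
  rw [Real.log_pow] at h3
  have h4 : ((Nat.clog 2 n).pred : ℝ) = (Nat.clog 2 n : ℝ) - 1 := by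
    rw [Nat.pred_eq_sub_one, Nat.cast_sub hp]
    simp
  rw [h4] at h3
  have h5 := Real.log_two_gt_d9
  have h6 := log_gt_one hn
  nlinarith

theorem cto_upper : ∃ K : ℕ, ∀ n : ℕ, 3 ≤ n →
    (cto n : ℝ) ≤ Real.exp (K * n * Real.log n ^ K) := by
  obtain ⟨C, hC⟩ := phi_poly
  -- m ≤ A n L^A
  set A := 12 * (C + 1) * 3 ^ C + C with hA
  refine ⟨38 * A * (2 * A + 1), fun n hn => ?_⟩
  set P := Nat.clog 2 n with hP
  have hP1 : 1 ≤ P := Nat.clog_pos (by norm_num) (by omega)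
  have hnP : n ≤ 2 ^ P := Nat.le_pow_clog (by norm_num) n
  have hL := log_gt_one hn
  set L := Real.log n with hLdef
  set m := 4 * (n * (2 * Phi P + 1)) with hm
  have hm4 : 4 ≤ m := by
    rw [hm]
    have : 1 ≤ n * (2 * Phi P + 1) := Nat.one_le_iff_ne_zero.2 (by positivity)
    omega
  have hnm : n ≤ m := by
    rw [hm]
    calc n = n * 1 := (mul_one n).symm
      _ ≤ n * (2 * Phi P + 1) := Nat.mul_le_mul_left _ (by omega)
      _ ≤ 4 * (n * (2 * Phi P + 1)) := Nat.le_mul_of_pos_left _ (by norm_num)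
  have h1 := cto_upper_nat P n (by omega) hnP m hm4 le_rfl hnm
  have h2 : (cto n : ℝ) ≤ (m : ℝ) ^ (38 * m) := by exact_mod_cast h1
  have hn0 : (0 : ℝ) < n := by
    have : 0 < n := by omega
    exact_mod_cast this
  -- bound for m
  have hPL : (P : ℝ) ≤ 3 * L := clog_le hn
  have hmA : (m : ℝ) ≤ A * n * L ^ A := by
    have b1 : (Phi P : ℝ) ≤ C * (P : ℝ) ^ C := by exact_mod_cast hC P hP1
    have b2 : (P : ℝ) ^ C ≤ 3 ^ C * L ^ C := by
      rw [← mul_pow]
      exact pow_le_pow_left₀ (Nat.cast_nonneg _) hPL C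
    have b3 : (1 : ℝ) ≤ 3 ^ C * L ^ C := by
      have : (1 : ℝ) ≤ (3 * L) ^ C := one_le_pow₀ (by linarith)
      rwa [mul_pow] at this
    have b4 : L ^ C ≤ L ^ A := pow_le_pow_right₀ hL.le (by rw [hA]; omega)
    have b5 : (12 * (C + 1) * 3 ^ C : ℝ) ≤ A := by
      have : 12 * (C + 1) * 3 ^ C ≤ A := by rw [hA]; omega
      exact_mod_cast this
    have b6 : (m : ℝ) = 4 * (n * (2 * Phi P + 1)) := by rw [hm]; push_cast; ring
    have b7 : (2 * Phi P + 1 : ℝ) ≤ 3 * (C + 1) * (3 ^ C * L ^ C) := by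
      have : (C : ℝ) * (P : ℝ) ^ C ≤ C * (3 ^ C * L ^ C) := by gcongr
      have hc0 : (0 : ℝ) ≤ C := Nat.cast_nonneg _
      nlinarith
    rw [b6]
    calc 4 * ((n : ℝ) * (2 * Phi P + 1)) ≤ 4 * (n * (3 * (C + 1) * (3 ^ C * L ^ C))) := by
          gcongr
      _ = (12 * (C + 1) * 3 ^ C) * n * L ^ C := by ring
      _ ≤ A * n * L ^ A := by gcongr
  have hm0 : (0 : ℝ) < m := by
    have : 0 < m := by omega
    exact_mod_cast this
  have hA1 : 1 ≤ A := by
    rw [hA]
    have : 1 ≤ 12 * (C + 1) * 3 ^ C := Nat.one_le_iff_ne_zero.2 (by positivity)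
    omega
  have hA1' : (1 : ℝ) ≤ A := by exact_mod_cast hA1
  have hlogm : Real.log m ≤ (2 * A + 1) * L := by
    have c1 : Real.log m ≤ Real.log (A * n * L ^ A) := Real.log_le_log hm0 hmA
    have c2 : Real.log (A * n * L ^ A) = Real.log A + L + A * Real.log L := by
      rw [Real.log_mul (by positivity) (by positivity), Real.log_mul (by positivity) (by positivity),
        Real.log_pow]
    have c3 : Real.log A ≤ A := (Real.log_le_sub_one_of_pos (by linarith)).trans (by linarith)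
    have c4 : Real.log L ≤ L := (Real.log_le_sub_one_of_pos (by linarith)).trans (by linarith)
    have c5 : (A : ℝ) * Real.log L ≤ A * L := by gcongr
    have c6 : (A : ℝ) ≤ A * L := le_mul_of_one_le_right (by linarith) hL.le
    linarith
  refine h2.trans ?_
  rw [← Real.exp_log hm0, ← Real.exp_nat_mul]
  apply Real.exp_le_exp.2
  have hKA : A + 1 ≤ 38 * A * (2 * A + 1) := by nlinarith
  have hpow : L ^ (A + 1) ≤ L ^ (38 * A * (2 * A + 1)) := pow_le_pow_right₀ hL.le hKA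
  calc ((38 * m : ℕ) : ℝ) * Real.log m ≤ (38 * (A * n * L ^ A)) * ((2 * A + 1) * L) := by
        push_cast
        have : 0 ≤ Real.log m := Real.log_nonneg (by exact_mod_cast (by omega : 1 ≤ m))
        gcongr
    _ = (38 * A * (2 * A + 1)) * n * L ^ (A + 1) := by ring
    _ ≤ ((38 * A * (2 * A + 1) : ℕ) : ℝ) * n * L ^ (38 * A * (2 * A + 1)) := by
        push_cast
        gcongr

theorem two_pow_le_fact (N : ℕ) (hN : 1 ≤ N) : 2 ^ (N - 1) ≤ N.factorial := by
  induction N with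
  | zero => omega
  | succ N ih =>
    rcases Nat.eq_zero_or_pos N with h | h
    · subst h; simp
    · have h1 := ih h
      rw [Nat.factorial_succ]
      have h2 : 2 ^ (N + 1 - 1) = 2 * 2 ^ (N - 1) := by
        obtain ⟨M, rfl⟩ : ∃ M, N = M + 1 := ⟨N - 1, by omega⟩
        simp only [Nat.add_sub_cancel]
        ring
      rw [h2]
      exact Nat.mul_le_mul (by omega) h1

theorem cto_log_lower {n : ℕ} (hn : 4 ≤ n) : (n : ℝ) / 4 ≤ Real.log (cto n) := by
  obtain ⟨N, rfl⟩ : ∃ N, n = N + 1 := ⟨n - 1, by omega⟩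
  have h1 := cto_lower N
  have h2 := two_pow_le_fact N (by omega)
  have h3 : ((2 : ℝ)) ^ (N - 1) ≤ cto (N + 1) := by exact_mod_cast h2.trans h1
  have h4 := Real.log_le_log (by positivity) h3
  rw [Real.log_pow] at h4
  have h5 : ((N - 1 : ℕ) : ℝ) = N - 1 := by
    rw [Nat.cast_sub (by omega)]; simp
  rw [h5] at h4
  have h6 := Real.log_two_gt_d9
  have h7 : (3 : ℝ) ≤ N := by exact_mod_cast (by omega : 3 ≤ N)
  push_cast
  nlinarith

theorem cto_growth : Filter.Tendsto (fun n : ℕ => Real.log (Real.log (cto n)) / Real.log n)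
    Filter.atTop (nhds 1) := by
  obtain ⟨K, hK⟩ := cto_upper
  have hlog : Filter.Tendsto (fun n : ℕ => Real.log (n : ℝ)) Filter.atTop Filter.atTop :=
    Real.tendsto_log_atTop.comp tendsto_natCast_atTop_atTop
  have hll : Filter.Tendsto (fun n : ℕ => Real.log (Real.log (n : ℝ)) / Real.log (n : ℝ))
      Filter.atTop (nhds 0) := by
    have h := (Real.isLittleO_log_id_atTop.tendsto_div_nhds_zero).comp hlog
    exact h
  have hc : ∀ c : ℝ, Filter.Tendsto (fun n : ℕ => c / Real.log (n : ℝ)) Filter.atTop (nhds 0) :=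
    fun c => hlog.const_div_atTop c
  have hlow : Filter.Tendsto (fun n : ℕ => 1 - Real.log 4 / Real.log (n : ℝ))
      Filter.atTop (nhds 1) := by
    have h := (tendsto_const_nhds (x := (1 : ℝ))).sub (hc (Real.log 4))
    simpa using h
  have hup : Filter.Tendsto (fun n : ℕ => Real.log (K + 1) / Real.log (n : ℝ) + 1 +
      K * (Real.log (Real.log (n : ℝ)) / Real.log (n : ℝ))) Filter.atTop (nhds 1) := by
    have h := ((hc (Real.log (K + 1))).add_const 1).add (hll.const_mul (K : ℝ))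
    simpa using h
  refine tendsto_of_tendsto_of_tendsto_of_le_of_le' hlow hup ?_ ?_
  · filter_upwards [Filter.eventually_ge_atTop 4] with n hn
    have h1 := cto_log_lower hn
    have hL := log_gt_one (n := n) (by omega)
    have hn0 : (4 : ℝ) ≤ n := by exact_mod_cast hn
    have h2 := Real.log_le_log (by linarith : (0 : ℝ) < n / 4) h1
    rw [Real.log_div (by linarith) (by norm_num)] at h2
    rw [le_div_iff₀ (by linarith), sub_mul, one_mul, div_mul_cancel₀ _ (by linarith)]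
    exact h2
  · filter_upwards [Filter.eventually_ge_atTop 4] with n hn
    have h1 := cto_log_lower hn
    have hL := log_gt_one (n := n) (by omega)
    have hn0 : (4 : ℝ) ≤ n := by exact_mod_cast hn
    have h3 := hK n (by omega)
    have hpos : 0 < Real.log (cto n) := by linarith
    have hcpos : (0 : ℝ) < cto n := by
      rcases (Nat.cast_nonneg (α := ℝ) (cto n)).lt_or_eq with h | h
      · exact h
      · rw [← h, Real.log_zero] at hpos
        exact absurd hpos (lt_irrefl _)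
    have h4 : Real.log (cto n) ≤ K * n * Real.log n ^ K := by
      have := Real.log_le_log hcpos h3
      rwa [Real.log_exp] at this
    have h5 : (K : ℝ) * n * Real.log n ^ K ≤ (K + 1) * n * Real.log n ^ K := by
      have : (0 : ℝ) ≤ Real.log n ^ K := by positivity
      gcongr
      linarith
    have h6 := Real.log_le_log hpos (h4.trans h5)
    have hLK : (0 : ℝ) < Real.log n ^ K := by positivity
    rw [Real.log_mul (by positivity) hLK.ne', Real.log_mul (by positivity) (by linarith),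
      Real.log_pow] at h6
    rw [div_le_iff₀ (by linarith)]
    have h7 : (Real.log (K + 1) / Real.log (n : ℝ) + 1 +
      K * (Real.log (Real.log (n : ℝ)) / Real.log (n : ℝ))) * Real.log n =
        Real.log (K + 1) + Real.log n + K * Real.log (Real.log n) := by
      field_simp
    rw [h7]
    exact h6

end Pool.Agent.H54.CT
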