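import Pool.Agent.H54.CT.Defs

/-!
# Relations without alternations of three letters: simple lemmas

JOB CT-MATA.

`alt_mono`: if every pair `(a, c)` of `R'` is sent to a pair `(a, g a c)` of `R`, strictly increasing
in `c`, then alternations of `R'` give alternations of `R`: `s' k = g (y k) (s k)` (for `k < L`).
`alt_le`: drop the last elements (the same `y`, `s`).
`alt_append`: `R' ⊆ R` and every letter of `R'` has a pair in `R` beyond all columns of `R'`: put
`s' k = s k` for `k < L` and `s' L = c'` for the letter `y L` (a letter of `R'` as all `y k` occur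
in `R'`).  For `k + 1 = L` use that `(y k, s k) ∈ R'`.
`alt_prepend`: every letter of `R'` has a pair in `R` before all columns of `R'`: `y' k = y (k + 2)`,
so `y' 0 = y 2` and `y' (k + 1) = y (k + 3) = y k`, `s' 0 = c'` for the letter `y 2`,
`s' (k + 1) = s k`.
-/

set_option autoImplicit false

namespace Pool.Agent.H54.CT

variable {α : Type*} [DecidableEq α]

theorem alt_mono {L : ℕ} {R R' : Finset (α × ℕ)} (g : α → ℕ → ℕ)
    (h1 : ∀ a c, (a, c) ∈ R' → (a, g a c) ∈ R)
    (h2 : ∀ a c b d, (a, c) ∈ R' → (b, d) ∈ R' → c < d → g a c < g b d) (h : Alt L R') :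
    Alt L R := by
  obtain ⟨y, s, hper, h01, h12, h02, hocc, hmem, hlt⟩ := h
  refine ⟨y, fun k => g (y k) (s k), hper, h01, h12, h02, ?_, ?_, ?_⟩
  · intro k
    obtain ⟨c, hc⟩ := hocc k
    exact ⟨_, h1 _ _ hc⟩
  · intro k hk
    exact h1 _ _ (hmem k hk)
  · intro k hk
    exact h2 _ _ _ _ (hmem k (by omega)) (hmem (k + 1) hk) (hlt k hk)

theorem alt_le {L M : ℕ} (hLM : L ≤ M) {R : Finset (α × ℕ)} (h : Alt M R) : Alt L R := by
  obtain ⟨y, s, hper, h01, h12, h02, hocc, hmem, hlt⟩ := h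
  exact ⟨y, s, hper, h01, h12, h02, hocc, fun k hk => hmem k (by omega),
    fun k hk => hlt k (by omega)⟩

theorem alt_append {L : ℕ} {R R' : Finset (α × ℕ)} (hR : R' ⊆ R)
    (h1 : ∀ a c, (a, c) ∈ R' → ∃ c', (a, c') ∈ R ∧ ∀ b d, (b, d) ∈ R' → d < c') (h : Alt L R') :
    Alt (L + 1) R := by
  obtain ⟨y, s, hper, h01, h12, h02, hocc, hmem, hlt⟩ := h
  obtain ⟨c, hc⟩ := hocc L
  obtain ⟨c', hc', hgt⟩ := h1 _ _ hc
  refine ⟨y, fun k => if k < L then s k else c', hper, h01, h12, h02, ?_, ?_, ?_⟩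
  · intro k
    obtain ⟨c, hc⟩ := hocc k
    exact ⟨c, hR hc⟩
  · intro k hk
    by_cases hkL : k < L
    · simp only [if_pos hkL]
      exact hR (hmem k hkL)
    · simp only [if_neg hkL]
      have : k = L := by omega
      rw [this]
      exact hc'
  · intro k hk
    have hkL : k < L := by omega
    simp only [if_pos hkL]
    by_cases hk1 : k + 1 < L
    · simp only [if_pos hk1]
      exact hlt k hk1
    · simp only [if_neg hk1]
      exact hgt _ _ (hmem k hkL)

theorem alt_prepend {L : ℕ} {R R' : Finset (α × ℕ)} (hR : R' ⊆ R)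
    (h1 : ∀ a c, (a, c) ∈ R' → ∃ c', (a, c') ∈ R ∧ ∀ b d, (b, d) ∈ R' → c' < d) (h : Alt L R') :
    Alt (L + 1) R := by
  obtain ⟨y, s, hper, h01, h12, h02, hocc, hmem, hlt⟩ := h
  obtain ⟨c, hc⟩ := hocc 2
  obtain ⟨c', hc', hgt⟩ := h1 _ _ hc
  have e3 : y 3 = y 0 := hper 0
  have e4 : y 4 = y 1 := hper 1
  refine ⟨fun k => y (k + 2), fun k => if k = 0 then c' else s (k - 1), ?_, ?_, ?_, ?_, ?_, ?_, ?_⟩
  · intro k
    exact hper (k + 2)
  · show y 2 ≠ y 3
    rw [e3]
    exact h02.symm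
  · show y 3 ≠ y 4
    rw [e3, e4]
    exact h01
  · show y 2 ≠ y 4
    rw [e4]
    exact h12.symm
  · intro k
    obtain ⟨c, hc⟩ := hocc (k + 2)
    exact ⟨c, hR hc⟩
  · intro k hk
    rcases k with _ | k
    · simp only [if_pos rfl]
      exact hc'
    · have hk0 : k + 1 ≠ 0 := by omega
      simp only [if_neg hk0, Nat.add_sub_cancel]
      have e : y (k + 1 + 2) = y k := hper k
      rw [e]
      exact hR (hmem k (by omega))
  · intro k hk
    rcases k with _ | k
    · have h10 : 0 + 1 ≠ 0 := by omega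
      simp only [if_pos rfl, if_neg h10]
      exact hgt _ _ (hmem 0 (by omega))
    · have hk0 : k + 1 ≠ 0 := by omega
      have hk1 : k + 1 + 1 ≠ 0 := by omega
      simp only [if_neg hk0, if_neg hk1, Nat.add_sub_cancel]
      exact hlt k (by omega)

end Pool.Agent.H54.CT
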