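import Pool.Agent.H54.CT.Mat

/-!
# Relations without alternations of three letters: the bound

JOB CT-MATB.

`alt_bound`: induction on `L` and `p` (for all `R`).
* `L = 0`: without three distinct letters occurring the number of letters is `≤ 2`
  (`Finset.two_lt_card` gives three distinct elements of the image; define
  `y k = ![a, b, c] (k mod 3)`), and `R ⊆ (R.image fst) ×ˢ range (2^p)`.
* `p = 0`: all columns are `0`, so `R.card = (R.image Prod.fst).card` (`Prod.fst` is injective on
  `R`).
* `(L+1, p+1)`: let `A₁` (`A₂`, `A₃`) be the letters having pairs only in columns `< 2^p` (only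
  `≥ 2^p`, both).  `R` is the disjoint union of `R₁` (letter in `A₁`), `R₂`, and the left part `R₃l`
  and right part `R₃r` of the pairs with letter in `A₃`.  `R₁` and `R₂` (shifted by `2^p`) have no
  `Alt (L+1)` (`alt_mono`); `R₃l` has no `Alt L` by `alt_append`, `R₃r` (shifted) no `Alt L` by
  `alt_prepend` and `alt_mono`.  With `n₁ + n₂ + n₃ = n`:
  `|R| ≤ 2^(L+1) (n₁ + n₂) + 2·2 (p+1)^(L+1) 2^p + 2 (2^L n₃ + 2 (p+1)^L 2^p)`, and
  `(p+1)^(L+1) + (p+1)^L = (p+1)^L (p+2) ≤ (p+2)^(L+1)`.
-/

set_option autoImplicit false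

namespace Pool.Agent.H54.CT

variable {α : Type*} [DecidableEq α]

theorem alt_zero_card (R : Finset (α × ℕ)) (h : ¬ Alt 0 R) : (R.image Prod.fst).card ≤ 2 := by
  by_contra hc
  push Not at hc
  obtain ⟨a, ha, b, hb, c, hcc, hab, hac, hbc⟩ := Finset.two_lt_card.mp hc
  apply h
  have e0 : ∀ k : ℕ, k % 3 = 0 ∨ k % 3 = 1 ∨ k % 3 = 2 := by intro k; omega
  refine ⟨fun k => if k % 3 = 0 then a else if k % 3 = 1 then b else c, fun _ => 0,
    ?_, ?_, ?_, ?_, ?_, ?_, ?_⟩
  · intro k
    have : (k + 3) % 3 = k % 3 := by omega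
    simp only [this]
  · simpa using hab
  · simpa using hbc
  · simpa using hac
  · intro k
    rw [Finset.mem_image] at ha hb hcc
    obtain ⟨⟨a', ca⟩, ha1, ha2⟩ := ha
    obtain ⟨⟨b', cb⟩, hb1, hb2⟩ := hb
    obtain ⟨⟨c', cc⟩, hc1, hc2⟩ := hcc
    simp only at ha2 hb2 hc2
    subst ha2 hb2 hc2
    rcases e0 k with h | h | h
    · exact ⟨ca, by simpa [h] using ha1⟩
    · exact ⟨cb, by simpa [h] using hb1⟩
    · exact ⟨cc, by simpa [h] using hc1⟩
  · intro k hk
    omega
  · intro k hk
    omega

/-- shift of the columns by `T` -/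
def shiftR (T : ℕ) (R : Finset (α × ℕ)) : Finset (α × ℕ) := R.image fun r => (r.1, r.2 - T)

theorem mem_shiftR {T : ℕ} {R : Finset (α × ℕ)} (hT : ∀ r ∈ R, T ≤ r.2) {a : α} {c : ℕ} :
    (a, c) ∈ shiftR T R ↔ (a, c + T) ∈ R := by
  unfold shiftR
  rw [Finset.mem_image]
  constructor
  · rintro ⟨⟨b, d⟩, h1, h2⟩
    simp only [Prod.mk.injEq] at h2
    obtain ⟨rfl, rfl⟩ := h2
    have := hT _ h1
    simp only at this
    rw [Nat.sub_add_cancel this]
    exact h1
  · intro h
    exact ⟨(a, c + T), h, by simp⟩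

theorem card_shiftR {T : ℕ} {R : Finset (α × ℕ)} (hT : ∀ r ∈ R, T ≤ r.2) :
    (shiftR T R).card = R.card := by
  unfold shiftR
  apply Finset.card_image_of_injOn
  rintro ⟨a, c⟩ h1 ⟨b, d⟩ h2 h
  simp only [Prod.mk.injEq] at h
  have e1 := hT _ (Finset.mem_coe.mp h1)
  have e2 := hT _ (Finset.mem_coe.mp h2)
  simp only at e1 e2
  obtain ⟨h3, h4⟩ := h
  ext
  · exact h3
  · simp only
    omega

theorem image_shiftR {T : ℕ} {R : Finset (α × ℕ)} :
    (shiftR T R).image Prod.fst = R.image Prod.fst := by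
  unfold shiftR
  rw [Finset.image_image]
  rfl

theorem shiftR_lt {T M : ℕ} {R : Finset (α × ℕ)} (hT : ∀ r ∈ R, T ≤ r.2)
    (hM : ∀ r ∈ R, r.2 < M + T) : ∀ r ∈ shiftR T R, r.2 < M := by
  rintro ⟨a, c⟩ h
  rw [mem_shiftR hT] at h
  have := hM _ h
  simp only at this ⊢
  omega

theorem alt_of_shiftR {L T : ℕ} {R : Finset (α × ℕ)} (hT : ∀ r ∈ R, T ≤ r.2)
    (h : Alt L (shiftR T R)) : Alt L R := by
  refine alt_mono (fun _ c => c + T) ?_ ?_ h
  · intro a c hac
    exact (mem_shiftR hT).mp hac
  · intro a c b d _ _ hcd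
    exact Nat.add_lt_add_right hcd T

theorem alt_subset {L : ℕ} {R R' : Finset (α × ℕ)} (hs : R' ⊆ R) (h : Alt L R') : Alt L R := by
  refine alt_mono (fun _ c => c) ?_ ?_ h
  · intro a c hac
    exact hs hac
  · intro a c b d _ _ hcd
    exact hcd

theorem alt_bound (L p : ℕ) (R : Finset (α × ℕ)) (hR : ∀ r ∈ R, r.2 < 2 ^ p) (h : ¬ Alt L R) :
    R.card ≤ 2 ^ L * (R.image Prod.fst).card + 2 * (p + 1) ^ L * 2 ^ p := by
  induction L generalizing p R with
  | zero =>
    have h2 := alt_zero_card R h
    have hsub : R ⊆ (R.image Prod.fst) ×ˢ Finset.range (2 ^ p) := by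
      intro r hr
      rw [Finset.mem_product]
      exact ⟨Finset.mem_image_of_mem _ hr, Finset.mem_range.mpr (hR r hr)⟩
    have h3 := Finset.card_le_card hsub
    rw [Finset.card_product, Finset.card_range] at h3
    have h4 : (R.image Prod.fst).card * 2 ^ p ≤ 2 * 2 ^ p := Nat.mul_le_mul_right _ h2
    simp only [pow_zero, one_mul, mul_one]
    omega
  | succ L ihL =>
    induction p generalizing R with
    | zero =>
      have h1 : R.card = (R.image Prod.fst).card := by
        symm
        apply Finset.card_image_of_injOn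
        rintro ⟨a, c⟩ h1 ⟨b, d⟩ h2 hab
        have e1 := hR _ (Finset.mem_coe.mp h1)
        have e2 := hR _ (Finset.mem_coe.mp h2)
        simp only [pow_zero] at e1 e2
        simp only at hab
        ext
        · exact hab
        · simp only
          omega
      rw [← h1]
      have : 1 ≤ 2 ^ (L + 1) := Nat.one_le_two_pow
      nlinarith [Nat.zero_le (2 * (0 + 1) ^ (L + 1) * 2 ^ 0), Nat.zero_le R.card]
    | succ p ihp =>
      classical
      set T := 2 ^ p with hTdef
      have hRT : ∀ r ∈ R, r.2 < T + T := by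
        intro r hr
        have := hR r hr
        rw [pow_succ] at this
        omega
      set hasL : α → Prop := fun a => ∃ c, (a, c) ∈ R ∧ c < T with hL
      set hasR : α → Prop := fun a => ∃ c, (a, c) ∈ R ∧ T ≤ c with hRr
      set R1 := R.filter (fun r => ¬ hasR r.1) with hR1
      set R2 := R.filter (fun r => ¬ hasL r.1) with hR2
      set R3 := R.filter (fun r => (hasL r.1 ∧ hasR r.1) ∧ r.2 < T) with hR3
      set R4 := R.filter (fun r => (hasL r.1 ∧ hasR r.1) ∧ T ≤ r.2) with hR4
      have hcov : R ⊆ (R1 ∪ R2) ∪ (R3 ∪ R4) := by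
        intro r hr
        simp only [hR1, hR2, hR3, hR4, Finset.mem_union, Finset.mem_filter]
        by_cases a1 : hasL r.1
        · by_cases a2 : hasR r.1
          · rcases Nat.lt_or_ge r.2 T with a3 | a3
            · exact Or.inr (Or.inl ⟨hr, ⟨a1, a2⟩, a3⟩)
            · exact Or.inr (Or.inr ⟨hr, ⟨a1, a2⟩, a3⟩)
          · exact Or.inl (Or.inl ⟨hr, a2⟩)
        · exact Or.inl (Or.inr ⟨hr, a1⟩)
      have hcard : R.card ≤ (R1.card + R2.card) + (R3.card + R4.card) :=
        (Finset.card_le_card hcov).trans ((Finset.card_union_le _ _).trans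
          (add_le_add (Finset.card_union_le _ _) (Finset.card_union_le _ _)))
      -- columns
      have c1 : ∀ r ∈ R1, r.2 < T := by
        intro r hr
        rw [hR1, Finset.mem_filter] at hr
        by_contra hc
        push Not at hc
        exact hr.2 ⟨r.2, hr.1, hc⟩
      have c2 : ∀ r ∈ R2, T ≤ r.2 := by
        intro r hr
        rw [hR2, Finset.mem_filter] at hr
        by_contra hc
        push Not at hc
        exact hr.2 ⟨r.2, hr.1, hc⟩
      have c3 : ∀ r ∈ R3, r.2 < T := by
        intro r hr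
        rw [hR3, Finset.mem_filter] at hr
        exact hr.2.2
      have c4 : ∀ r ∈ R4, T ≤ r.2 := by
        intro r hr
        rw [hR4, Finset.mem_filter] at hr
        exact hr.2.2
      have s1 : R1 ⊆ R := Finset.filter_subset _ _
      have s2 : R2 ⊆ R := Finset.filter_subset _ _
      have s3 : R3 ⊆ R := Finset.filter_subset _ _
      have s4 : R4 ⊆ R := Finset.filter_subset _ _
      -- the four bounds
      have b1 := ihp R1 c1 (fun hA => h (alt_subset s1 hA))
      have b2 := ihp (shiftR T R2) (shiftR_lt c2 (fun r hr => hRT r (s2 hr)))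
        (fun hA => h (alt_subset s2 (alt_of_shiftR c2 hA)))
      rw [card_shiftR c2, image_shiftR] at b2
      have b3 := ihL p R3 c3 (fun hA => h (alt_append s3 (by
        intro a c hac
        rw [hR3, Finset.mem_filter] at hac
        obtain ⟨c', hc', hT⟩ := hac.2.1.2
        exact ⟨c', hc', fun b d hbd => lt_of_lt_of_le (c3 _ hbd) hT⟩) hA))
      have b4 := ihL p (shiftR T R4) (shiftR_lt c4 (fun r hr => hRT r (s4 hr)))
        (fun hA => h (alt_prepend s4 (by
          intro a c hac
          rw [hR4, Finset.mem_filter] at hac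
          obtain ⟨c', hc', hT⟩ := hac.2.1.1
          exact ⟨c', hc', fun b d hbd => lt_of_lt_of_le hT (c4 _ hbd)⟩) (alt_of_shiftR c4 hA)))
      rw [card_shiftR c4, image_shiftR] at b4
      -- the numbers of letters
      have i34 : R4.image Prod.fst = R3.image Prod.fst := by
        ext a
        simp only [hR3, hR4, Finset.mem_image, Finset.mem_filter]
        constructor
        · rintro ⟨r, ⟨hr, hr2, hr3⟩, rfl⟩
          obtain ⟨c, hc, hcT⟩ := hr2.1
          exact ⟨(r.1, c), ⟨hc, hr2, hcT⟩, rfl⟩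
        · rintro ⟨r, ⟨hr, hr2, hr3⟩, rfl⟩
          obtain ⟨c, hc, hcT⟩ := hr2.2
          exact ⟨(r.1, c), ⟨hc, hr2, hcT⟩, rfl⟩
      rw [i34] at b4
      have hn : (R1.image Prod.fst).card + (R2.image Prod.fst).card + (R3.image Prod.fst).card ≤
          (R.image Prod.fst).card := by
        have d12 : Disjoint (R1.image Prod.fst) (R2.image Prod.fst) := by
          rw [Finset.disjoint_left]
          intro a ha hb
          rw [Finset.mem_image] at ha hb
          obtain ⟨r, hr, rfl⟩ := ha
          obtain ⟨r', hr', hrr⟩ := hb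
          rw [hR1, Finset.mem_filter] at hr
          have hh := hr'
          rw [hR2, Finset.mem_filter] at hr'
          apply hr.2
          rw [← hrr]
          exact ⟨r'.2, hr'.1, c2 _ hh⟩
        have d3 : Disjoint (R1.image Prod.fst ∪ R2.image Prod.fst) (R3.image Prod.fst) := by
          rw [Finset.disjoint_left]
          intro a ha hb
          rw [Finset.mem_image] at hb
          obtain ⟨r, hr, rfl⟩ := hb
          rw [hR3, Finset.mem_filter] at hr
          rw [Finset.mem_union, Finset.mem_image, Finset.mem_image] at ha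
          rcases ha with ⟨r', hr', hrr⟩ | ⟨r', hr', hrr⟩
          · rw [hR1, Finset.mem_filter] at hr'
            rw [← hrr] at hr
            exact hr'.2 hr.2.1.2
          · rw [hR2, Finset.mem_filter] at hr'
            rw [← hrr] at hr
            exact hr'.2 hr.2.1.1
        rw [← Finset.card_union_of_disjoint d12, ← Finset.card_union_of_disjoint d3]
        apply Finset.card_le_card
        exact Finset.union_subset (Finset.union_subset (Finset.image_subset_image s1)
          (Finset.image_subset_image s2)) (Finset.image_subset_image s3)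
      generalize (R1.image Prod.fst).card = n1 at *
      generalize (R2.image Prod.fst).card = n2 at *
      generalize (R3.image Prod.fst).card = n3 at *
      generalize (R.image Prod.fst).card = n at *
      have hpow : (p + 1) ^ (L + 1) + (p + 1) ^ L ≤ (p + 2) ^ (L + 1) := by
        have e1 : (p + 1) ^ (L + 1) + (p + 1) ^ L = (p + 1) ^ L * (p + 2) := by ring
        rw [e1, pow_succ]
        exact Nat.mul_le_mul_right _ (Nat.pow_le_pow_left (by omega) L)
      have e2 : 2 ^ (L + 1) = 2 * 2 ^ L := by ring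
      have e3 : (2 : ℕ) ^ (p + 1) = 2 * T := by rw [hTdef]; ring
      have hmul : 2 ^ (L + 1) * (n1 + n2 + n3) ≤ 2 ^ (L + 1) * n := Nat.mul_le_mul_left _ hn
      have hmul2 : ((p + 1) ^ (L + 1) + (p + 1) ^ L) * (4 * T) ≤ (p + 2) ^ (L + 1) * (4 * T) :=
        Nat.mul_le_mul_right _ hpow
      rw [e3]
      have goal1 : (R1.card + R2.card) + (R3.card + R4.card) ≤
          2 ^ (L + 1) * (n1 + n2 + n3) + ((p + 1) ^ (L + 1) + (p + 1) ^ L) * (4 * T) := by
        have b3' : R3.card ≤ 2 ^ L * n3 + 2 * (p + 1) ^ L * T := b3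
        have b4' : R4.card ≤ 2 ^ L * n3 + 2 * (p + 1) ^ L * T := b4
        have : 2 ^ (L + 1) * (n1 + n2 + n3) + ((p + 1) ^ (L + 1) + (p + 1) ^ L) * (4 * T) =
          (2 ^ (L + 1) * n1 + 2 * (p + 1) ^ (L + 1) * T) +
          (2 ^ (L + 1) * n2 + 2 * (p + 1) ^ (L + 1) * T) +
          ((2 ^ L * n3 + 2 * (p + 1) ^ L * T) + (2 ^ L * n3 + 2 * (p + 1) ^ L * T)) := by
          rw [e2]; ring
        rw [this]
        omega
      have e4 : 2 * (p + 1 + 1) ^ (L + 1) * (2 * T) = (p + 2) ^ (L + 1) * (4 * T) := by ring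
      rw [e4]
      omega

end Pool.Agent.H54.CT
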