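import Pool.Agent.H54.CT.Rad

/-!
# Radon points: existence

JOB CT-RADA: `hull_radon`.  Let `S = univ.filter (τ · = i)`, `T = univ.filter (τ · = j)`.  A common point
`z` of the two hulls gives `(0, 1/2) ∈ convexHull` of the set
`{(x k, 1) | k ∈ S} ∪ {(-x k, 0) | k ∈ T}` in `(ℝ × ℝ) × ℝ` (half of each convex combination).
`eq_pos_convex_span_of_mem_convexHull` gives an affinely independent family with positive weights
`w` and sum `1`; affinely independent families in the 3-dimensional space have at most `4` members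
(`AffineIndependent.card_le_finrank_succ`).  So there are a finite set `Q` of at most `4` indices
(distinct members have distinct indices), positive weights `w k` and signs `ε k = 1` (`k ∈ S`),
`-1` (`k ∈ T`) with `∑ ε w x = 0`, `∑ ε w = 0` (second component: `∑_{S} w = 1/2`, total `1`).
General position (`gen`: no three points with distinct indices on a line): `Q.card = 4`.
Indeed in `∑ ε w x = 0`, `∑ ε w = 0` with at most three non-zero terms: one term is impossible; two
terms mean equal points; three terms mean collinear points; use `det3` (with a further index if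
there are less than three: if `Q.card ≤ 2`, then the points of `Q` coincide, and `det3` with any third
index vanishes; if `m ≤ 2` there is no third index: hypothesis `3 ≤ m`).
Enumerate `Q` as `e : Fin 4 → Fin m`.  The dependency with coefficients `al x e` (below) satisfies
`∑ al = 0`, `∑ al • x = 0` (`ring`), and all dependencies of the four points are multiples of it (the
space is one-dimensional because `det3` of three of them is not zero): `ε k w k = λ * al x e k` with
`λ ≠ 0`: e.g. `det3 (x e1) (x e2) (x e3) * (ε w)_0 = …`: from `∑ ε w x = 0`, `∑ ε w = 0` get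
`(εw)_0 * al_1 = (εw)_1 * al_0` etc. by linear combination.  The sign of `λ` is `σ`.
-/

set_option autoImplicit false

namespace Pool.Agent.H54.CT

/-- a dependency with at most four terms and the right signs -/
theorem radA_coef {m n : ℕ} (τ : Fin m → Fin n) (x : Fin m → ℝ × ℝ) (i j : Fin n)
    (hij : i ≠ j) (h : (hull (part τ x i) ∩ hull (part τ x j)).Nonempty) :
    ∃ C : Fin m → ℝ, (∀ k, 0 < C k → τ k = i) ∧ (∀ k, C k < 0 → τ k = j) ∧
      ∑ k, C k = 0 ∧ ∑ k, C k * (x k).1 = 0 ∧ ∑ k, C k * (x k).2 = 0 ∧ (∃ k, 0 < C k) ∧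
      (Finset.univ.filter fun k => C k ≠ 0).card ≤ 4 := by
  classical
  obtain ⟨z, hz1, hz2⟩ := h
  let s : Set ((ℝ × ℝ) × ℝ) := {q | ∃ k, (τ k = i ∧ q = (x k, 1)) ∨ (τ k = j ∧ q = (-x k, 0))}
  have h1 : (z, (1 : ℝ)) ∈ convexHull ℝ s := by
    have hf : hull (part τ x i) ⊆ (fun p : ℝ × ℝ => ((p, (1 : ℝ)) : (ℝ × ℝ) × ℝ)) ⁻¹'
        convexHull ℝ s := by
      refine convexHull_min ?_ ?_
      · intro p hp
        unfold part at hp
        rw [Finset.mem_coe, Finset.mem_image] at hp
        obtain ⟨k, hk, rfl⟩ := hp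
        exact subset_convexHull ℝ s ⟨k, Or.inl ⟨(Finset.mem_filter.1 hk).2, rfl⟩⟩
      · intro p hp q hq a b ha hb hab
        have h2 := (convex_convexHull ℝ s) hp hq ha hb hab
        have h3 : a • ((p, (1 : ℝ)) : (ℝ × ℝ) × ℝ) + b • ((q, (1 : ℝ)) : (ℝ × ℝ) × ℝ) =
            (a • p + b • q, 1) := by
          refine Prod.ext rfl ?_
          show a * 1 + b * 1 = 1
          linarith
        rw [h3] at h2
        exact h2
    exact hf hz1
  have h2 : (-z, (0 : ℝ)) ∈ convexHull ℝ s := by
    have hf : hull (part τ x j) ⊆ (fun p : ℝ × ℝ => ((-p, (0 : ℝ)) : (ℝ × ℝ) × ℝ)) ⁻¹'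
        convexHull ℝ s := by
      refine convexHull_min ?_ ?_
      · intro p hp
        unfold part at hp
        rw [Finset.mem_coe, Finset.mem_image] at hp
        obtain ⟨k, hk, rfl⟩ := hp
        exact subset_convexHull ℝ s ⟨k, Or.inr ⟨(Finset.mem_filter.1 hk).2, rfl⟩⟩
      · intro p hp q hq a b ha hb hab
        have h2 := (convex_convexHull ℝ s) hp hq ha hb hab
        have h3 : a • ((-p, (0 : ℝ)) : (ℝ × ℝ) × ℝ) + b • ((-q, (0 : ℝ)) : (ℝ × ℝ) × ℝ) =
            (-(a • p + b • q), 0) := by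
          refine Prod.ext ?_ ?_
          · show a • (-p) + b • (-q) = -(a • p + b • q)
            rw [smul_neg, smul_neg, neg_add]
          · show a * 0 + b * 0 = 0
            ring
        rw [h3] at h2
        exact h2
    exact hf hz2
  have h3 : (((0 : ℝ × ℝ), (1 / 2 : ℝ)) : (ℝ × ℝ) × ℝ) ∈ convexHull ℝ s := by
    have h4 := (convex_convexHull ℝ s) h1 h2 (a := 1 / 2) (b := 1 / 2) (by norm_num) (by norm_num)
      (by norm_num)
    have h5 : (1 / 2 : ℝ) • ((z, (1 : ℝ)) : (ℝ × ℝ) × ℝ) + (1 / 2 : ℝ) • ((-z, (0 : ℝ)) : (ℝ × ℝ) × ℝ) =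
        (0, 1 / 2) := by
      refine Prod.ext ?_ ?_
      · show (1 / 2 : ℝ) • z + (1 / 2 : ℝ) • (-z) = 0
        rw [smul_neg, add_neg_cancel]
      · show (1 / 2 : ℝ) * 1 + 1 / 2 * 0 = 1 / 2
        norm_num
    rw [h5] at h4
    exact h4
  obtain ⟨ι, _, y, w, hy, hind, hw, hw1, hwy⟩ := eq_pos_convex_span_of_mem_convexHull h3
  have hcard : Fintype.card ι ≤ 4 := by
    have h4 := hind.card_le_finrank_succ
    have h5 : Module.finrank ℝ (vectorSpan ℝ (Set.range y)) ≤ Module.finrank ℝ ((ℝ × ℝ) × ℝ) :=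
      Submodule.finrank_le _
    have h6 : Module.finrank ℝ ((ℝ × ℝ) × ℝ) = 3 := by simp
    omega
  have hch : ∀ a, ∃ k, (τ k = i ∧ y a = (x k, 1)) ∨ (τ k = j ∧ y a = (-x k, 0)) := fun a =>
    hy ⟨a, rfl⟩
  choose κ hκ using hch
  have hκinj : Function.Injective κ := by
    intro a b hab
    apply hind.injective
    rcases hκ a with ⟨h4, h5⟩ | ⟨h4, h5⟩
    · rcases hκ b with ⟨h6, h7⟩ | ⟨h6, h7⟩
      · rw [h5, h7, hab]
      · exact absurd (h4.symm.trans (hab ▸ h6)) hij
    · rcases hκ b with ⟨h6, h7⟩ | ⟨h6, h7⟩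
      · exact absurd (h6.symm.trans (hab ▸ h4)) hij
      · rw [h5, h7, hab]
  let c : ι → ℝ := fun a => if τ (κ a) = i then w a else -w a
  let C : Fin m → ℝ := fun k => ∑ a, if κ a = k then c a else 0
  have hsum : ∀ g : Fin m → ℝ, ∑ k, C k * g k = ∑ a, c a * g (κ a) := by
    intro g
    simp only [C, Finset.sum_mul]
    rw [Finset.sum_comm]
    refine Finset.sum_congr rfl fun a _ => ?_
    rw [Finset.sum_eq_single (κ a)]
    · rw [if_pos rfl]
    · intro k _ hk
      rw [if_neg (Ne.symm hk), zero_mul]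
    · intro hk
      exact absurd (Finset.mem_univ _) hk
  have hCκ : ∀ a, C (κ a) = c a := by
    intro a
    simp only [C]
    rw [Finset.sum_eq_single a]
    · rw [if_pos rfl]
    · intro b _ hb
      rw [if_neg (fun h => hb (hκinj h))]
    · intro ha
      exact absurd (Finset.mem_univ _) ha
  have hC0 : ∀ k, C k ≠ 0 → ∃ a, κ a = k := by
    intro k hk
    by_contra hcon
    push Not at hcon
    apply hk
    simp only [C]
    exact Finset.sum_eq_zero fun a _ => if_neg (hcon a)
  have hcomp1 : ∑ a, w a * (y a).1.1 = 0 := by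
    have h4 := congrArg (fun q : (ℝ × ℝ) × ℝ => q.1.1) hwy
    simpa [Prod.fst_sum] using h4
  have hcomp2 : ∑ a, w a * (y a).1.2 = 0 := by
    have h4 := congrArg (fun q : (ℝ × ℝ) × ℝ => q.1.2) hwy
    simpa [Prod.fst_sum, Prod.snd_sum] using h4
  have hcomp3 : ∑ a, w a * (y a).2 = 1 / 2 := by
    have h4 := congrArg (fun q : (ℝ × ℝ) × ℝ => q.2) hwy
    simpa [Prod.snd_sum] using h4
  have hyi : ∀ a, τ (κ a) = i → y a = (x (κ a), 1) := by
    intro a ha
    rcases hκ a with ⟨_, h5⟩ | ⟨h4, _⟩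
    · exact h5
    · exact absurd (ha.symm.trans h4) hij
  have hyj : ∀ a, τ (κ a) ≠ i → τ (κ a) = j ∧ y a = (-x (κ a), 0) := by
    intro a ha
    rcases hκ a with ⟨h4, _⟩ | h4
    · exact absurd h4 ha
    · exact h4
  refine ⟨C, ?_, ?_, ?_, ?_, ?_, ?_, ?_⟩
  · intro k hk
    obtain ⟨a, rfl⟩ := hC0 k hk.ne'
    rw [hCκ] at hk
    by_contra hne
    simp only [c, if_neg hne] at hk
    linarith [hw a]
  · intro k hk
    obtain ⟨a, rfl⟩ := hC0 k hk.ne
    rw [hCκ] at hk
    by_cases he : τ (κ a) = i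
    · simp only [c, if_pos he] at hk
      linarith [hw a]
    · exact (hyj a he).1
  · have h4 := hsum fun _ => 1
    simp only [mul_one] at h4
    rw [h4]
    have h5 : ∀ a, c a = 2 * (w a * (y a).2) - w a := by
      intro a
      by_cases he : τ (κ a) = i
      · simp only [c, if_pos he, hyi a he]
        ring
      · simp only [c, if_neg he, (hyj a he).2]
        ring
    rw [Finset.sum_congr rfl fun a _ => h5 a, Finset.sum_sub_distrib, ← Finset.mul_sum, hcomp3, hw1]
    norm_num
  · rw [hsum fun k => (x k).1, ← hcomp1]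
    refine Finset.sum_congr rfl fun a _ => ?_
    by_cases he : τ (κ a) = i
    · simp only [c, if_pos he, hyi a he]
    · simp only [c, if_neg he, (hyj a he).2, Prod.fst_neg]
      ring
  · rw [hsum fun k => (x k).2, ← hcomp2]
    refine Finset.sum_congr rfl fun a _ => ?_
    by_cases he : τ (κ a) = i
    · simp only [c, if_pos he, hyi a he]
    · simp only [c, if_neg he, (hyj a he).2, Prod.snd_neg]
      ring
  · by_contra hcon
    push Not at hcon
    have h4 : ∑ a, w a * (y a).2 = 0 := by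
      refine Finset.sum_eq_zero fun a _ => ?_
      by_cases he : τ (κ a) = i
      · have h5 := hcon (κ a)
        rw [hCκ] at h5
        simp only [c, if_pos he] at h5
        linarith [hw a]
      · rw [(hyj a he).2, mul_zero]
    rw [hcomp3] at h4
    norm_num at h4
  · have h4 : (Finset.univ.filter fun k => C k ≠ 0) ⊆ Finset.univ.image κ := by
      intro k hk
      obtain ⟨a, ha⟩ := hC0 k (Finset.mem_filter.1 hk).2
      exact Finset.mem_image.2 ⟨a, Finset.mem_univ a, ha⟩
    exact (Finset.card_le_card h4).trans (Finset.card_image_le.trans hcard)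

theorem radA_three (p q r : ℝ × ℝ) (a b c : ℝ) (h0 : a + b + c = 0)
    (h1 : a * p.1 + b * q.1 + c * r.1 = 0) (h2 : a * p.2 + b * q.2 + c * r.2 = 0)
    (hne : det3 p q r ≠ 0) : a = 0 ∧ b = 0 ∧ c = 0 := by
  have ea : a = -b - c := by linarith
  subst ea
  have e1 : b * (q.1 - p.1) + c * (r.1 - p.1) = 0 := by linarith
  have e2 : b * (q.2 - p.2) + c * (r.2 - p.2) = 0 := by linarith
  have hb : b * det3 p q r = 0 := by
    unfold det3
    linear_combination (r.2 - p.2) * e1 - (r.1 - p.1) * e2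
  have hc : c * det3 p q r = 0 := by
    unfold det3
    linear_combination (q.1 - p.1) * e2 - (q.2 - p.2) * e1
  have hb' := (mul_eq_zero.1 hb).resolve_right hne
  have hc' := (mul_eq_zero.1 hc).resolve_right hne
  refine ⟨?_, hb', hc'⟩
  rw [hb', hc']
  ring

theorem hull_radon {m n : ℕ} (hm : 3 ≤ m) (τ : Fin m → Fin n) (x : Fin m → ℝ × ℝ)
    (gen : ∀ a b c, a ≠ b → b ≠ c → a ≠ c → det3 (x a) (x b) (x c) ≠ 0) (i j : Fin n)
    (hij : i ≠ j) (h : (hull (part τ x i) ∩ hull (part τ x j)).Nonempty) :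
    ∃ (e : Fin 4 → Fin m) (σ : ℝ), Wit τ x i j e σ := by
  classical
  obtain ⟨C, hCi, hCj, h0, h1, h2, ⟨k0, hk0⟩, hcard⟩ := radA_coef τ x i j hij h
  set Q : Finset (Fin m) := Finset.univ.filter fun k => C k ≠ 0 with hQ
  have hsupp : ∀ (t : Finset (Fin m)), Q ⊆ t → ∀ g : Fin m → ℝ,
      ∑ k, C k * g k = ∑ k ∈ t, C k * g k := by
    intro t ht g
    symm
    refine Finset.sum_subset (Finset.subset_univ _) fun k _ hk => ?_
    have h3 : C k = 0 := by
      by_contra hne
      exact hk (ht (Finset.mem_filter.2 ⟨Finset.mem_univ _, hne⟩))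
    rw [h3, zero_mul]
  have hQ4 : Q.card = 4 := by
    by_contra hne
    have hle : Q.card ≤ 3 := by omega
    obtain ⟨t, hQt, ht⟩ := Finset.exists_superset_card_eq hle
      (by rw [Fintype.card_fin]; exact hm)
    obtain ⟨a, b, c, hab, hac, hbc, rfl⟩ := Finset.card_eq_three.1 ht
    have hs : ∀ g : Fin m → ℝ, ∑ k, C k * g k = C a * g a + C b * g b + C c * g c := by
      intro g
      rw [hsupp _ hQt g, Finset.sum_insert (by simp [hab, hac]), Finset.sum_insert (by simp [hbc]),
        Finset.sum_singleton]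
      ring
    have e0 := hs fun _ => 1
    simp only [mul_one] at e0
    rw [h0] at e0
    have e1 := hs fun k => (x k).1
    rw [h1] at e1
    have e2 := hs fun k => (x k).2
    rw [h2] at e2
    obtain ⟨ha, hb, hc⟩ := radA_three _ _ _ _ _ _ e0.symm e1.symm e2.symm (gen a b c hab hbc hac)
    have hk : k0 ∈ ({a, b, c} : Finset (Fin m)) :=
      hQt (Finset.mem_filter.2 ⟨Finset.mem_univ _, hk0.ne'⟩)
    simp only [Finset.mem_insert, Finset.mem_singleton] at hk
    rcases hk with rfl | rfl | rfl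
    · linarith
    · linarith
    · linarith
  let e : Fin 4 → Fin m := Q.orderEmbOfFin hQ4
  have heinj : Function.Injective e := (Q.orderEmbOfFin hQ4).injective
  have heQ : ∀ k, e k ∈ Q := fun k => Finset.orderEmbOfFin_mem Q hQ4 k
  have hne : ∀ k, C (e k) ≠ 0 := fun k => (Finset.mem_filter.1 (heQ k)).2
  have himg : Finset.univ.image e = Q := by
    apply Finset.eq_of_subset_of_card_le
    · intro k hk
      obtain ⟨l, _, rfl⟩ := Finset.mem_image.1 hk
      exact heQ l
    · rw [Finset.card_image_of_injective _ heinj, hQ4]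
      simp
  have hs : ∀ g : Fin m → ℝ, ∑ k, C k * g k = C (e 0) * g (e 0) + C (e 1) * g (e 1) +
      C (e 2) * g (e 2) + C (e 3) * g (e 3) := by
    intro g
    rw [hsupp Q (Finset.Subset.refl _) g, ← himg, Finset.sum_image (fun a _ b _ h => heinj h),
      Fin.sum_univ_four]
  have e0 := hs fun _ => 1
  simp only [mul_one] at e0
  rw [h0] at e0
  have e1 := hs fun k => (x k).1
  rw [h1] at e1
  have e2 := hs fun k => (x k).2
  rw [h2] at e2
  have n01 : e 0 ≠ e 1 := fun h => absurd (heinj h) (by decide)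
  have n02 : e 0 ≠ e 2 := fun h => absurd (heinj h) (by decide)
  have n03 : e 0 ≠ e 3 := fun h => absurd (heinj h) (by decide)
  have n12 : e 1 ≠ e 2 := fun h => absurd (heinj h) (by decide)
  have n13 : e 1 ≠ e 3 := fun h => absurd (heinj h) (by decide)
  have n23 : e 2 ≠ e 3 := fun h => absurd (heinj h) (by decide)
  have g0 := gen _ _ _ n12 n23 n13
  -- all coefficients are proportional to `al`
  have a0 : al x e 0 = det3 (x (e 1)) (x (e 2)) (x (e 3)) := rfl
  have a1 : al x e 1 = - det3 (x (e 0)) (x (e 2)) (x (e 3)) := rfl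
  have a2 : al x e 2 = det3 (x (e 0)) (x (e 1)) (x (e 3)) := rfl
  have a3 : al x e 3 = - det3 (x (e 0)) (x (e 1)) (x (e 2)) := rfl
  have p0 : C (e 0) = -(C (e 1) + C (e 2) + C (e 3)) := by linarith
  have q1 : C (e 1) * ((x (e 1)).1 - (x (e 0)).1) + C (e 2) * ((x (e 2)).1 - (x (e 0)).1) +
      C (e 3) * ((x (e 3)).1 - (x (e 0)).1) = 0 := by
    rw [p0] at e1
    linarith
  have q2 : C (e 1) * ((x (e 1)).2 - (x (e 0)).2) + C (e 2) * ((x (e 2)).2 - (x (e 0)).2) +
      C (e 3) * ((x (e 3)).2 - (x (e 0)).2) = 0 := by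
    rw [p0] at e2
    linarith
  have r1 : C (e 1) * al x e 0 = C (e 0) * al x e 1 := by
    rw [a0, a1, p0]
    unfold det3
    linear_combination ((x (e 2)).2 - (x (e 3)).2) * q1 - ((x (e 2)).1 - (x (e 3)).1) * q2
  have r2 : C (e 2) * al x e 0 = C (e 0) * al x e 2 := by
    rw [a0, a2, p0]
    unfold det3
    linear_combination ((x (e 3)).2 - (x (e 1)).2) * q1 - ((x (e 3)).1 - (x (e 1)).1) * q2
  have r3 : C (e 3) * al x e 0 = C (e 0) * al x e 3 := by
    rw [a0, a3, p0]
    unfold det3
    linear_combination ((x (e 1)).2 - (x (e 2)).2) * q1 - ((x (e 1)).1 - (x (e 2)).1) * q2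
  have hr : ∀ k, C (e k) * al x e 0 = C (e 0) * al x e k := by
    intro k
    fin_cases k
    · rfl
    · exact r1
    · exact r2
    · exact r3
  have ha0 : al x e 0 ≠ 0 := by rw [a0]; exact g0
  -- signs
  have hsign : ∀ k, 0 < (if τ (e k) = i then C (e k) else -C (e k)) := by
    intro k
    rcases lt_or_gt_of_ne (hne k) with h3 | h3
    · have h4 := hCj _ h3
      rw [if_neg (fun h => hij (h.symm.trans h4))]
      linarith
    · rw [if_pos (hCi _ h3)]
      exact h3
  have hlam : ∀ k, (al x e 0)⁻¹ * C (e 0) * (if τ (e k) = i then al x e k else -al x e k) =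
      (if τ (e k) = i then C (e k) else -C (e k)) := by
    intro k
    have h3 := hr k
    have h4 : (al x e 0)⁻¹ * C (e 0) * al x e k = C (e k) := by
      field_simp
      linarith
    split_ifs
    · exact h4
    · rw [mul_neg, h4]
  have hl0 : (al x e 0)⁻¹ * C (e 0) ≠ 0 := mul_ne_zero (inv_ne_zero ha0) (hne 0)
  set lam : ℝ := (al x e 0)⁻¹ * C (e 0) with hlamdef
  refine ⟨e, if 0 < lam then 1 else -1, heinj, ?_, ?_, ?_, ?_⟩
  · split_ifs
    · exact Or.inl rfl
    · exact Or.inr rfl
  · intro k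
    rcases lt_or_gt_of_ne (hne k) with h3 | h3
    · exact Or.inr (hCj _ h3)
    · exact Or.inl (hCi _ h3)
  · have hk : k0 ∈ Finset.univ.image e := by
      rw [himg]
      exact Finset.mem_filter.2 ⟨Finset.mem_univ _, hk0.ne'⟩
    obtain ⟨l, _, hl⟩ := Finset.mem_image.1 hk
    exact ⟨l, by rw [hl]; exact hCi _ hk0⟩
  · intro k
    have h3 := hsign k
    rw [← hlam k] at h3
    by_cases hpos : 0 < lam
    · rw [if_pos hpos, one_mul]
      exact (mul_pos_iff_of_pos_left hpos).1 h3
    · rw [if_neg hpos]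
      have hneg : lam < 0 := lt_of_le_of_ne (not_lt.1 hpos) hl0
      nlinarith

end Pool.Agent.H54.CT
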