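import Pool.Agent.H54.CT.SeqA

/-!
# The number of positions with two labels

JOB CT-SEQB.

`total_bound`: let `D` be the break points of `breaks` for the labels `i` (`L = 71`),
`n = max` of the numbers of letters; `β x = #{d ∈ D | d ≤ x} ≤ D.card`.  The relation
`R = X.image (fun x => (j x, β x))` has no `Alt 71` (`alt_mono`: choose for `(b, t) ∈ R` a position
`x ∈ X` with `j x = b`, `β x = t`).  For every `(b, t) ∈ R` at most `6` positions `x ∈ X` have
`j x = b`, `β x = t`: the labels `i` of `{x ∈ X | β x = t}` take at most two values (three positions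
`x < y < z` with the same `β` have no break point in `(x, z]`; three distinct labels would be at
three distinct positions), and each pair `(i, j)` occurs at most `3` times.  So
`X.card ≤ 6 * R.card` (`Finset.card_le_mul_card_image`), and `alt_bound` with
`p = Nat.clog 2 (D.card + 1)`: `D.card + 1 ≤ rho * n + 1 ≤ (rho + 1) n` (if `n ≥ 1`),
`2 ^ p ≤ 2 (D.card + 1) ≤ (2 rho + 2) n`, `p ≤ P + rho + 1` because
`D.card + 1 ≤ (rho + 1) 2^P ≤ 2^(P + rho + 1)` (`rho + 1 ≤ 2 ^ rho`-like: `Nat.lt_two_pow_self`).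
-/

set_option autoImplicit false

namespace Pool.Agent.H54.CT

variable {α : Type*} [DecidableEq α]

/-- the number of break points up to `x` -/
def seqB_cnt (D : Finset ℕ) (x : ℕ) : ℕ := (D.filter fun d => d ≤ x).card

theorem seqB_cnt_mono (D : Finset ℕ) {x y : ℕ} (h : x ≤ y) : seqB_cnt D x ≤ seqB_cnt D y := by
  unfold seqB_cnt
  refine Finset.card_le_card fun d hd => ?_
  rw [Finset.mem_filter] at hd ⊢
  exact ⟨hd.1, hd.2.trans h⟩

theorem seqB_cnt_le (D : Finset ℕ) (x : ℕ) : seqB_cnt D x ≤ D.card :=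
  Finset.card_filter_le _ _

theorem seqB_cnt_eq (D : Finset ℕ) {x y : ℕ} (h : x ≤ y) (he : seqB_cnt D x = seqB_cnt D y) :
    ∀ d ∈ D, ¬ (x < d ∧ d ≤ y) := by
  intro d hd hxy
  have h1 : (D.filter fun d => d ≤ x) ⊆ D.filter fun d => d ≤ y := by
    intro e he
    rw [Finset.mem_filter] at he ⊢
    exact ⟨he.1, he.2.trans h⟩
  have h2 : (D.filter fun d => d ≤ x) = D.filter fun d => d ≤ y :=
    Finset.eq_of_subset_of_card_le h1 (le_of_eq he.symm)
  have h3 : d ∈ D.filter fun d => d ≤ y := Finset.mem_filter.2 ⟨hd, hxy.2⟩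
  rw [← h2, Finset.mem_filter] at h3
  omega

/-- the numerical part of `total_bound` -/
theorem seqB_num (P n r p N M K : ℕ) (hn : n ≤ 2 ^ P) (hn1 : 1 ≤ n) (hD : K ≤ r * n)
    (hp : p = Nat.clog 2 (K + 1)) (hM : M ≤ 2 ^ N * n + 2 * (p + 1) ^ N * 2 ^ p) :
    6 * M ≤ n * (6 * (2 ^ N + 2 * (P + r + 2) ^ N * (2 * r + 2))) := by
  have h1 : 2 ^ p ≤ 2 * (K + 1) := by
    rcases Nat.eq_zero_or_pos K with h0 | h0
    · rw [hp, h0]
      simp
    · have h2 := Nat.pow_pred_clog_lt_self (b := 2) one_lt_two (x := K + 1) (by omega)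
      rw [← hp] at h2
      have h3 : 0 < p := by
        rw [hp]
        exact Nat.clog_pos one_lt_two (by omega)
      obtain ⟨q, rfl⟩ : ∃ q, p = q + 1 := ⟨p - 1, by omega⟩
      simp only [Nat.pred_eq_sub_one, Nat.add_sub_cancel] at h2
      rw [pow_succ]
      omega
  have h2 : p ≤ P + r + 1 := by
    rw [hp]
    refine Nat.clog_le_of_le_pow ?_
    have h3 : r + 1 ≤ 2 ^ (r + 1) := Nat.lt_two_pow_self.le
    have h4 : 1 ≤ 2 ^ P := Nat.one_le_two_pow
    have h5 : r * n ≤ r * 2 ^ P := Nat.mul_le_mul_left _ hn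
    calc K + 1 ≤ r * 2 ^ P + 2 ^ P := by omega
      _ = (r + 1) * 2 ^ P := by ring
      _ ≤ 2 ^ (r + 1) * 2 ^ P := Nat.mul_le_mul_right _ h3
      _ = 2 ^ (P + r + 1) := by rw [← pow_add]; congr 1; ring
  have h3 : (p + 1) ^ N ≤ (P + r + 2) ^ N := Nat.pow_le_pow_left (by omega) _
  have h4 : 2 ^ p ≤ (2 * r + 2) * n := by
    calc 2 ^ p ≤ 2 * (K + 1) := h1
      _ ≤ 2 * (r * n + n) := by omega
      _ = (2 * r + 2) * n := by ring
  have h5 : (p + 1) ^ N * 2 ^ p ≤ (P + r + 2) ^ N * ((2 * r + 2) * n) := Nat.mul_le_mul h3 h4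
  calc 6 * M ≤ 6 * (2 ^ N * n + 2 * ((p + 1) ^ N * 2 ^ p)) := by
        rw [← mul_assoc 2]
        exact Nat.mul_le_mul_left _ hM
    _ ≤ 6 * (2 ^ N * n + 2 * ((P + r + 2) ^ N * ((2 * r + 2) * n))) := by
        exact Nat.mul_le_mul_left _ (Nat.add_le_add_left (Nat.mul_le_mul_left _ h5) _)
    _ = n * (6 * (2 ^ N + 2 * (P + r + 2) ^ N * (2 * r + 2))) := by ring

/-- `total_bound` for general alternation length -/
theorem seqB_main (P n N : ℕ) (hn : n ≤ 2 ^ P) (X : Finset ℕ) (i j : ℕ → α)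
    (hi : (X.image i).card ≤ n) (hj : (X.image j).card ≤ n)
    (ai : ¬ Alt N (rel X i)) (aj : ¬ Alt N (rel X j))
    (h3 : ∀ a b, (X.filter fun t => i t = a ∧ j t = b).card ≤ 3) :
    X.card ≤ n * (6 * (2 ^ N + 2 * (P + rho P N + 2) ^ N * (2 * rho P N + 2))) := by
  rcases Nat.eq_zero_or_pos n with hn0 | hn1
  · have h1 : X.image i = ∅ := Finset.card_eq_zero.1 (by omega)
    have h2 : X = ∅ := Finset.image_eq_empty.1 h1
    rw [h2]
    simp
  obtain ⟨D, hD, hbr⟩ := breaks P N X i (hi.trans hn) ai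
  have hD' : D.card ≤ rho P N * n := hD.trans (Nat.mul_le_mul_left _ hi)
  generalize rho P N = r at hD' ⊢
  set R : Finset (α × ℕ) := X.image (fun x => (j x, seqB_cnt D x)) with hRdef
  -- no alternation
  have hRalt : ¬ Alt N R := by
    intro hA
    apply aj
    have hch : ∀ a c, ∃ x, (a, c) ∈ R → (x ∈ X ∧ j x = a ∧ seqB_cnt D x = c) := by
      intro a c
      by_cases h : (a, c) ∈ R
      · obtain ⟨x, hx, hxe⟩ := Finset.mem_image.1 h
        have h1 := Prod.ext_iff.1 hxe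
        exact ⟨x, fun _ => ⟨hx, h1.1, h1.2⟩⟩
      · exact ⟨0, fun h' => absurd h' h⟩
    choose g hg using hch
    refine alt_mono (R := rel X j) (R' := R) g ?_ ?_ hA
    · intro a c hac
      obtain ⟨h1, h2, h3⟩ := hg a c hac
      unfold rel
      exact Finset.mem_image.2 ⟨g a c, h1, by rw [h2]⟩
    · intro a c b d hac hbd hcd
      obtain ⟨h1, h2, h3⟩ := hg a c hac
      obtain ⟨h4, h5, h6⟩ := hg b d hbd
      by_contra hle
      have := seqB_cnt_mono D (not_lt.1 hle)
      omega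
  -- the fibres
  have hfib : ∀ e ∈ R, (X.filter fun x => (j x, seqB_cnt D x) = e).card ≤ 6 := by
    rintro ⟨b, t⟩ _
    set S : Finset ℕ := X.filter fun x => (j x, seqB_cnt D x) = (b, t) with hS
    have hmem : ∀ x ∈ S, x ∈ X ∧ j x = b ∧ seqB_cnt D x = t := by
      intro x hx
      obtain ⟨h1, h2⟩ := Finset.mem_filter.1 hx
      have h3 := Prod.ext_iff.1 h2
      exact ⟨h1, h3.1, h3.2⟩
    have key : ∀ x ∈ S, ∀ y ∈ S, ∀ z ∈ S, x < y → y < z → i x ≠ i y → i y ≠ i z → i x ≠ i z →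
        False := by
      intro x hx y hy z hz hxy hyz n1 n2 n3
      obtain ⟨x1, x2, x3⟩ := hmem x hx
      obtain ⟨y1, y2, y3⟩ := hmem y hy
      obtain ⟨z1, z2, z3⟩ := hmem z hz
      rcases hbr x x1 y y1 z z1 hxy hyz
        (seqB_cnt_eq D (hxy.trans hyz).le (x3.trans z3.symm)) with h | h | h
      · exact n1 h
      · exact n2 h
      · exact n3 h
    have hlab : (S.image i).card ≤ 2 := by
      by_contra hgt
      obtain ⟨a, ha, b', hb, c, hc, hab, hac, hbc⟩ := Finset.two_lt_card.1 (not_le.1 hgt)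
      obtain ⟨x, hx, rfl⟩ := Finset.mem_image.1 ha
      obtain ⟨y, hy, rfl⟩ := Finset.mem_image.1 hb
      obtain ⟨z, hz, rfl⟩ := Finset.mem_image.1 hc
      have hxy : x ≠ y := fun h => hab (by rw [h])
      have hxz : x ≠ z := fun h => hac (by rw [h])
      have hyz : y ≠ z := fun h => hbc (by rw [h])
      rcases lt_or_gt_of_ne hxy with h1 | h1
      · rcases lt_or_gt_of_ne hyz with h2 | h2
        · exact key x hx y hy z hz h1 h2 hab hbc hac
        · rcases lt_or_gt_of_ne hxz with h3 | h3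
          · exact key x hx z hz y hy h3 h2 hac hbc.symm hab
          · exact key z hz x hx y hy h3 h1 hac.symm hab hbc.symm
      · rcases lt_or_gt_of_ne hxz with h2 | h2
        · exact key y hy x hx z hz h1 h2 hab.symm hac hbc
        · rcases lt_or_gt_of_ne hyz with h3 | h3
          · exact key y hy z hz x hx h3 h2 hbc hac.symm hab.symm
          · exact key z hz y hy x hx h3 h1 hbc.symm hab.symm hac.symm
    have h4 : S.card ≤ 3 * (S.image i).card := by
      refine Finset.card_le_mul_card_image S 3 fun a _ => ?_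
      refine le_trans (Finset.card_le_card fun x hx => ?_) (h3 a b)
      obtain ⟨h5, h6⟩ := Finset.mem_filter.1 hx
      obtain ⟨h7, h8, _⟩ := hmem x h5
      exact Finset.mem_filter.2 ⟨h7, h6, h8⟩
    omega
  have hX : X.card ≤ 6 * R.card := Finset.card_le_mul_card_image X 6 hfib
  have hRcol : ∀ e ∈ R, e.2 < 2 ^ Nat.clog 2 (D.card + 1) := by
    intro e he
    obtain ⟨x, _, rfl⟩ := Finset.mem_image.1 he
    have h1 := seqB_cnt_le D x
    have h2 := Nat.le_pow_clog one_lt_two (D.card + 1)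
    show seqB_cnt D x < _
    omega
  have hb := alt_bound N (Nat.clog 2 (D.card + 1)) R hRcol hRalt
  have hRf : (R.image Prod.fst).card ≤ n := by
    refine le_trans (Finset.card_le_card fun a ha => ?_) hj
    obtain ⟨e, he, rfl⟩ := Finset.mem_image.1 ha
    obtain ⟨x, hx, rfl⟩ := Finset.mem_image.1 he
    exact Finset.mem_image.2 ⟨x, hx, rfl⟩
  have hb2 : R.card ≤ 2 ^ N * n + 2 * (Nat.clog 2 (D.card + 1) + 1) ^ N *
      2 ^ Nat.clog 2 (D.card + 1) :=
    hb.trans (Nat.add_le_add_right (Nat.mul_le_mul_left _ hRf) _)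
  exact hX.trans (seqB_num P n r _ N R.card D.card hn hn1 hD' rfl hb2)

theorem total_bound (P n : ℕ) (hn : n ≤ 2 ^ P) (X : Finset ℕ) (i j : ℕ → α)
    (hi : (X.image i).card ≤ n) (hj : (X.image j).card ≤ n)
    (ai : ¬ Alt 71 (rel X i)) (aj : ¬ Alt 71 (rel X j))
    (h3 : ∀ a b, (X.filter fun t => i t = a ∧ j t = b).card ≤ 3) :
    X.card ≤ n * Phi P := by
  unfold Phi
  exact seqB_main P n 71 hn X i j hi hj ai aj h3

end Pool.Agent.H54.CT
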