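import Pool.Agent.H54.CT.MatB

/-!
# Block decomposition of sequences without alternations of three letters

JOB CT-SEQA.

`breaks`: induction `L → L + 2` for all `X`.  Put `A = X.image σ`, `n = A.card`.
* `L = 0, 1`: `D = ∅`.  If `x < y < z` in `X` have three distinct labels, then
  `y k = ![σ x, σ y, σ z] (k mod 3)`, `s = fun _ => x` is an `Alt 0` and `Alt 1`.
* `L + 2`: if `X = ∅` take `D = ∅`.  For a letter `a ∈ A` let `lo a`, `hi a` be the first and the last
  position of `X` with label `a`.  `C = A.image lo ∪ A.image hi`, `C.card ≤ 2 n`; base break points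
  `C ∪ C.image (· + 1)`, at most `4 n`.  For `x ∈ X \ C` put `κ x = #{c ∈ C | c ≤ x} ≤ 2 n`, and
  `X_t = {x ∈ X \ C | κ x = t}` for `t ≤ 2 n`.  If `x < y` are in `X_t`, then there is no `c ∈ C` with
  `x < c ≤ y`; so for a letter `a = σ x`, `x ∈ X_t`, `lo a <` every element of `X_t` `< hi a`.  Hence
  `rel X_t σ` has no `Alt L` (`alt_prepend` and `alt_append` in two steps: first to
  `rel X_t σ ∪ {(a, lo a)}`, or directly).  The induction hypothesis gives `D_t`,
  `D_t.card ≤ rho P L * n_t`, `n_t = (X_t.image σ).card`.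
  `Σ_t n_t` is the number of pairs `(a, t)` with `a` a label in `X_t`; this relation
  (columns `t ≤ 2n`, so `< 2 ^ p` with `p = Nat.clog 2 (2 n + 1)`) has no `Alt (L + 2)` by `alt_mono`
  (a position in `X_t` with label `a`; positions increase with `t`), so by `alt_bound`
  `Σ n_t ≤ 2^(L+2) n + 2 (p+1)^(L+2) 2^p`, and `2^p ≤ 2 (2n+1) ≤ 6 n` (`n ≥ 1`;
  `Nat.pow_pred_clog_lt_self` or so), `p ≤ P + 2` since `2n + 1 ≤ 2^(P+2)`.
  `D` = base points and all `D_t`.  Let `x < y < z` in `X` without break point in `(x, z]`.  None of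
  them is in `C` (`x ∈ C` would give the break point `x + 1 ≤ z`; `y, z ∈ C` are break points), and
  `κ x = κ y = κ z` (no element of `C` in `(x, z]`), so all are in the same `X_t` and `D_t` applies.
-/

set_option autoImplicit false

namespace Pool.Agent.H54.CT

variable {α : Type*} [DecidableEq α]

theorem seqA_mem_rel {X : Finset ℕ} {σ : ℕ → α} {a : α} {c : ℕ} :
    (a, c) ∈ rel X σ ↔ c ∈ X ∧ σ c = a := by
  unfold rel
  rw [Finset.mem_image]
  constructor
  · rintro ⟨t, ht, h⟩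
    obtain ⟨h1, h2⟩ := Prod.mk.inj h
    subst h2
    exact ⟨ht, h1⟩
  · rintro ⟨h1, h2⟩
    exact ⟨c, h1, by rw [h2]⟩

/-- the base of the induction -/
theorem seqA_base {X : Finset ℕ} {σ : ℕ → α} {L : ℕ} (hL : L ≤ 1) (h : ¬ Alt L (rel X σ))
    {x y z : ℕ} (hx : x ∈ X) (hy : y ∈ X) (hz : z ∈ X) :
    σ x = σ y ∨ σ y = σ z ∨ σ x = σ z := by
  by_contra hcon
  push Not at hcon
  obtain ⟨h1, h2, h3⟩ := hcon
  apply h
  refine ⟨fun k => if k % 3 = 0 then σ x else if k % 3 = 1 then σ y else σ z, fun _ => x,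
    ?_, ?_, ?_, ?_, ?_, ?_, ?_⟩
  · intro k
    simp only [Nat.add_mod_right]
  · simpa using h1
  · simpa using h2
  · simpa using h3
  · intro k
    by_cases hk : k % 3 = 0
    · exact ⟨x, by simp only [hk, if_true]; exact seqA_mem_rel.2 ⟨hx, rfl⟩⟩
    · by_cases hk' : k % 3 = 1
      · exact ⟨y, by simp only [if_neg hk, if_pos hk']; exact seqA_mem_rel.2 ⟨hy, rfl⟩⟩
      · exact ⟨z, by simp only [if_neg hk, if_neg hk']; exact seqA_mem_rel.2 ⟨hz, rfl⟩⟩
  · intro k hk
    have : k = 0 := by omega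
    subst this
    simp only [Nat.zero_mod, if_true]
    exact seqA_mem_rel.2 ⟨hx, rfl⟩
  · intro k hk
    omega

/-- number of break points up to `x` -/
def seqA_kap (C : Finset ℕ) (x : ℕ) : ℕ := (C.filter (· ≤ x)).card

theorem seqA_kap_mono (C : Finset ℕ) {x y : ℕ} (h : x ≤ y) : seqA_kap C x ≤ seqA_kap C y := by
  apply Finset.card_le_card
  intro c hc
  rw [Finset.mem_filter] at *
  exact ⟨hc.1, hc.2.trans h⟩

theorem seqA_kap_le (C : Finset ℕ) (x : ℕ) : seqA_kap C x ≤ C.card := Finset.card_filter_le _ _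

theorem seqA_no_mem {C : Finset ℕ} {x y c : ℕ} (hxy : seqA_kap C x = seqA_kap C y) (hc : c ∈ C) :
    ¬ (x < c ∧ c ≤ y) := by
  rintro ⟨h1, h2⟩
  have hsub : C.filter (· ≤ x) ⊂ C.filter (· ≤ y) := by
    rw [Finset.ssubset_iff_of_subset]
    · refine ⟨c, Finset.mem_filter.2 ⟨hc, h2⟩, fun h => ?_⟩
      have := (Finset.mem_filter.1 h).2
      omega
    · intro d hd
      rw [Finset.mem_filter] at *
      exact ⟨hd.1, by omega⟩
  have := Finset.card_lt_card hsub
  unfold seqA_kap at hxy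
  omega

theorem seqA_kap_eq {C : Finset ℕ} {x y : ℕ} (h : x ≤ y) (hc : ∀ c ∈ C, ¬ (x < c ∧ c ≤ y)) :
    seqA_kap C x = seqA_kap C y := by
  unfold seqA_kap
  congr 1
  ext c
  rw [Finset.mem_filter, Finset.mem_filter]
  constructor
  · rintro ⟨h1, h2⟩
    exact ⟨h1, h2.trans h⟩
  · rintro ⟨h1, h2⟩
    refine ⟨h1, ?_⟩
    by_contra h3
    exact hc c h1 ⟨not_le.1 h3, h2⟩

/-- the block with number `t` -/
def seqA_blk (X C : Finset ℕ) (t : ℕ) : Finset ℕ := (X \ C).filter fun x => seqA_kap C x = t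

theorem seqA_mem_blk {X C : Finset ℕ} {t x : ℕ} :
    x ∈ seqA_blk X C t ↔ (x ∈ X ∧ x ∉ C) ∧ seqA_kap C x = t := by
  unfold seqA_blk
  rw [Finset.mem_filter, Finset.mem_sdiff]

/-- no alternation in a block -/
theorem seqA_block {X C : Finset ℕ} {σ : ℕ → α} {L : ℕ} (lo hi : α → ℕ)
    (hlo : ∀ x ∈ X, lo (σ x) ∈ X ∧ σ (lo (σ x)) = σ x ∧ lo (σ x) ≤ x ∧ lo (σ x) ∈ C)
    (hhi : ∀ x ∈ X, hi (σ x) ∈ X ∧ σ (hi (σ x)) = σ x ∧ x ≤ hi (σ x) ∧ hi (σ x) ∈ C)
    (h : ¬ Alt (L + 2) (rel X σ)) (t : ℕ) : ¬ Alt L (rel (seqA_blk X C t) σ) := by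
  intro hA
  apply h
  have key1 : ∀ x ∈ seqA_blk X C t, ∀ y ∈ seqA_blk X C t, lo (σ x) < y := by
    intro x hx y hy
    rw [seqA_mem_blk] at hx hy
    obtain ⟨h1, h2, h3, h4⟩ := hlo x hx.1.1
    by_contra hcon
    have h5 : y ≠ lo (σ x) := fun e => hy.1.2 (e ▸ h4)
    exact seqA_no_mem (hy.2.trans hx.2.symm) h4 ⟨by omega, h3⟩
  have key2 : ∀ x ∈ seqA_blk X C t, ∀ y ∈ seqA_blk X C t, y < hi (σ x) := by
    intro x hx y hy
    rw [seqA_mem_blk] at hx hy
    obtain ⟨h1, h2, h3, h4⟩ := hhi x hx.1.1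
    by_contra hcon
    have h5 : x ≠ hi (σ x) := fun e => hx.1.2 (by rw [e]; exact h4)
    exact seqA_no_mem (hx.2.trans hy.2.symm) h4 ⟨by omega, by omega⟩
  -- the intermediate relation
  let R1 : Finset (α × ℕ) := rel (seqA_blk X C t) σ ∪
    ((seqA_blk X C t).image σ).image fun a => (a, lo a)
  have hR1 : ∀ a c, (a, c) ∈ R1 → ∃ x ∈ seqA_blk X C t, σ x = a ∧ (c = x ∨ c = lo a) := by
    intro a c hac
    rw [Finset.mem_union] at hac
    rcases hac with hac | hac
    · rw [seqA_mem_rel] at hac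
      exact ⟨c, hac.1, hac.2, Or.inl rfl⟩
    · rw [Finset.mem_image] at hac
      obtain ⟨b, hb, hbe⟩ := hac
      rw [Finset.mem_image] at hb
      obtain ⟨x, hx, rfl⟩ := hb
      obtain ⟨h1, h2⟩ := Prod.mk.inj hbe
      exact ⟨x, hx, h1, Or.inr (by rw [← h2, ← h1])⟩
  have hA1 : Alt (L + 1) R1 := by
    refine alt_prepend (R' := rel (seqA_blk X C t) σ) Finset.subset_union_left ?_ hA
    intro a c hac
    rw [seqA_mem_rel] at hac
    refine ⟨lo a, Finset.mem_union_right _ ?_, ?_⟩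
    · rw [Finset.mem_image]
      exact ⟨a, Finset.mem_image.2 ⟨c, hac.1, hac.2⟩, rfl⟩
    · intro b d hbd
      rw [seqA_mem_rel] at hbd
      rw [← hac.2]
      exact key1 c hac.1 d hbd.1
  refine alt_append (R' := R1) ?_ ?_ hA1
  · rintro ⟨a, c⟩ hac
    obtain ⟨x, hx, hxa, hc⟩ := hR1 a c hac
    rw [seqA_mem_blk] at hx
    rw [seqA_mem_rel]
    rcases hc with rfl | rfl
    · exact ⟨hx.1.1, hxa⟩
    · subst hxa
      obtain ⟨h1, h2, _, _⟩ := hlo x hx.1.1
      exact ⟨h1, h2⟩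
  · intro a c hac
    obtain ⟨x, hx, hxa, hc⟩ := hR1 a c hac
    have hx' := seqA_mem_blk.1 hx
    obtain ⟨h1, h2, _, _⟩ := hhi x hx'.1.1
    subst hxa
    refine ⟨hi (σ x), seqA_mem_rel.2 ⟨h1, h2⟩, ?_⟩
    intro b d hbd
    obtain ⟨y, hy, hyb, hd⟩ := hR1 b d hbd
    rcases hd with rfl | rfl
    · exact key2 x hx _ hy
    · subst hyb
      exact (key1 y hy x hx).trans (key2 x hx x hx)

/-- the relation of the letters and blocks -/
def seqA_R2 (X C : Finset ℕ) (σ : ℕ → α) (N : ℕ) : Finset (α × ℕ) :=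
  (Finset.range N).biUnion fun t => ((seqA_blk X C t).image σ).image fun a => (a, t)

theorem seqA_mem_R2 {X C : Finset ℕ} {σ : ℕ → α} {N : ℕ} {a : α} {t : ℕ} :
    (a, t) ∈ seqA_R2 X C σ N ↔ t < N ∧ ∃ x ∈ seqA_blk X C t, σ x = a := by
  unfold seqA_R2
  rw [Finset.mem_biUnion]
  constructor
  · rintro ⟨t', ht', h⟩
    rw [Finset.mem_image] at h
    obtain ⟨b, hb, hbe⟩ := h
    obtain ⟨h1, h2⟩ := Prod.mk.inj hbe
    subst h2
    rw [Finset.mem_image] at hb
    obtain ⟨x, hx, hxb⟩ := hb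
    exact ⟨Finset.mem_range.1 ht', x, hx, hxb.trans h1⟩
  · rintro ⟨ht, x, hx, hxa⟩
    exact ⟨t, Finset.mem_range.2 ht, Finset.mem_image.2 ⟨a, Finset.mem_image.2 ⟨x, hx, hxa⟩, rfl⟩⟩

theorem seqA_card_R2 (X C : Finset ℕ) (σ : ℕ → α) (N : ℕ) :
    (seqA_R2 X C σ N).card = ∑ t ∈ Finset.range N, ((seqA_blk X C t).image σ).card := by
  unfold seqA_R2
  rw [Finset.card_biUnion]
  · refine Finset.sum_congr rfl fun t _ => ?_
    apply Finset.card_image_of_injective
    intro a b hab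
    exact (Prod.mk.inj hab).1
  · intro t _ t' _ htt'
    rw [Function.onFun, Finset.disjoint_left]
    rintro ⟨a, c⟩ h1 h2
    rw [Finset.mem_image] at h1 h2
    obtain ⟨b, _, hb⟩ := h1
    obtain ⟨b', _, hb'⟩ := h2
    exact htt' ((Prod.mk.inj hb).2.trans (Prod.mk.inj hb').2.symm)

theorem seqA_sum (P L : ℕ) {X C : Finset ℕ} {σ : ℕ → α} (hn : (X.image σ).card ≤ 2 ^ P)
    (hn0 : 0 < (X.image σ).card) (h : ¬ Alt (L + 2) (rel X σ)) :
    ∑ t ∈ Finset.range (2 * (X.image σ).card + 1), ((seqA_blk X C t).image σ).card ≤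
      (2 ^ (L + 2) + 12 * (P + 3) ^ (L + 2)) * (X.image σ).card := by
  classical
  set n := (X.image σ).card with hndef
  rw [← seqA_card_R2]
  have hp1 : 2 * n + 1 ≤ 2 ^ Nat.clog 2 (2 * n + 1) := Nat.le_pow_clog (by norm_num) _
  have hp2 : Nat.clog 2 (2 * n + 1) ≤ P + 2 := by
    apply Nat.clog_le_of_le_pow
    have h0 : 1 ≤ 2 ^ P := Nat.one_le_two_pow
    rw [pow_add]
    omega
  have hp3 : 2 ^ Nat.clog 2 (2 * n + 1) ≤ 6 * n := by
    have h1 := Nat.pow_pred_clog_lt_self (b := 2) (by norm_num) (x := 2 * n + 1) (by omega)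
    have h2 : 0 < Nat.clog 2 (2 * n + 1) := Nat.clog_pos (by norm_num) (by omega)
    obtain ⟨q, hq⟩ : ∃ q, Nat.clog 2 (2 * n + 1) = q + 1 := ⟨_, (Nat.succ_pred_eq_of_pos h2).symm⟩
    rw [hq] at h1 ⊢
    rw [Nat.pred_succ] at h1
    rw [pow_succ]
    omega
  set p := Nat.clog 2 (2 * n + 1) with hp
  have hcol : ∀ r ∈ seqA_R2 X C σ (2 * n + 1), r.2 < 2 ^ p := by
    rintro ⟨a, t⟩ hr
    have := (seqA_mem_R2.1 hr).1
    show t < 2 ^ p
    omega
  have hnoalt : ¬ Alt (L + 2) (seqA_R2 X C σ (2 * n + 1)) := by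
    intro hA
    apply h
    let g : α → ℕ → ℕ := fun a t =>
      if hx : ∃ x ∈ seqA_blk X C t, σ x = a then hx.choose else 0
    have hg : ∀ a t, (a, t) ∈ seqA_R2 X C σ (2 * n + 1) →
        g a t ∈ seqA_blk X C t ∧ σ (g a t) = a := by
      intro a t hat
      have hx := (seqA_mem_R2.1 hat).2
      simp only [g, dif_pos hx]
      exact hx.choose_spec
    refine alt_mono g ?_ ?_ hA
    · intro a t hat
      obtain ⟨h1, h2⟩ := hg a t hat
      exact seqA_mem_rel.2 ⟨(seqA_mem_blk.1 h1).1.1, h2⟩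
    · intro a c b d hac hbd hcd
      have h1 := (seqA_mem_blk.1 (hg a c hac).1).2
      have h2 := (seqA_mem_blk.1 (hg b d hbd).1).2
      by_contra hcon
      have := seqA_kap_mono C (not_lt.1 hcon)
      omega
  have hb := alt_bound (L + 2) p _ hcol hnoalt
  have himg : ((seqA_R2 X C σ (2 * n + 1)).image Prod.fst).card ≤ n := by
    apply Finset.card_le_card
    intro a ha
    rw [Finset.mem_image] at ha
    obtain ⟨⟨a', t⟩, hat, rfl⟩ := ha
    obtain ⟨_, x, hx, hxa⟩ := seqA_mem_R2.1 hat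
    exact Finset.mem_image.2 ⟨x, (seqA_mem_blk.1 hx).1.1, hxa⟩
  calc (seqA_R2 X C σ (2 * n + 1)).card
      ≤ 2 ^ (L + 2) * ((seqA_R2 X C σ (2 * n + 1)).image Prod.fst).card +
        2 * (p + 1) ^ (L + 2) * 2 ^ p := hb
    _ ≤ 2 ^ (L + 2) * n + 2 * (P + 3) ^ (L + 2) * (6 * n) := by
        have h1 : (p + 1) ^ (L + 2) ≤ (P + 3) ^ (L + 2) := Nat.pow_le_pow_left (by omega) _
        gcongr
    _ = (2 ^ (L + 2) + 12 * (P + 3) ^ (L + 2)) * n := by ring

theorem breaks (P L : ℕ) (X : Finset ℕ) (σ : ℕ → α) (hn : (X.image σ).card ≤ 2 ^ P)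
    (h : ¬ Alt L (rel X σ)) :
    ∃ D : Finset ℕ, D.card ≤ rho P L * (X.image σ).card ∧
      ∀ x ∈ X, ∀ y ∈ X, ∀ z ∈ X, x < y → y < z → (∀ d ∈ D, ¬ (x < d ∧ d ≤ z)) →
        (σ x = σ y ∨ σ y = σ z ∨ σ x = σ z) := by
  classical
  induction L using Nat.twoStepInduction generalizing X with
  | zero =>
    exact ⟨∅, by simp, fun x hx y hy z hz _ _ _ => seqA_base (by norm_num) h hx hy hz⟩
  | one =>
    exact ⟨∅, by simp, fun x hx y hy z hz _ _ _ => seqA_base le_rfl h hx hy hz⟩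
  | more L ih _ =>
    rcases Finset.eq_empty_or_nonempty X with rfl | hne
    · exact ⟨∅, by simp, fun x hx => absurd hx (Finset.notMem_empty x)⟩
    have hn0 : 0 < (X.image σ).card := Finset.card_pos.2 (hne.image σ)
    let lo : α → ℕ := fun a => if ha : (X.filter fun x => σ x = a).Nonempty then
      (X.filter fun x => σ x = a).min' ha else 0
    let hi : α → ℕ := fun a => if ha : (X.filter fun x => σ x = a).Nonempty then
      (X.filter fun x => σ x = a).max' ha else 0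
    let C : Finset ℕ := (X.image σ).image lo ∪ (X.image σ).image hi
    have hC : C.card ≤ 2 * (X.image σ).card := by
      refine (Finset.card_union_le _ _).trans ?_
      have h1 : ((X.image σ).image lo).card ≤ (X.image σ).card := Finset.card_image_le
      have h2 : ((X.image σ).image hi).card ≤ (X.image σ).card := Finset.card_image_le
      omega
    have hlo : ∀ x ∈ X, lo (σ x) ∈ X ∧ σ (lo (σ x)) = σ x ∧ lo (σ x) ≤ x ∧ lo (σ x) ∈ C := by
      intro x hx
      have hxf : x ∈ X.filter fun y => σ y = σ x := Finset.mem_filter.2 ⟨hx, rfl⟩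
      have ha : (X.filter fun y => σ y = σ x).Nonempty := ⟨x, hxf⟩
      have e : lo (σ x) = (X.filter fun y => σ y = σ x).min' ha := dif_pos ha
      have h1 := Finset.mem_filter.1 (Finset.min'_mem _ ha)
      rw [← e] at h1
      refine ⟨h1.1, h1.2, ?_, ?_⟩
      · rw [e]; exact Finset.min'_le _ _ hxf
      · exact Finset.mem_union_left _ (Finset.mem_image_of_mem _ (Finset.mem_image_of_mem _ hx))
    have hhi : ∀ x ∈ X, hi (σ x) ∈ X ∧ σ (hi (σ x)) = σ x ∧ x ≤ hi (σ x) ∧ hi (σ x) ∈ C := by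
      intro x hx
      have hxf : x ∈ X.filter fun y => σ y = σ x := Finset.mem_filter.2 ⟨hx, rfl⟩
      have ha : (X.filter fun y => σ y = σ x).Nonempty := ⟨x, hxf⟩
      have e : hi (σ x) = (X.filter fun y => σ y = σ x).max' ha := dif_pos ha
      have h1 := Finset.mem_filter.1 (Finset.max'_mem _ ha)
      rw [← e] at h1
      refine ⟨h1.1, h1.2, ?_, ?_⟩
      · rw [e]; exact Finset.le_max' _ _ hxf
      · exact Finset.mem_union_right _ (Finset.mem_image_of_mem _ (Finset.mem_image_of_mem _ hx))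
    have hsubX : ∀ t, ((seqA_blk X C t).image σ).card ≤ (X.image σ).card := fun t =>
      Finset.card_le_card (Finset.image_subset_image fun x hx => (seqA_mem_blk.1 hx).1.1)
    have hIH := fun t => ih (seqA_blk X C t) ((hsubX t).trans hn) (seqA_block lo hi hlo hhi h t)
    choose D hD1 hD2 using hIH
    refine ⟨(C ∪ C.image (· + 1)) ∪ (Finset.range (2 * (X.image σ).card + 1)).biUnion D, ?_, ?_⟩
    · have h1 := seqA_sum P L (C := C) hn hn0 h
      have h2 : ((Finset.range (2 * (X.image σ).card + 1)).biUnion D).card ≤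
          rho P L * ∑ t ∈ Finset.range (2 * (X.image σ).card + 1),
            ((seqA_blk X C t).image σ).card := by
        refine Finset.card_biUnion_le.trans ?_
        rw [Finset.mul_sum]
        exact Finset.sum_le_sum fun t _ => hD1 t
      have h3 : (C ∪ C.image (· + 1)).card ≤ 4 * (X.image σ).card := by
        refine (Finset.card_union_le _ _).trans ?_
        have h4 : (C.image (· + 1)).card ≤ C.card := Finset.card_image_le
        omega
      calc _ ≤ (C ∪ C.image (· + 1)).card +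
            ((Finset.range (2 * (X.image σ).card + 1)).biUnion D).card := Finset.card_union_le _ _
        _ ≤ 4 * (X.image σ).card + rho P L *
            ((2 ^ (L + 2) + 12 * (P + 3) ^ (L + 2)) * (X.image σ).card) :=
            add_le_add h3 (h2.trans (Nat.mul_le_mul_left _ h1))
        _ = rho P (L + 2) * (X.image σ).card := by
            show _ = (4 + rho P L * (2 ^ (L + 2) + 12 * (P + 3) ^ (L + 2))) * (X.image σ).card
            ring
    · intro x hx y hy z hz hxy hyz hd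
      have hdC : ∀ c ∈ C, ¬ (x < c ∧ c ≤ z) := fun c hc =>
        hd c (Finset.mem_union_left _ (Finset.mem_union_left _ hc))
      have hdC1 : ∀ c ∈ C, ¬ (x < c + 1 ∧ c + 1 ≤ z) := fun c hc =>
        hd (c + 1) (Finset.mem_union_left _ (Finset.mem_union_right _
          (Finset.mem_image_of_mem (· + 1) hc)))
      have hxC : x ∉ C := fun hc => hdC1 x hc ⟨by omega, by omega⟩
      have hyC : y ∉ C := fun hc => hdC y hc ⟨hxy, hyz.le⟩
      have hzC : z ∉ C := fun hc => hdC z hc ⟨hxy.trans hyz, le_rfl⟩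
      have e1 : seqA_kap C x = seqA_kap C z := seqA_kap_eq (by omega) hdC
      have e2 : seqA_kap C x = seqA_kap C y := seqA_kap_eq hxy.le fun c hc h' =>
        hdC c hc ⟨h'.1, h'.2.trans hyz.le⟩
      have ht : seqA_kap C x < 2 * (X.image σ).card + 1 := by
        have := seqA_kap_le C x
        omega
      refine hD2 (seqA_kap C x) x (seqA_mem_blk.2 ⟨⟨hx, hxC⟩, rfl⟩) y
        (seqA_mem_blk.2 ⟨⟨hy, hyC⟩, e2.symm⟩) z (seqA_mem_blk.2 ⟨⟨hz, hzC⟩, e1.symm⟩) hxy hyz ?_
      intro d hd'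
      exact hd d (Finset.mem_union_right _ (Finset.mem_biUnion.2
        ⟨_, Finset.mem_range.2 ht, hd'⟩))

end Pool.Agent.H54.CT
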