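import Pool.Agent.H54.CT.Defs

/-!
# Thickening: an open set of realisations by `m` points

JOB CT-THICKA.

Let `B i = hull (V i)` (compact, non-empty).
`no_triple`: there is `δ > 0` such that the `δ`-neighbourhoods (sup norm boxes: all points `p` with
`|p.1 - q.1| ≤ δ`, `|p.2 - q.2| ≤ δ` for some `q ∈ B`) of three sets without common point have no common
point; for finitely many triples take the minimum.  (`IsCompact`: if for every `δ = 1/(N+1)` there is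
a common point `p_N`, a subsequence converges to a common point of the closed sets;
the metric of `ℝ × ℝ` is the sup metric, so the neighbourhood is `Metric.cthickening δ B`
(`IsCompact.cthickening_eq_biUnion_closedBall`), and `⋂ δ, cthickening δ B = closure B = B`;
`IsCompact.nonempty_iInter_of_directed_nonempty_isCompact_isClosed` also works.)

`near_hull`: let `δ > 0`, `c : Fin 4 → ℝ × ℝ` the corners `(δ, δ), (δ, -δ), (-δ, δ), (-δ, -δ)`, and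
`W` a finite set of points such that for every `v ∈ V` and every corner `c l` there is a point of `W`
at sup distance `≤ δ` from `v + c l`.  Then `hull V ⊆ hull W`: otherwise separate a point
`z ∈ hull V \ hull W` from `hull W`: `u₁ w.1 + u₂ w.2 < u₁ z.1 + u₂ z.2` for all `w ∈ W`; some `v ∈ V` has
`u·z ≤ u·v` (else `z` is in the convex set `{u· < u·z}`); the corner `c` with the signs of `u` has
`u·(v + c) = u·v + δ(|u₁| + |u₂|)`, and the nearby `w` has `u·w ≥ u·(v + c) - δ(|u₁| + |u₂|) = u·v`.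
And if every point of `W` is at sup distance `≤ 2 δ` from a point of `V` then every point of
`hull W` is at sup distance `≤ 2 δ` from a point of `hull V` (convex combination; the set of such
points is `hull V + box`, convex).
-/

set_option autoImplicit false

namespace Pool.Agent.H54.CT

theorem near_hull (V W : Finset (ℝ × ℝ)) (δ : ℝ) (hδ : 0 < δ)
    (h : ∀ v ∈ V, ∀ a b : ℝ, (a = 1 ∨ a = -1) → (b = 1 ∨ b = -1) →
      ∃ w ∈ W, |w.1 - (v.1 + a * δ)| ≤ δ ∧ |w.2 - (v.2 + b * δ)| ≤ δ) :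
    hull V ⊆ hull W := by
  intro z hz
  by_contra hzW
  have hcl : IsClosed (hull W) := (Finset.finite_toSet W).isClosed_convexHull ℝ
  obtain ⟨f, u, h1, h2⟩ := geometric_hahn_banach_closed_point (convex_convexHull ℝ (W : Set (ℝ × ℝ))) hcl hzW
  have hf : ∀ p : ℝ × ℝ, f p = p.1 * f (1, 0) + p.2 * f (0, 1) := by
    intro p
    have e : p = p.1 • ((1 : ℝ), (0 : ℝ)) + p.2 • ((0 : ℝ), (1 : ℝ)) := by
      ext <;> simp
    conv_lhs => rw [e]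
    rw [map_add, map_smul, map_smul, smul_eq_mul, smul_eq_mul]
  have hv : ∃ v ∈ V, f z ≤ f v := by
    by_contra hcon
    push Not at hcon
    have h3 : hull V ⊆ {p | f p < f z} := by
      refine convexHull_min (fun v hv => hcon v hv) ?_
      exact convex_halfSpace_lt f.isLinear (f z)
    have h4 : f z < f z := h3 hz
    exact lt_irrefl _ h4
  obtain ⟨v, hv, hzv⟩ := hv
  have key : ∀ c : ℝ, ∃ a : ℝ, (a = 1 ∨ a = -1) ∧ ∀ x y : ℝ, |x - (y + a * δ)| ≤ δ → y * c ≤ x * c := by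
    intro c
    rcases le_or_gt 0 c with hc | hc
    · refine ⟨1, Or.inl rfl, fun x y hxy => ?_⟩
      have h4 := (abs_le.1 hxy).1
      nlinarith
    · refine ⟨-1, Or.inr rfl, fun x y hxy => ?_⟩
      have h4 := (abs_le.1 hxy).2
      nlinarith
  obtain ⟨a, ha, ha'⟩ := key (f (1, 0))
  obtain ⟨b, hb, hb'⟩ := key (f (0, 1))
  obtain ⟨w, hw, hw1, hw2⟩ := h v hv a b ha hb
  have h5 := ha' _ _ hw1
  have h6 := hb' _ _ hw2
  have h7 := h1 w (subset_convexHull ℝ _ hw)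
  have h8 := hf v
  have h9 := hf w
  linarith

theorem hull_near (V W : Finset (ℝ × ℝ)) (δ : ℝ) (hδ : 0 < δ)
    (h : ∀ w ∈ W, ∃ v ∈ V, |w.1 - v.1| ≤ δ ∧ |w.2 - v.2| ≤ δ) :
    ∀ w ∈ hull W, ∃ v ∈ hull V, |w.1 - v.1| ≤ δ ∧ |w.2 - v.2| ≤ δ := by
  have hab : ∀ (a b x y x' y' : ℝ), 0 ≤ a → 0 ≤ b → a + b = 1 → |x - y| ≤ δ → |x' - y'| ≤ δ →
      |a * x + b * x' - (a * y + b * y')| ≤ δ := by
    intro a b x y x' y' ha hb hab h1 h2
    rw [abs_le] at *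
    constructor <;> nlinarith
  have hsub : hull W ⊆ {w | ∃ v ∈ hull V, |w.1 - v.1| ≤ δ ∧ |w.2 - v.2| ≤ δ} := by
    refine convexHull_min ?_ ?_
    · intro w hw
      obtain ⟨v, hv, h1⟩ := h w hw
      exact ⟨v, subset_convexHull ℝ _ hv, h1⟩
    · rintro p ⟨v, hv, hp1, hp2⟩ q ⟨v', hv', hq1, hq2⟩ a b ha hb hab'
      refine ⟨a • v + b • v', (convex_convexHull ℝ _) hv hv' ha hb hab', ?_, ?_⟩
      · simpa using hab a b _ _ _ _ ha hb hab' hp1 hq1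
      · simpa using hab a b _ _ _ _ ha hb hab' hp2 hq2
  exact hsub

theorem no_triple_aux {A B C : Set (ℝ × ℝ)} (hA : IsCompact A) (hB : IsCompact B) (hC : IsCompact C)
    (h : A ∩ B ∩ C = ∅) : ∃ δ₀ : ℝ, 0 < δ₀ ∧ ∀ δ ≤ δ₀, ∀ p : ℝ × ℝ,
      ¬ ((∃ v ∈ A, |p.1 - v.1| ≤ δ ∧ |p.2 - v.2| ≤ δ) ∧ (∃ v ∈ B, |p.1 - v.1| ≤ δ ∧ |p.2 - v.2| ≤ δ) ∧
        ∃ v ∈ C, |p.1 - v.1| ≤ δ ∧ |p.2 - v.2| ≤ δ) := by
  rcases Set.eq_empty_or_nonempty (A ×ˢ (B ×ˢ C)) with he | hne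
  · refine ⟨1, one_pos, fun δ _ p => ?_⟩
    rintro ⟨⟨a, ha, _⟩, ⟨b, hb, _⟩, c, hc, _⟩
    have h1 : ((a, (b, c)) : (ℝ × ℝ) × (ℝ × ℝ) × (ℝ × ℝ)) ∈ A ×ˢ (B ×ˢ C) := ⟨ha, hb, hc⟩
    rw [he] at h1
    exact h1
  · obtain ⟨t, ht, hmin⟩ := (hA.prod (hB.prod hC)).exists_isMinOn hne
      (f := fun t : (ℝ × ℝ) × (ℝ × ℝ) × (ℝ × ℝ) => dist t.1 t.2.1 + dist t.1 t.2.2)
      (by fun_prop)
    obtain ⟨hta, htb, htc⟩ := ht
    have hpos : 0 < dist t.1 t.2.1 + dist t.1 t.2.2 := by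
      by_contra hcon
      have h1 := dist_nonneg (x := t.1) (y := t.2.1)
      have h2 := dist_nonneg (x := t.1) (y := t.2.2)
      have h3 : t.1 = t.2.1 := dist_eq_zero.1 (by linarith)
      have h4 : t.1 = t.2.2 := dist_eq_zero.1 (by linarith)
      have h5 : t.1 ∈ A ∩ B ∩ C := ⟨⟨hta, h3 ▸ htb⟩, h4 ▸ htc⟩
      rw [h] at h5
      exact h5
    refine ⟨(dist t.1 t.2.1 + dist t.1 t.2.2) / 8, by linarith, fun δ hδ p => ?_⟩
    rintro ⟨⟨a, ha, ha1, ha2⟩, ⟨b, hb, hb1, hb2⟩, c, hc, hc1, hc2⟩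
    have h1 : dist t.1 t.2.1 + dist t.1 t.2.2 ≤ dist a b + dist a c :=
      hmin (show ((a, (b, c)) : (ℝ × ℝ) × (ℝ × ℝ) × (ℝ × ℝ)) ∈ A ×ˢ (B ×ˢ C) from ⟨ha, hb, hc⟩)
    have h2 : dist a b ≤ 2 * δ := by
      rw [Prod.dist_eq, Real.dist_eq, Real.dist_eq]
      rw [abs_le] at ha1 ha2 hb1 hb2
      refine max_le ?_ ?_ <;> rw [abs_le] <;> constructor <;> linarith
    have h3 : dist a c ≤ 2 * δ := by
      rw [Prod.dist_eq, Real.dist_eq, Real.dist_eq]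
      rw [abs_le] at ha1 ha2 hc1 hc2
      refine max_le ?_ ?_ <;> rw [abs_le] <;> constructor <;> linarith
    linarith

theorem no_triple {n : ℕ} (V : Fin n → Finset (ℝ × ℝ))
    (hdis : ∀ i j k, i ≠ j → j ≠ k → i ≠ k → hull (V i) ∩ hull (V j) ∩ hull (V k) = ∅) :
    ∃ δ : ℝ, 0 < δ ∧ ∀ i j k, i ≠ j → j ≠ k → i ≠ k → ∀ p : ℝ × ℝ,
      ¬ ((∃ v ∈ hull (V i), |p.1 - v.1| ≤ δ ∧ |p.2 - v.2| ≤ δ) ∧
        (∃ v ∈ hull (V j), |p.1 - v.1| ≤ δ ∧ |p.2 - v.2| ≤ δ) ∧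
        ∃ v ∈ hull (V k), |p.1 - v.1| ≤ δ ∧ |p.2 - v.2| ≤ δ) := by
  have hcp : ∀ i, IsCompact (hull (V i)) := fun i => (Finset.finite_toSet (V i)).isCompact_convexHull ℝ
  have hev : ∀ i j k, ∀ᶠ δ in nhdsWithin (0 : ℝ) (Set.Ioi 0), i ≠ j → j ≠ k → i ≠ k → ∀ p : ℝ × ℝ,
      ¬ ((∃ v ∈ hull (V i), |p.1 - v.1| ≤ δ ∧ |p.2 - v.2| ≤ δ) ∧
        (∃ v ∈ hull (V j), |p.1 - v.1| ≤ δ ∧ |p.2 - v.2| ≤ δ) ∧
        ∃ v ∈ hull (V k), |p.1 - v.1| ≤ δ ∧ |p.2 - v.2| ≤ δ) := by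
    intro i j k
    by_cases hd : i ≠ j ∧ j ≠ k ∧ i ≠ k
    · obtain ⟨δ₀, hδ₀, h1⟩ := no_triple_aux (hcp i) (hcp j) (hcp k) (hdis i j k hd.1 hd.2.1 hd.2.2)
      filter_upwards [Ioc_mem_nhdsGT hδ₀] with δ hδ _ _ _
      exact h1 δ hδ.2
    · exact Filter.Eventually.of_forall fun δ h1 h2 h3 => absurd ⟨h1, h2, h3⟩ hd
  have hev' := Filter.eventually_all.2 fun i => Filter.eventually_all.2 fun j => Filter.eventually_all.2 (hev i j)
  obtain ⟨δ, h1, h2⟩ := (hev'.and self_mem_nhdsWithin).exists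
  exact ⟨δ, h2, h1⟩

end Pool.Agent.H54.CT
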