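import Mathlib

/-!
# An elementary bound of Warren type for the number of strict sign patterns

JOB CT-WARA.

`zeros_bound`: the functions `Z → ℝ` (`Z` the finset as a type) form a space of dimension
`Z.card`.  Let `W` be the span of the functions `x ↦ ∏ k, x k ^ e k`, `e : ι → Fin M`; there are
`M ^ card ι` of them (`finrank_range_le_card`/`finrank_span_le_card`, `Fintype.card_fun`).
Claim `W = ⊤`.  (a) Every monomial function `x ↦ ∏ k, x k ^ e k` (`e : ι →₀ ℕ` or `ι → ℕ`) is in `W`,
by strong induction on `∑ e`: if some `e k ≥ M`, then `x k ^ M = eval x (f k)` on `Z`, so the function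
is `x ↦ (∏ x ^ (e - M δ_k)) * eval x (f k)`; write `f k` as the sum of its monomials (`MvPolynomial.eval_eq`),
each of degree `≤ totalDegree < M`, so all monomials have degree `< ∑ e`.  (b) So all polynomial
functions are in `W`.  (c) For `z ∈ Z` there is a polynomial that is `1` at `z` and `0` at the other
points of `Z`: the product over `z' ∈ Z \ {z}` of `(X k - C (z' k)) * C (z k - z' k)⁻¹`, where `z k ≠ z' k`.
So all functions on `Z` are in `W`.
-/

set_option autoImplicit false

namespace Pool.Agent.H54.CT

open MvPolynomial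

/-- Monomial functions on a finite set of points. -/
noncomputable def monoFn {ι : Type*} [Fintype ι] (Z : Finset (ι → ℝ)) (e : ι → ℕ) : {x // x ∈ Z} → ℝ :=
  fun x => ∏ k, x.1 k ^ e k

theorem monoFn_mem {ι : Type*} [Fintype ι] [DecidableEq ι] (M : ℕ) (f : ι → MvPolynomial ι ℝ)
    (hf : ∀ i, (f i).totalDegree < M) (Z : Finset (ι → ℝ))
    (hZ : ∀ x ∈ Z, ∀ i, x i ^ M = eval x (f i)) : ∀ (n : ℕ) (e : ι → ℕ), ∑ k, e k = n →
    monoFn Z e ∈ Submodule.span ℝ (Set.range (fun e : ι → Fin M => monoFn Z (fun k => (e k : ℕ)))) := by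
  intro n
  induction n using Nat.strong_induction_on with
  | _ n ih =>
    intro e he
    by_cases h : ∀ k, e k < M
    · exact Submodule.subset_span ⟨fun k => ⟨e k, h k⟩, rfl⟩
    · push Not at h
      obtain ⟨k, hk⟩ := h
      have hM : 0 < M := lt_of_le_of_lt (Nat.zero_le _) (hf k)
      -- the reduced exponent
      let e' : ι → ℕ := Function.update e k (e k - M)
      have hsum : ∑ i, e' i + M = n := by
        have h1 : ∑ i, e' i = (e k - M) + ∑ i ∈ Finset.univ \ {k}, e i := by
          rw [Finset.sum_update_of_mem (Finset.mem_univ k)]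
        have h2 : ∑ i, e i = e k + ∑ i ∈ Finset.univ \ {k}, e i := by
          rw [← Finset.add_sum_erase _ _ (Finset.mem_univ k), Finset.sdiff_singleton_eq_erase]
        omega
      have hprod : ∀ x : {x // x ∈ Z}, monoFn Z e x = x.1 k ^ M * monoFn Z e' x := by
        intro x
        unfold monoFn
        rw [← Finset.mul_prod_erase _ _ (Finset.mem_univ k),
          ← Finset.mul_prod_erase Finset.univ (fun i => x.1 i ^ e' i) (Finset.mem_univ k)]
        have h1 : ∏ i ∈ Finset.univ.erase k, x.1 i ^ e' i = ∏ i ∈ Finset.univ.erase k, x.1 i ^ e i := by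
          refine Finset.prod_congr rfl fun i hi => ?_
          have h3 : e' i = e i := Function.update_of_ne (Finset.ne_of_mem_erase hi) _ _
          rw [h3]
        have h2 : e' k = e k - M := Function.update_self _ _ _
        rw [h1, h2, ← mul_assoc, ← pow_add, Nat.add_sub_cancel' hk]
      have hexp : monoFn Z e = ∑ d ∈ (f k).support, (f k).coeff d • monoFn Z (fun i => d i + e' i) := by
        funext x
        rw [hprod x, hZ x.1 x.2 k, MvPolynomial.eval_eq', Finset.sum_mul, Finset.sum_apply]
        refine Finset.sum_congr rfl fun d _ => ?_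
        rw [Pi.smul_apply, smul_eq_mul, mul_assoc]
        congr 1
        unfold monoFn
        rw [← Finset.prod_mul_distrib]
        refine Finset.prod_congr rfl fun i _ => ?_
        rw [pow_add]
      rw [hexp]
      refine Submodule.sum_mem _ fun d hd => Submodule.smul_mem _ _ (ih _ ?_ _ rfl)
      have h1 : (d.sum fun _ a => a) ≤ (f k).totalDegree := MvPolynomial.le_totalDegree hd
      rw [Finsupp.sum_fintype _ _ (fun _ => rfl)] at h1
      have h2 := hf k
      rw [Finset.sum_add_distrib]
      omega

theorem zeros_bound {ι : Type*} [Fintype ι] [DecidableEq ι] (M : ℕ) (f : ι → MvPolynomial ι ℝ)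
    (hf : ∀ i, (f i).totalDegree < M) (Z : Finset (ι → ℝ))
    (hZ : ∀ x ∈ Z, ∀ i, x i ^ M = eval x (f i)) : Z.card ≤ M ^ Fintype.card ι := by
  classical
  have ha := monoFn_mem M f hf Z hZ
  -- polynomial functions
  have hb : ∀ p : MvPolynomial ι ℝ, (fun x : {x // x ∈ Z} => eval x.1 p) ∈
      Submodule.span ℝ (Set.range (fun e : ι → Fin M => monoFn Z (fun k => (e k : ℕ)))) := by
    intro p
    have h : (fun x : {x // x ∈ Z} => eval x.1 p) = ∑ d ∈ p.support, p.coeff d • monoFn Z (fun i => d i) := by
      funext x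
      rw [MvPolynomial.eval_eq', Finset.sum_apply]
      rfl
    rw [h]
    exact Submodule.sum_mem _ fun d hd => Submodule.smul_mem _ _ (ha _ _ rfl)
  -- indicator functions
  have hc : ∀ z : {x // x ∈ Z}, (Pi.single z 1 : {x // x ∈ Z} → ℝ) ∈
      Submodule.span ℝ (Set.range (fun e : ι → Fin M => monoFn Z (fun k => (e k : ℕ)))) := by
    intro z
    have hk : ∀ z' : ι → ℝ, ∃ p : MvPolynomial ι ℝ, eval z.1 p = 1 ∧ (z' ≠ z.1 → eval z' p = 0) := by
      intro z'
      by_cases h : z' = z.1
      · exact ⟨1, by simp, fun h' => absurd h h'⟩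
      · obtain ⟨k, hk⟩ := Function.ne_iff.1 h
        have hk' : z.1 k - z' k ≠ 0 := sub_ne_zero.2 (Ne.symm hk)
        refine ⟨(X k - C (z' k)) * C ((z.1 k - z' k)⁻¹), ?_, fun _ => ?_⟩
        · simp only [map_mul, map_sub, eval_X, eval_C]
          exact mul_inv_cancel₀ hk'
        · simp
    choose q hq1 hq2 using hk
    have h : (Pi.single z 1 : {x // x ∈ Z} → ℝ) = fun x : {x // x ∈ Z} => eval x.1 (∏ z' ∈ Z, q z') := by
      funext x
      rw [map_prod]
      by_cases hx : x = z
      · subst hx
        rw [Pi.single_eq_same, Finset.prod_eq_one]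
        intro z' _
        exact hq1 z'
      · rw [Pi.single_eq_of_ne hx]
        symm
        refine Finset.prod_eq_zero x.2 ?_
        exact hq2 x.1 fun h => hx (Subtype.ext h)
    rw [h]
    exact hb _
  have htop : Submodule.span ℝ (Set.range (fun e : ι → Fin M => monoFn Z (fun k => (e k : ℕ)))) = ⊤ := by
    rw [eq_top_iff]
    rintro g -
    have h : g = ∑ z, g z • (Pi.single z 1 : {x // x ∈ Z} → ℝ) := by
      funext x
      rw [Finset.sum_apply, Finset.sum_eq_single x]
      · simp
      · intro y _ hy
        rw [Pi.smul_apply, Pi.single_eq_of_ne (Ne.symm hy), smul_zero]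
      · intro hx
        exact absurd (Finset.mem_univ x) hx
    rw [h]
    exact Submodule.sum_mem _ fun z _ => Submodule.smul_mem _ _ (hc z)
  have h1 := finrank_range_le_card (R := ℝ) (fun e : ι → Fin M => monoFn Z (fun k => (e k : ℕ)))
  rw [Set.finrank, htop, finrank_top, Module.finrank_fintype_fun_eq_card, Fintype.card_coe, Fintype.card_fun,
    Fintype.card_fin] at h1
  exact h1

end Pool.Agent.H54.CT
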