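import Pool.Agent.H54.CT.WarA

/-!
# An elementary bound of Warren type

JOB CT-WARB.

`growth`: `|eval x F| ≤ (∑ |coeff|) * R ^ D` if `|x i| ≤ R`, `1 ≤ R`, `totalDegree F ≤ D`
(`MvPolynomial.eval_eq'`, `abs_sum`, each monomial `∏ |x i| ^ e i ≤ R ^ (∑ e i) ≤ R ^ D`).

`warren`: let `F = ∏ k, P k`, `totalDegree F ≤ D := d * card κ`; `M` odd, `D + 1 ≤ M ≤ D + 2`
(so `M + 1` is even and `> D`, `M ≥ 1`).  For `τ ∈ T` take the sample point `x τ`; `F (x τ) ≠ 0`.
Choose `t > 0` with `t * ∑ i, (x τ i) ^ (M+1) < |F (x τ)|` for all `τ ∈ T`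
(finite set), then `R ≥ 1` with all `x τ` in the open box `|x i| < R` and
`C * R ^ D < t * R ^ (M + 1)` (`C` from `growth`; `M + 1 > D`).
For `τ ∈ T` let `σ = ∏ k, (if τ k then 1 else -1)` and `K` the compact set of the `x` with
`|x i| ≤ R` and `0 ≤ sign * eval x (P k)` for all `k`.  `Ψ x = σ * F x - t * ∑ (x i)^(M+1)` attains
its maximum on `K` at `x* `, `Ψ x* ≥ Ψ (x τ) > 0`.  On `K`: `σ F = ∏ (sign * P k) ≥ 0`.  If `P k` vanishes
at `x*` then `F x* = 0`, `Ψ x* ≤ 0`: impossible.  So all signs at `x*` are strict and equal to `τ`.  If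
`|x* i| = R` for some `i` then `Ψ x* ≤ C R^D - t R^(M+1) < 0`: impossible.  So `x*` is an interior point
of `K`, a local maximum, and all partial derivatives vanish:
`σ * eval x* (pderiv i F) = t * (M+1) * (x* i)^M`.  (Derivative along `x* + h e_i`: the one variable
function `h ↦ Ψ (x* + h e_i)` has derivative as stated: the derivative of
`h ↦ eval (Function.update x* i (x* i + h)) F` is `eval _ (pderiv i F)`: prove it by
`MvPolynomial.induction_on`.)  So `x*` is a zero of the system of `zeros_bound` with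
`f i = C (σ / (t (M+1))) * pderiv i F`, `totalDegree < M` (`MvPolynomial.totalDegree_pderiv_le` or
similar, at most `D`), for one of the two values `σ = ±1`.  `τ ↦ x*` is injective (the signs at `x*`
are `τ`), so `T.card ≤ 2 * M ^ card ι ≤ 2 * (D + 3) ^ card ι`.
(To bound: the finset of the `x*` with `σ = 1` and the one with `σ = -1`.)
-/

set_option autoImplicit false

namespace Pool.Agent.H54.CT

open MvPolynomial

theorem growth {ι : Type*} [Fintype ι] (F : MvPolynomial ι ℝ) (D : ℕ) (hF : F.totalDegree ≤ D) :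
    ∃ C : ℝ, 0 ≤ C ∧ ∀ (x : ι → ℝ) (R : ℝ), 1 ≤ R → (∀ i, |x i| ≤ R) → |eval x F| ≤ C * R ^ D := by
  classical
  refine ⟨∑ e ∈ F.support, |coeff e F|, Finset.sum_nonneg fun _ _ => abs_nonneg _,
    fun x R hR hx => ?_⟩
  rw [MvPolynomial.eval_eq', Finset.sum_mul]
  refine (Finset.abs_sum_le_sum_abs _ _).trans (Finset.sum_le_sum fun e he => ?_)
  rw [abs_mul, Finset.abs_prod]
  refine mul_le_mul_of_nonneg_left ?_ (abs_nonneg _)
  have h1 : ∑ i, e i ≤ D := by
    have h2 := MvPolynomial.le_totalDegree he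
    rw [Finsupp.sum_fintype _ _ (by simp)] at h2
    exact h2.trans hF
  calc ∏ i, |x i ^ e i| ≤ ∏ i, R ^ e i := by
        refine Finset.prod_le_prod (fun i _ => abs_nonneg _) fun i _ => ?_
        rw [abs_pow]
        exact pow_le_pow_left₀ (abs_nonneg _) (hx i) _
    _ = R ^ ∑ i, e i := Finset.prod_pow_eq_pow_sum _ _ _
    _ ≤ R ^ D := pow_le_pow_right₀ hR h1

theorem exists_pos_lt {α : Type*} (s : Finset α) (g : α → ℝ) (hg : ∀ a ∈ s, 0 < g a) :
    ∃ t : ℝ, 0 < t ∧ ∀ a ∈ s, t < g a := by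
  classical
  induction s using Finset.induction_on with
  | empty => exact ⟨1, one_pos, by simp⟩
  | insert a s ha ih =>
    obtain ⟨t, ht, h⟩ := ih fun b hb => hg b (Finset.mem_insert_of_mem hb)
    have h1 := hg a (Finset.mem_insert_self a s)
    refine ⟨min t (g a / 2), lt_min ht (half_pos h1), fun b hb => ?_⟩
    rcases Finset.mem_insert.1 hb with rfl | hb
    · exact (min_le_right _ _).trans_lt (half_lt_self h1)
    · exact (min_le_left _ _).trans_lt (h b hb)

theorem totalDegree_pderiv_le' {ι : Type*} [Fintype ι] (F : MvPolynomial ι ℝ) (i : ι) :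
    (pderiv i F).totalDegree ≤ F.totalDegree := by
  classical
  conv_lhs => rw [F.as_sum]
  rw [map_sum]
  refine totalDegree_finsetSum_le fun e he => ?_
  rw [pderiv_monomial]
  refine (totalDegree_monomial_le _ _).trans ?_
  refine le_trans ?_ (le_totalDegree he)
  rw [Finsupp.sum_fintype _ _ (by simp), Finsupp.sum_fintype _ _ (by simp)]
  refine Finset.sum_le_sum fun j _ => ?_
  rw [Finsupp.tsub_apply]
  exact Nat.sub_le _ _

theorem hasDerivAt_eval_update {ι : Type*} [DecidableEq ι] (F : MvPolynomial ι ℝ) (x : ι → ℝ)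
    (i : ι) (y : ℝ) :
    HasDerivAt (fun y => eval (Function.update x i y) F)
      (eval (Function.update x i y) (pderiv i F)) y := by
  induction F using MvPolynomial.induction_on with
  | C a =>
    simp only [eval_C, pderiv_C, map_zero]
    exact hasDerivAt_const y a
  | add p q hp hq =>
    simp only [map_add]
    exact hp.add hq
  | mul_X p j hp =>
    have h1 : HasDerivAt (fun y => Function.update x i y j) (if j = i then (1 : ℝ) else 0) y := by
      by_cases h : j = i
      · subst h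
        simp only [Function.update_self, if_true]
        exact hasDerivAt_id y
      · simp only [Function.update_of_ne h, if_neg h]
        exact hasDerivAt_const y _
    have h2 := hp.mul h1
    have h3 : (fun y => eval (Function.update x i y) (p * X j)) =
        fun y => eval (Function.update x i y) p * Function.update x i y j := by
      funext z
      rw [map_mul, eval_X]
    have h4 : eval (Function.update x i y) (pderiv i (p * X j)) =
        eval (Function.update x i y) (pderiv i p) * Function.update x i y j +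
          eval (Function.update x i y) p * (if j = i then (1 : ℝ) else 0) := by
      rw [pderiv_mul, pderiv_X, map_add, map_mul, map_mul, eval_X]
      congr 1
      by_cases h : j = i
      · subst h; simp
      · simp [h]
    rw [h3, h4]
    exact h2

/-- the critical point in the cell of a sign pattern -/
theorem exists_critical {ι κ : Type*} [Fintype ι] [DecidableEq ι] [Fintype κ]
    (P : κ → MvPolynomial ι ℝ) {C R t : ℝ} {D N : ℕ} (hN : 0 < N) (ht : 0 < t)
    (hgr : ∀ x : ι → ℝ, (∀ i, |x i| ≤ R) → |eval x (∏ k, P k)| ≤ C * R ^ D)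
    (hR : C * R ^ D < t * R ^ (2 * N)) (s : κ → ℝ) (hs : ∀ k, s k = 1 ∨ s k = -1)
    (x₀ : ι → ℝ) (hx₀R : ∀ i, |x₀ i| ≤ R) (hx₀ : ∀ k, 0 < s k * eval x₀ (P k))
    (hx₀t : t * ∑ i, x₀ i ^ (2 * N) < ∏ k, (s k * eval x₀ (P k))) :
    ∃ x : ι → ℝ, (∀ k, 0 < s k * eval x (P k)) ∧
      ∀ i, x i ^ (2 * N - 1) =
        eval x (MvPolynomial.C ((∏ k, s k) / (t * (2 * N : ℕ))) * pderiv i (∏ k, P k)) := by
  classical
  set F := ∏ k, P k with hF
  set σ := ∏ k, s k with hσ
  have hσF : ∀ x : ι → ℝ, ∏ k, (s k * eval x (P k)) = σ * eval x F := by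
    intro x
    rw [Finset.prod_mul_distrib, hF, map_prod]
  have hσ1 : |σ| = 1 := by
    rw [hσ, Finset.abs_prod]
    refine Finset.prod_eq_one fun k _ => ?_
    rcases hs k with h | h <;> rw [h] <;> simp
  have hcont : ∀ Q : MvPolynomial ι ℝ, Continuous fun x : ι → ℝ => eval x Q := fun Q =>
    MvPolynomial.continuous_eval Q
  let K : Set (ι → ℝ) := {x | (∀ i, |x i| ≤ R) ∧ ∀ k, 0 ≤ s k * eval x (P k)}
  have hKc : IsCompact K := by
    have h1 : IsCompact (Set.Icc (fun _ : ι => -R) (fun _ : ι => R)) := isCompact_Icc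
    refine h1.of_isClosed_subset ?_ ?_
    · have h2 : K = (⋂ i, {x : ι → ℝ | |x i| ≤ R}) ∩ ⋂ k, {x : ι → ℝ | 0 ≤ s k * eval x (P k)} := by
        ext x
        simp [K, Set.mem_iInter]
      rw [h2]
      refine IsClosed.inter (isClosed_iInter fun i => ?_) (isClosed_iInter fun k => ?_)
      · exact isClosed_le (continuous_apply i).abs continuous_const
      · exact isClosed_le continuous_const (continuous_const.mul (hcont _))
    · intro x hx
      rw [Set.mem_Icc, Pi.le_def, Pi.le_def]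
      exact ⟨fun i => (abs_le.1 (hx.1 i)).1, fun i => (abs_le.1 (hx.1 i)).2⟩
  have hx₀K : x₀ ∈ K := ⟨hx₀R, fun k => (hx₀ k).le⟩
  let Ψ : (ι → ℝ) → ℝ := fun x => σ * eval x F - t * ∑ i, x i ^ (2 * N)
  have hΨ : Continuous Ψ := by
    refine (continuous_const.mul (hcont _)).sub (continuous_const.mul ?_)
    exact continuous_finsetSum _ fun i _ => (continuous_apply i).pow _
  obtain ⟨x, hxK, hxmax⟩ := hKc.exists_isMaxOn ⟨x₀, hx₀K⟩ hΨ.continuousOn
  have hpos : 0 < Ψ x := by
    have h1 : Ψ x₀ ≤ Ψ x := hxmax hx₀K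
    have h2 : 0 < Ψ x₀ := by
      change 0 < σ * eval x₀ F - t * ∑ i, x₀ i ^ (2 * N)
      rw [← hσF]
      linarith
    linarith
  have hsum0 : ∀ y : ι → ℝ, 0 ≤ ∑ i, y i ^ (2 * N) := fun y =>
    Finset.sum_nonneg fun i _ => by rw [pow_mul]; positivity
  have hstrict : ∀ k, 0 < s k * eval x (P k) := by
    intro k
    refine lt_of_le_of_ne (hxK.2 k) fun h => ?_
    have h1 : ∏ k, (s k * eval x (P k)) = 0 := Finset.prod_eq_zero (Finset.mem_univ k) h.symm
    have h2 : Ψ x = σ * eval x F - t * ∑ i, x i ^ (2 * N) := rfl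
    rw [h2, ← hσF, h1] at hpos
    have h3 := mul_nonneg ht.le (hsum0 x)
    linarith
  have hint : ∀ i, |x i| < R := by
    intro i
    refine lt_of_le_of_ne (hxK.1 i) fun h => ?_
    have h2 : Ψ x = σ * eval x F - t * ∑ i, x i ^ (2 * N) := rfl
    have h3 : σ * eval x F ≤ C * R ^ D := by
      refine (le_abs_self _).trans ?_
      rw [abs_mul, hσ1, one_mul]
      exact hgr x hxK.1
    have h4 : R ^ (2 * N) ≤ ∑ i, x i ^ (2 * N) := by
      have h5 : x i ^ (2 * N) = R ^ (2 * N) := by
        rw [← h, pow_mul, pow_mul, sq_abs]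
      rw [← h5]
      exact Finset.single_le_sum (f := fun i => x i ^ (2 * N))
        (fun i _ => by change 0 ≤ x i ^ (2 * N); rw [pow_mul]; positivity) (Finset.mem_univ i)
    have h5 := mul_le_mul_of_nonneg_left h4 ht.le
    linarith
  refine ⟨x, hstrict, fun i => ?_⟩
  -- local maximum in the direction `i`
  have hopen : IsOpen {y : ι → ℝ | (∀ i, |y i| < R) ∧ ∀ k, 0 < s k * eval y (P k)} := by
    have h2 : {y : ι → ℝ | (∀ i, |y i| < R) ∧ ∀ k, 0 < s k * eval y (P k)} =
        (⋂ i, {x : ι → ℝ | |x i| < R}) ∩ ⋂ k, {x : ι → ℝ | 0 < s k * eval x (P k)} := by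
      ext x
      simp [Set.mem_iInter]
    rw [h2]
    refine IsOpen.inter (isOpen_iInter_of_finite fun i => ?_) (isOpen_iInter_of_finite fun k => ?_)
    · exact isOpen_lt (continuous_apply i).abs continuous_const
    · exact isOpen_lt continuous_const (continuous_const.mul (hcont _))
  have hnhds : {y : ι → ℝ | (∀ i, |y i| < R) ∧ ∀ k, 0 < s k * eval y (P k)} ∈ nhds x :=
    hopen.mem_nhds ⟨hint, hstrict⟩
  have hupd : Continuous fun y : ℝ => Function.update x i y :=
    continuous_const.update i continuous_id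
  have hself : Function.update x i (x i) = x := Function.update_eq_self i x
  have hmax : IsLocalMax (fun y : ℝ => Ψ (Function.update x i y)) (x i) := by
    have h1 : (fun y : ℝ => Function.update x i y) ⁻¹'
        {y : ι → ℝ | (∀ i, |y i| < R) ∧ ∀ k, 0 < s k * eval y (P k)} ∈ nhds (x i) :=
      hupd.continuousAt.preimage_mem_nhds (by rw [hself]; exact hnhds)
    refine Filter.mem_of_superset h1 fun y hy => ?_
    change Ψ (Function.update x i y) ≤ Ψ (Function.update x i (x i))
    rw [hself]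
    exact hxmax ⟨fun j => (hy.1 j).le, fun k => (hy.2 k).le⟩
  have hder : HasDerivAt (fun y : ℝ => Ψ (Function.update x i y))
      (σ * eval x (pderiv i F) - t * ((2 * N : ℕ) * x i ^ (2 * N - 1))) (x i) := by
    have h1 := (hasDerivAt_eval_update F x i (x i)).const_mul σ
    rw [hself] at h1
    have h2 : HasDerivAt (fun y : ℝ => ∑ j, Function.update x i y j ^ (2 * N))
        ((2 * N : ℕ) * x i ^ (2 * N - 1)) (x i) := by
      have h3 : (fun y : ℝ => ∑ j, Function.update x i y j ^ (2 * N)) =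
          fun y : ℝ => y ^ (2 * N) + ∑ j ∈ Finset.univ.erase i, x j ^ (2 * N) := by
        funext y
        rw [← Finset.add_sum_erase _ _ (Finset.mem_univ i), Function.update_self]
        congr 1
        refine Finset.sum_congr rfl fun j hj => ?_
        rw [Function.update_of_ne (Finset.ne_of_mem_erase hj)]
      rw [h3]
      exact (hasDerivAt_pow (2 * N) (x i)).add_const _
    exact h1.sub (h2.const_mul t)
  have hz := hmax.hasDerivAt_eq_zero hder
  rw [map_mul, eval_C]
  have hN' : ((2 * N : ℕ) : ℝ) ≠ 0 := by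
    have : 2 * N ≠ 0 := by omega
    exact_mod_cast this
  have ht' := ht.ne'
  field_simp
  linarith

theorem warren {ι κ : Type*} [Fintype ι] [DecidableEq ι] [Fintype κ]
    (P : κ → MvPolynomial ι ℝ) (d : ℕ) (hd : ∀ k, (P k).totalDegree ≤ d)
    (T : Finset (κ → Bool))
    (hT : ∀ τ ∈ T, ∃ x : ι → ℝ, ∀ k, if τ k then 0 < eval x (P k) else eval x (P k) < 0) :
    T.card ≤ 2 * (d * Fintype.card κ + 3) ^ Fintype.card ι := by
  classical
  set F := ∏ k, P k with hF
  set D := d * Fintype.card κ with hD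
  have hFD : F.totalDegree ≤ D := by
    refine (totalDegree_finsetProd _ _).trans ?_
    refine (Finset.sum_le_card_nsmul _ _ d fun k _ => hd k).trans ?_
    rw [Finset.card_univ, smul_eq_mul, mul_comm]
  set N := (D + 1) / 2 + 1 with hN
  obtain ⟨C, hC0, hC⟩ := growth F D hFD
  let s : (κ → Bool) → κ → ℝ := fun τ k => if τ k then 1 else -1
  have hs : ∀ τ k, s τ k = 1 ∨ s τ k = -1 := by
    intro τ k
    by_cases h : τ k = true
    · left; exact if_pos h
    · right; exact if_neg h
  have hsP : ∀ (τ : κ → Bool) (x : ι → ℝ) (k : κ), 0 < s τ k * eval x (P k) ↔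
      if τ k then 0 < eval x (P k) else eval x (P k) < 0 := by
    intro τ x k
    cases h : τ k <;> simp [s, h]
  choose! x hx using hT
  have hx' : ∀ τ ∈ T, ∀ k, 0 < s τ k * eval (x τ) (P k) := fun τ hτ k => (hsP τ _ k).2 (hx τ hτ k)
  have hsum0 : ∀ y : ι → ℝ, 0 ≤ ∑ i, y i ^ (2 * N) := fun y =>
    Finset.sum_nonneg fun i _ => by rw [pow_mul]; positivity
  obtain ⟨t, ht, hlt⟩ := exists_pos_lt T
    (fun τ => (∏ k, (s τ k * eval (x τ) (P k))) / (∑ i, x τ i ^ (2 * N) + 1)) (fun τ hτ =>
      div_pos (Finset.prod_pos fun k _ => hx' τ hτ k) (by linarith [hsum0 (x τ)]))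
  set R := 1 + C / t + ∑ τ ∈ T, ∑ i, |x τ i| with hR
  have hsumabs : 0 ≤ ∑ τ ∈ T, ∑ i, |x τ i| :=
    Finset.sum_nonneg fun _ _ => Finset.sum_nonneg fun _ _ => abs_nonneg _
  have hCt : 0 ≤ C / t := div_nonneg hC0 ht.le
  have hR1 : 1 ≤ R := by linarith
  have hRx : ∀ τ ∈ T, ∀ i, |x τ i| ≤ R := by
    intro τ hτ i
    have h1 : |x τ i| ≤ ∑ i, |x τ i| :=
      Finset.single_le_sum (f := fun i => |x τ i|) (fun _ _ => abs_nonneg _) (Finset.mem_univ i)
    have h2 : ∑ i, |x τ i| ≤ ∑ τ ∈ T, ∑ i, |x τ i| :=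
      Finset.single_le_sum (f := fun τ => ∑ i, |x τ i|)
        (fun _ _ => Finset.sum_nonneg fun _ _ => abs_nonneg _) hτ
    linarith
  have hRt : C * R ^ D < t * R ^ (2 * N) := by
    have h1 : D + 1 ≤ 2 * N := by omega
    have h2 : R ^ (D + 1) ≤ R ^ (2 * N) := pow_le_pow_right₀ hR1 h1
    have h3 : C < t * R := by
      have h4 : C / t < R := by linarith
      rw [div_lt_iff₀ ht] at h4
      linarith
    have h5 : 0 < R ^ D := by positivity
    calc C * R ^ D < t * R * R ^ D := mul_lt_mul_of_pos_right h3 h5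
      _ = t * R ^ (D + 1) := by ring
      _ ≤ t * R ^ (2 * N) := mul_le_mul_of_nonneg_left h2 ht.le
  have key : ∀ τ ∈ T, ∃ z : ι → ℝ, (∀ k, 0 < s τ k * eval z (P k)) ∧
      ∀ i, z i ^ (2 * N - 1) =
        eval z (MvPolynomial.C ((∏ k, s τ k) / (t * (2 * N : ℕ))) * pderiv i F) := by
    intro τ hτ
    refine exists_critical P (C := C) (R := R) (D := D) (by omega) ht
      (fun y hy => hC y R hR1 hy) hRt (s τ) (hs τ) (x τ) (hRx τ hτ) (hx' τ hτ) ?_
    have h1 := hlt τ hτ
    have h2 : 0 < ∑ i, x τ i ^ (2 * N) + 1 := by linarith [hsum0 (x τ)]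
    rw [lt_div_iff₀ h2] at h1
    linarith
  choose! z hz1 hz2 using key
  have hinj : Set.InjOn z T := by
    intro τ hτ τ' hτ' h
    funext k
    have h1 := hz1 τ hτ k
    have h2 := hz1 τ' hτ' k
    rw [← h] at h2
    rw [hsP] at h1 h2
    cases h3 : τ k <;> cases h4 : τ' k <;> simp [h3, h4] at h1 h2 ⊢ <;> linarith
  have hM : 2 * N - 1 = 2 * ((D + 1) / 2) + 1 := by omega
  have hMD : D < 2 * N - 1 := by omega
  have hMD3 : 2 * N - 1 ≤ D + 3 := by omega
  have hbound : ∀ ε : ℝ, (T.filter fun τ => ∏ k, s τ k = ε).card ≤ (D + 3) ^ Fintype.card ι := by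
    intro ε
    have h1 : ((T.filter fun τ => ∏ k, s τ k = ε).image z).card =
        (T.filter fun τ => ∏ k, s τ k = ε).card :=
      Finset.card_image_of_injOn (hinj.mono (by
        intro τ hτ
        exact Finset.mem_coe.2 (Finset.mem_filter.1 (Finset.mem_coe.1 hτ)).1))
    rw [← h1]
    refine (zeros_bound (2 * N - 1)
      (fun i => MvPolynomial.C (ε / (t * (2 * N : ℕ))) * pderiv i F) ?_ _ ?_).trans
      (Nat.pow_le_pow_left hMD3 _)
    · intro i
      refine lt_of_le_of_lt ?_ hMD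
      refine (totalDegree_mul _ _).trans ?_
      rw [totalDegree_C, zero_add]
      exact (totalDegree_pderiv_le' F i).trans hFD
    · intro y hy i
      obtain ⟨τ, hτ, rfl⟩ := Finset.mem_image.1 hy
      obtain ⟨hτT, hτε⟩ := Finset.mem_filter.1 hτ
      rw [← hτε]
      exact hz2 τ hτT i
  have hunion : T ⊆ (T.filter fun τ => ∏ k, s τ k = 1) ∪ (T.filter fun τ => ∏ k, s τ k = -1) := by
    intro τ hτ
    have h1 : ∏ k, s τ k = 1 ∨ ∏ k, s τ k = -1 := by
      have h2 : |∏ k, s τ k| = 1 := by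
        rw [Finset.abs_prod]
        refine Finset.prod_eq_one fun k _ => ?_
        rcases hs τ k with h | h <;> rw [h] <;> simp
      exact (abs_eq zero_le_one).1 h2
    rcases h1 with h | h
    · exact Finset.mem_union_left _ (Finset.mem_filter.2 ⟨hτ, h⟩)
    · exact Finset.mem_union_right _ (Finset.mem_filter.2 ⟨hτ, h⟩)
  calc T.card ≤ _ := Finset.card_le_card hunion
    _ ≤ _ := Finset.card_union_le _ _
    _ ≤ (D + 3) ^ Fintype.card ι + (D + 3) ^ Fintype.card ι := add_le_add (hbound 1) (hbound (-1))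
    _ = 2 * (D + 3) ^ Fintype.card ι := by ring

end Pool.Agent.H54.CT
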